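import Mathlib

/-!
# Compactly supported C1-small displacements of a finite-dimensional space
-/

namespace Pool.Agent.Lib.MP_95f3db_an

open scoped Topology
open Set Filter Metric

variable {P : Type*} [NormedAddCommGroup P] [NormedSpace ℝ P]

/-- A C1 displacement vanishing off `K` with derivative bounded by `δ`. -/
structure Small (K : Set P) (δ : ℝ) (u : P → P) : Prop where
  cd : ContDiff ℝ 1 u
  bd : ∀ y, ‖fderiv ℝ u y‖ ≤ δ
  zero : ∀ y ∉ K, u y = 0

namespace Small

variable {K K' : Set P} {δ δ' : ℝ} {u : P → P}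

lemma mono (h : Small K δ u) (hK : K ⊆ K') (hδ : δ ≤ δ') : Small K' δ' u :=
  ⟨h.cd, fun y => (h.bd y).trans hδ, fun y hy => h.zero y fun h' => hy (hK h')⟩

lemma nonneg (h : Small K δ u) : 0 ≤ δ := (norm_nonneg _).trans (h.bd 0)

lemma diff (h : Small K δ u) : Differentiable ℝ u := h.cd.differentiable one_ne_zero

lemma lip (h : Small K δ u) (x y : P) : ‖u x - u y‖ ≤ δ * ‖x - y‖ :=
  (convex_univ (𝕜 := ℝ) (E := P)).norm_image_sub_le_of_norm_fderiv_le (fun z _ => h.diff z)
    (fun z _ => h.bd z) (mem_univ y) (mem_univ x)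

lemma norm_le (h : Small K δ u) {R : ℝ} (hR : 0 ≤ R) (hK : K ⊆ closedBall 0 R) (y : P) :
    ‖u y‖ ≤ δ * (2 * R + 1) := by
  have h0 := h.nonneg
  by_cases hy : y ∈ K
  · rcases subsingleton_or_nontrivial P with hP | hP
    · rw [Subsingleton.elim (u y) 0, norm_zero]; positivity
    · obtain ⟨z, hz⟩ := exists_norm_eq P (show 0 ≤ R + 1 by linarith)
      have hzK : z ∉ K := fun h' => by
        have := hK h'
        rw [mem_closedBall_zero_iff] at this
        linarith
      have h1 := h.lip y z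
      rw [h.zero z hzK, sub_zero] at h1
      have h2 : ‖y - z‖ ≤ 2 * R + 1 := by
        have := hK hy
        rw [mem_closedBall_zero_iff] at this
        have := norm_sub_le y z
        linarith
      exact h1.trans (by gcongr)
  · rw [h.zero y hy, norm_zero]; positivity

lemma fderiv_zero (h : Small K δ u) (hK : IsClosed K) {y : P} (hy : y ∉ K) :
    fderiv ℝ u y = 0 := by
  have : u =ᶠ[𝓝 y] fun _ => 0 := by
    filter_upwards [hK.isOpen_compl.mem_nhds hy] with z hz using h.zero z hz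
  rw [this.fderiv_eq]; simp

lemma exists_homeo [CompleteSpace P] (h : Small K δ u) (hδ : δ ≤ 1 / 2) :
    ∃ e : P ≃ₜ P, (∀ y, e y = y + u y) ∧ ContDiff ℝ 1 e ∧ ContDiff ℝ 1 e.symm := by
  have hA : ApproximatesLinearOn (fun y => y + u y)
      (ContinuousLinearEquiv.refl ℝ P : P →L[ℝ] P) univ (1 / 2 : NNReal) := by
    intro x _ y _
    have := h.lip x y
    have e : x + u x - (y + u y) - (ContinuousLinearEquiv.refl ℝ P : P →L[ℝ] P) (x - y)
        = u x - u y := by simp; abel
    rw [e]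
    refine this.trans ?_
    gcongr
    simpa using hδ
  have hc : Subsingleton P ∨ (1 / 2 : NNReal) <
      ‖((ContinuousLinearEquiv.refl ℝ P).symm : P →L[ℝ] P)‖₊⁻¹ := by
    rcases subsingleton_or_nontrivial P with hP | hP
    · exact Or.inl hP
    · right
      simp only [ContinuousLinearEquiv.refl_symm, ContinuousLinearEquiv.coe_refl,
        ContinuousLinearMap.nnnorm_id, inv_one]
      norm_num
  have hcd : ContDiff ℝ 1 (fun y => y + u y) := contDiff_id.add h.cd
  have hn : ∀ y, ‖-fderiv ℝ u y‖ < 1 := fun y => by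
    rw [norm_neg]; linarith [h.bd y]
  refine ⟨hA.toHomeomorph _ hc, fun _ => rfl, hcd, ?_⟩
  refine Homeomorph.contDiff_symm (hA.toHomeomorph _ hc)
    (f₀' := fun y => ContinuousLinearEquiv.unitsEquiv ℝ P (Units.oneSub _ (hn y))) ?_ hcd
  intro y
  have := (hasFDerivAt_id y).add (h.diff y).hasFDerivAt
  have e : ((ContinuousLinearEquiv.unitsEquiv ℝ P (Units.oneSub _ (hn y)) : P ≃L[ℝ] P) :
      P →L[ℝ] P) = ContinuousLinearMap.id ℝ P + fderiv ℝ u y := by
    ext v
    simp
  rw [e]
  exact this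

/-- Sum of displacements with disjoint supports. -/
lemma sum_disjoint {S : ℕ → Set P} (hS : ∀ n, IsClosed (S n))
    (hd : Pairwise fun n m => Disjoint (S n) (S m)) {v : ℕ → P → P} {d : ℕ → ℝ}
    (hv : ∀ n, Small (S n) (d n) (v n)) (hlim : Tendsto d atTop (𝓝 0)) (hδ : ∀ n, d n ≤ δ) :
    ∃ u, Small (⋃ n, S n) δ u ∧ ∀ n, ∀ x ∈ S n, u x = v n x := by
  classical
  have h0 : 0 ≤ δ := (hv 0).nonneg.trans (hδ 0)
  set u : P → P := fun x => if h : ∃ n, x ∈ S n then v h.choose x else 0 with hu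
  set u' : P → P →L[ℝ] P := fun x => if h : ∃ n, x ∈ S n then fderiv ℝ (v h.choose) x else 0
    with hu'
  have huniq : ∀ n x, x ∈ S n → ∀ h : ∃ n, x ∈ S n, h.choose = n := by
    intro n x hx h
    by_contra hne
    exact Set.disjoint_left.mp (hd hne) h.choose_spec hx
  have hux : ∀ n, ∀ x ∈ S n, u x = v n x := by
    intro n x hx
    have h : ∃ n, x ∈ S n := ⟨n, hx⟩
    simp only [hu, dif_pos h, huniq n x hx h]
  have hux' : ∀ n, ∀ x ∈ S n, u' x = fderiv ℝ (v n) x := by
    intro n x hx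
    have h : ∃ n, x ∈ S n := ⟨n, hx⟩
    simp only [hu', dif_pos h, huniq n x hx h]
  have hsum : ∀ n, ∀ x ∈ S n, ∀ N, ∑ i ∈ Finset.range N, v i x
      = if n < N then v n x else 0 := by
    intro n x hx N
    split_ifs with h
    · refine Finset.sum_eq_single_of_mem n (Finset.mem_range.mpr h) fun i _ hi => ?_
      exact (hv i).zero x fun h' => Set.disjoint_left.mp (hd hi) h' hx
    · refine Finset.sum_eq_zero fun i hi => ?_
      have hi' : i ≠ n := by rw [Finset.mem_range] at hi; omega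
      exact (hv i).zero x fun h' => Set.disjoint_left.mp (hd hi') h' hx
  have hsum' : ∀ n, ∀ x ∈ S n, ∀ N, ∑ i ∈ Finset.range N, fderiv ℝ (v i) x
      = if n < N then fderiv ℝ (v n) x else 0 := by
    intro n x hx N
    split_ifs with h
    · refine Finset.sum_eq_single_of_mem n (Finset.mem_range.mpr h) fun i _ hi => ?_
      exact (hv i).fderiv_zero (hS i) fun h' => Set.disjoint_left.mp (hd hi) h' hx
    · refine Finset.sum_eq_zero fun i hi => ?_
      have hi' : i ≠ n := by rw [Finset.mem_range] at hi; omega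
      exact (hv i).fderiv_zero (hS i) fun h' => Set.disjoint_left.mp (hd hi') h' hx
  have hU : TendstoUniformly (fun N x => ∑ i ∈ Finset.range N, fderiv ℝ (v i) x) u' atTop := by
    rw [Metric.tendstoUniformly_iff]
    intro ε hε
    obtain ⟨N₀, hN₀⟩ := eventually_atTop.mp (hlim.eventually (gt_mem_nhds hε))
    filter_upwards [eventually_ge_atTop N₀] with N hN x
    by_cases h : ∃ n, x ∈ S n
    · obtain ⟨n, hx⟩ := h
      rw [hux' n x hx, hsum' n x hx]
      split_ifs with hn
      · simpa using hε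
      · rw [dist_zero_right]
        exact ((hv n).bd x).trans_lt (hN₀ n (by omega))
    · have : ∑ i ∈ Finset.range N, fderiv ℝ (v i) x = 0 :=
        Finset.sum_eq_zero fun i _ => (hv i).fderiv_zero (hS i) fun h' => h ⟨i, h'⟩
      rw [this]
      simp only [hu', dif_neg h]
      simpa using hε
  have hder : ∀ x, HasFDerivAt u (u' x) x := by
    refine hasFDerivAt_of_tendstoUniformly (f := fun N x => ∑ i ∈ Finset.range N, v i x) hU ?_ ?_
    · intro N x
      exact HasFDerivAt.fun_sum fun i _ => ((hv i).diff x).hasFDerivAt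
    · intro x
      by_cases h : ∃ n, x ∈ S n
      · obtain ⟨n, hx⟩ := h
        refine tendsto_const_nhds.congr' ?_
        filter_upwards [eventually_gt_atTop n] with N hN
        rw [hsum n x hx, if_pos hN, hux n x hx]
      · have : ∀ N, ∑ i ∈ Finset.range N, v i x = 0 := fun N =>
          Finset.sum_eq_zero fun i _ => (hv i).zero x fun h' => h ⟨i, h'⟩
        simp only [this, hu, dif_neg h]
        exact tendsto_const_nhds
  have hcont : Continuous u' := hU.continuous (Frequently.of_forall fun N =>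
    continuous_finsetSum _ fun i _ => (hv i).cd.continuous_fderiv one_ne_zero)
  refine ⟨u, ⟨contDiff_one_iff_hasFDerivAt.mpr ⟨u', hcont, hder⟩, fun x => ?_, fun x hx => ?_⟩, hux⟩
  · rw [(hder x).fderiv]
    by_cases h : ∃ n, x ∈ S n
    · obtain ⟨n, hx⟩ := h
      rw [hux' n x hx]
      exact ((hv n).bd x).trans (hδ n)
    · simp only [hu', dif_neg h]
      simpa using h0
  · have h : ¬ ∃ n, x ∈ S n := by simpa using hx
    simp only [hu, dif_neg h]

end Small

/-- Affine conjugate of a displacement along a fixed vector. -/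
lemma small_affine {D : Set P} {η : P → ℝ} {δ : ℝ} (hη : ContDiff ℝ 1 η)
    (hb : ∀ y, ‖fderiv ℝ η y‖ ≤ δ) (h0 : ∀ y ∉ D, η y = 0) (e a : P) (L : P ≃L[ℝ] P) :
    Small ((fun y => a + L y) '' D) (‖L e‖ * ‖(L.symm : P →L[ℝ] P)‖ * δ)
      (fun x => η (L.symm (x - a)) • L e) := by
  have hi : ContDiff ℝ 1 fun x => L.symm (x - a) :=
    L.symm.contDiff.comp (contDiff_id.sub contDiff_const)
  refine ⟨(hη.comp hi).smul contDiff_const, fun x => ?_, fun x hx => ?_⟩
  · have h1 : HasFDerivAt (fun x => L.symm (x - a)) (L.symm : P →L[ℝ] P) x := by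
      exact L.symm.hasFDerivAt.comp x ((hasFDerivAt_id x).sub_const a)
    have h2 := ((hη.differentiable one_ne_zero _).hasFDerivAt.comp x h1).smul_const (L e)
    have h3 : fderiv ℝ (fun x => η (L.symm (x - a)) • L e) x = _ := h2.fderiv
    rw [h3, ContinuousLinearMap.norm_smulRight_apply]
    have h4 := (fderiv ℝ η (L.symm (x - a))).opNorm_comp_le (L.symm : P →L[ℝ] P)
    have h5 := hb (L.symm (x - a))
    calc _ ≤ (δ * ‖(L.symm : P →L[ℝ] P)‖) * ‖L e‖ := by
          gcongr
          exact h4.trans (by gcongr)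
      _ = _ := by ring
  · rw [h0, zero_smul]
    intro h'
    exact hx ⟨_, h', by simp⟩

variable (P) in
/-- Cut-off lemma. -/
lemma exists_cutoff [FiniteDimensional ℝ P] : ∃ C : ℝ, 1 ≤ C ∧ ∀ (a : P) (s θ : ℝ) (G : P → P),
    0 < s → 0 ≤ θ → (∀ y ∈ ball a (3 * s), ContDiffAt ℝ 1 G y) →
    (∀ y ∈ ball a (3 * s), ‖G y‖ ≤ 3 * θ * s) → (∀ y ∈ ball a (3 * s), ‖fderiv ℝ G y‖ ≤ θ) →
    ∃ χ : P → ℝ, ContDiff ℝ 1 χ ∧ (∀ y, 0 ≤ χ y) ∧ (∀ y, χ y ≤ 1) ∧
      (∀ y ∈ closedBall a s, χ y = 1) ∧ (∀ y ∉ closedBall a (2 * s), χ y = 0) ∧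
      Small (closedBall a (2 * s)) (C * θ) fun y => χ y • G y := by
  let b : ContDiffBump (0 : P) := ⟨1, 2, one_pos, by norm_num⟩
  have hb : ContDiff ℝ 1 b := b.contDiff
  obtain ⟨C₀, hC₀⟩ := (b.hasCompactSupport.fderiv (𝕜 := ℝ)).exists_bound_of_continuous
    (hb.continuous_fderiv one_ne_zero)
  have hC₀' : 0 ≤ C₀ := (norm_nonneg _).trans (hC₀ 0)
  refine ⟨1 + 3 * C₀, by linarith, fun a s θ G hs hθ hG hG0 hG1 => ?_⟩
  have hi : ContDiff ℝ 1 fun y : P => s⁻¹ • (y - a) :=
    (contDiff_id.sub contDiff_const).const_smul _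
  have hχ : ContDiff ℝ 1 fun y : P => b (s⁻¹ • (y - a)) := hb.comp hi
  have hnorm : ∀ y : P, ‖s⁻¹ • (y - a)‖ = ‖y - a‖ / s := fun y => by
    rw [norm_smul, norm_inv, Real.norm_of_nonneg hs.le]; field_simp
  have hz : ∀ y ∉ closedBall a (2 * s), b (s⁻¹ • (y - a)) = 0 := by
    intro y hy
    apply b.zero_of_le_dist
    rw [mem_closedBall, dist_eq_norm, not_le] at hy
    rw [dist_zero_right, hnorm, le_div_iff₀ hs]
    exact hy.le
  have hsub : closedBall a (2 * s) ⊆ ball a (3 * s) := closedBall_subset_ball (by linarith)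
  have hev : ∀ y ∉ closedBall a (2 * s),
      (fun y => b (s⁻¹ • (y - a)) • G y) =ᶠ[𝓝 y] fun _ => 0 := by
    intro y hy
    filter_upwards [isClosed_closedBall.isOpen_compl.mem_nhds hy] with z hz'
    rw [hz z hz', zero_smul]
  refine ⟨fun y => b (s⁻¹ • (y - a)), hχ, fun y => b.nonneg, fun y => b.le_one, fun y hy => ?_,
    hz, ?_, fun y => ?_, fun y hy => by simp only [hz y hy, zero_smul]⟩
  · apply b.one_of_mem_closedBall
    rw [mem_closedBall, dist_eq_norm] at hy
    rw [mem_closedBall, dist_zero_right, hnorm, div_le_iff₀ hs]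
    simpa [b] using hy
  · rw [contDiff_iff_contDiffAt]
    intro y
    by_cases hy : y ∈ closedBall a (2 * s)
    · exact hχ.contDiffAt.smul (hG y (hsub hy))
    · exact contDiffAt_const.congr_of_eventuallyEq (hev y hy)
  · by_cases hy : y ∈ closedBall a (2 * s)
    · have h1 : HasFDerivAt (fun y : P => s⁻¹ • (y - a)) (s⁻¹ • ContinuousLinearMap.id ℝ P) y :=
        ((hasFDerivAt_id y).sub_const a).const_smul _
      have h2 := ((hb.differentiable one_ne_zero _).hasFDerivAt.comp y h1).smul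
        ((hG y (hsub hy)).differentiableAt one_ne_zero).hasFDerivAt
      have h3 : fderiv ℝ (fun y => b (s⁻¹ • (y - a)) • G y) y = _ := h2.fderiv
      rw [h3]
      refine (norm_add_le _ _).trans ?_
      rw [ContinuousLinearMap.norm_smulRight_apply, norm_smul]
      have h4 : ‖(b ∘ fun y : P => s⁻¹ • (y - a)) y‖ ≤ 1 := by
        rw [Function.comp_apply, Real.norm_of_nonneg b.nonneg]; exact b.le_one
      have h5 : ‖(fderiv ℝ b (s⁻¹ • (y - a))).comp (s⁻¹ • ContinuousLinearMap.id ℝ P)‖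
          ≤ C₀ * s⁻¹ := by
        refine (ContinuousLinearMap.opNorm_comp_le _ _).trans ?_
        gcongr
        · exact hC₀ _
        · rw [norm_smul, norm_inv, Real.norm_of_nonneg hs.le]
          exact mul_le_of_le_one_right (by positivity) ContinuousLinearMap.norm_id_le
      have h6 := hG0 y (hsub hy)
      have h7 := hG1 y (hsub hy)
      calc _ ≤ 1 * θ + (C₀ * s⁻¹) * (3 * θ * s) := by gcongr
        _ = _ := by field_simp
    · rw [(hev y hy).fderiv_eq]
      simp only [fderiv_fun_const, Pi.zero_apply, norm_zero]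
      positivity

end Pool.Agent.Lib.MP_95f3db_an
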