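import Pool.Agent.Lib.MP_95f3db_an.Defs
import Pool.Agent.Lib.MP_95f3db_an.Local

/-!
# C1 charts, local representatives, transport of local perturbations
-/

namespace Pool.Agent.Lib.MP_95f3db_an

open scoped Manifold ContDiff Topology
open Set Filter Metric

variable {E : Type*} [NormedAddCommGroup E] [NormedSpace ℝ E] {M : Type*} [TopologicalSpace M]
  [ChartedSpace E M]

noncomputable instance diffGroup : Group (Diff1 E M) where
  mul f g := g.trans f
  one := Diffeomorph.refl _ _ _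
  inv f := f.symm
  mul_assoc _ _ _ := rfl
  one_mul _ := rfl
  mul_one _ := rfl
  inv_mul_cancel f := f.self_trans_symm

@[simp] lemma diff_mul_apply (f g : Diff1 E M) (x : M) : (f * g) x = f (g x) := rfl
@[simp] lemma diff_one_apply (x : M) : (1 : Diff1 E M) x = x := rfl
lemma diff_inv (f : Diff1 E M) : f⁻¹ = f.symm := rfl
@[simp] lemma diff_inv_apply (f : Diff1 E M) (x : M) : f⁻¹ (f x) = x := f.symm_apply_apply x
@[simp] lemma diff_apply_inv (f : Diff1 E M) (x : M) : f (f⁻¹ x) = x := f.apply_symm_apply x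
lemma diff_coe_mul (f g : Diff1 E M) : ⇑(f * g) = f ∘ g := rfl
lemma diff_coe_one : ⇑(1 : Diff1 E M) = id := rfl

lemma diff_coe_pow (f : Diff1 E M) (n : ℕ) : ⇑(f ^ n) = f^[n] := by
  induction n with
  | zero => rfl
  | succ n ih => rw [pow_succ, diff_coe_mul, ih]; rfl

/-- The forgetful homomorphism to permutations. -/
noncomputable def toPerm : Diff1 E M →* Equiv.Perm M where
  toFun f := f.toEquiv
  map_one' := rfl
  map_mul' _ _ := rfl

lemma diff_zpow_apply (f : Diff1 E M) (n : ℤ) (x : M) : (f.toEquiv ^ n) x = (f ^ n) x := by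
  have := toPerm.map_zpow f n
  exact (congrArg (fun e : Equiv.Perm M => e x) this).symm

lemma diff_inj (f : Diff1 E M) : Function.Injective f := f.toEquiv.injective

variable {P Q R : Type*} [NormedAddCommGroup P] [NormedSpace ℝ P] [NormedAddCommGroup Q]
  [NormedSpace ℝ Q] [NormedAddCommGroup R] [NormedSpace ℝ R]

variable (E) in
/-- A C1 chart with values in a normed space. -/
structure IsChart (φ : OpenPartialHomeomorph M P) : Prop where
  cd : ContMDiffOn 𝓘(ℝ, E) 𝓘(ℝ, P) 1 φ φ.source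
  cd_symm : ContMDiffOn 𝓘(ℝ, P) 𝓘(ℝ, E) 1 φ.symm φ.target

/-- Local representative. -/
noncomputable def rep (k : Diff1 E M) (φ : OpenPartialHomeomorph M P) (ψ : OpenPartialHomeomorph M Q) : P → Q :=
  fun y => ψ (k (φ.symm y))

/-- Domain of the local representative. -/
def Dom (k : Diff1 E M) (φ : OpenPartialHomeomorph M P) (ψ : OpenPartialHomeomorph M Q) : Set P :=
  {y | y ∈ φ.target ∧ k (φ.symm y) ∈ ψ.source}

variable {φ : OpenPartialHomeomorph M P} {ψ : OpenPartialHomeomorph M Q}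
  {χ : OpenPartialHomeomorph M R} {k l : Diff1 E M}

omit [NormedSpace ℝ P] [NormedSpace ℝ Q] in
lemma isOpen_dom : IsOpen (Dom k φ ψ) :=
  φ.isOpen_inter_preimage_symm (ψ.open_source.preimage k.continuous)

omit [NormedSpace ℝ P] [NormedSpace ℝ Q] in
lemma Dom.symm_rep {y : P} (h : y ∈ Dom k φ ψ) : ψ.symm (rep k φ ψ y) = k (φ.symm y) :=
  ψ.left_inv h.2

omit [NormedSpace ℝ P] [NormedSpace ℝ Q] in
lemma Dom.rep_mem {y : P} (h : y ∈ Dom k φ ψ) : rep k φ ψ y ∈ ψ.target :=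
  ψ.map_source h.2

omit [NormedSpace ℝ P] [NormedSpace ℝ Q] in
lemma Dom.inv {y : P} (h : y ∈ Dom k φ ψ) : rep k φ ψ y ∈ Dom k⁻¹ ψ φ :=
  ⟨Dom.rep_mem h, by rw [Dom.symm_rep h, diff_inv_apply]; exact φ.map_target h.1⟩

omit [NormedSpace ℝ P] [NormedSpace ℝ Q] in
lemma Dom.rep_inv {y : P} (h : y ∈ Dom k φ ψ) : rep k⁻¹ ψ φ (rep k φ ψ y) = y := by
  rw [rep, Dom.symm_rep h, diff_inv_apply, φ.right_inv h.1]

omit [NormedSpace ℝ P] [NormedSpace ℝ Q] [NormedSpace ℝ R] in
lemma Dom.rep_mul {y : P} (h : y ∈ Dom k φ ψ) :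
    rep (l * k) φ χ y = rep l ψ χ (rep k φ ψ y) := by
  rw [rep, rep, Dom.symm_rep h, diff_mul_apply]

omit [NormedSpace ℝ P] [NormedSpace ℝ Q] [NormedSpace ℝ R] in
lemma Dom.mul {y : P} (h : y ∈ Dom k φ ψ) (h' : rep k φ ψ y ∈ Dom l ψ χ) :
    y ∈ Dom (l * k) φ χ :=
  ⟨h.1, by rw [diff_mul_apply, ← Dom.symm_rep h]; exact h'.2⟩

lemma contDiffAt_rep (hφ : IsChart E φ) (hψ : IsChart E ψ) {y : P} (h : y ∈ Dom k φ ψ) :
    ContDiffAt ℝ 1 (rep k φ ψ) y := by
  rw [← contMDiffAt_iff_contDiffAt]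
  exact (hψ.cd.contMDiffAt (ψ.open_source.mem_nhds h.2)).comp y
    (k.contMDiffAt.comp y (hφ.cd_symm.contMDiffAt (φ.open_target.mem_nhds h.1)))

lemma hasFDerivAt_rep (hφ : IsChart E φ) (hψ : IsChart E ψ) {y : P} (h : y ∈ Dom k φ ψ) :
    HasFDerivAt (rep k φ ψ) (fderiv ℝ (rep k φ ψ) y) y :=
  ((contDiffAt_rep hφ hψ h).differentiableAt one_ne_zero).hasFDerivAt

lemma continuousOn_fderiv_rep (hφ : IsChart E φ) (hψ : IsChart E ψ) :
    ContinuousOn (fderiv ℝ (rep k φ ψ)) (Dom k φ ψ) := fun _ h =>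
  ((contDiffAt_rep hφ hψ h).continuousAt_fderiv one_ne_zero).continuousWithinAt

lemma fderiv_rep_mul (hφ : IsChart E φ) (hψ : IsChart E ψ) (hχ : IsChart E χ) {y : P}
    (h : y ∈ Dom k φ ψ) (h' : rep k φ ψ y ∈ Dom l ψ χ) :
    fderiv ℝ (rep (l * k) φ χ) y =
      (fderiv ℝ (rep l ψ χ) (rep k φ ψ y)).comp (fderiv ℝ (rep k φ ψ) y) := by
  have : rep (l * k) φ χ =ᶠ[𝓝 y] rep l ψ χ ∘ rep k φ ψ := by
    filter_upwards [isOpen_dom.mem_nhds h] with z hz using Dom.rep_mul hz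
  rw [this.fderiv_eq]
  exact ((hasFDerivAt_rep hψ hχ h').comp y (hasFDerivAt_rep hφ hψ h)).fderiv

lemma fderiv_rep_one {y : P} (h : y ∈ φ.target) :
    fderiv ℝ (rep (1 : Diff1 E M) φ φ) y = ContinuousLinearMap.id ℝ P := by
  have : rep (1 : Diff1 E M) φ φ =ᶠ[𝓝 y] id := by
    filter_upwards [φ.open_target.mem_nhds h] with z hz using φ.right_inv hz
  rw [this.fderiv_eq, fderiv_id]

lemma exists_equiv_rep (hφ : IsChart E φ) (hψ : IsChart E ψ) {y : P} (h : y ∈ Dom k φ ψ) :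
    ∃ L : P ≃L[ℝ] Q, (L : P →L[ℝ] Q) = fderiv ℝ (rep k φ ψ) y ∧
      (L.symm : Q →L[ℝ] P) = fderiv ℝ (rep k⁻¹ ψ φ) (rep k φ ψ y) := by
  have h1 := fderiv_rep_mul hφ hψ hφ h (Dom.inv h)
  rw [inv_mul_cancel, fderiv_rep_one h.1] at h1
  have h2 := fderiv_rep_mul (l := k) hψ hφ hψ (Dom.inv h) (by rw [Dom.rep_inv h]; exact h)
  rw [mul_inv_cancel, fderiv_rep_one (Dom.rep_mem h), Dom.rep_inv h] at h2
  exact ⟨ContinuousLinearEquiv.equivOfInverse _ _ (fun v => (DFunLike.congr_fun h1 v).symm)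
    (fun v => (DFunLike.congr_fun h2 v).symm), rfl, rfl⟩

/-- Post-composition of a chart with an affine isomorphism. -/
noncomputable def affChart (φ : OpenPartialHomeomorph M P) (a : P) (L : P ≃L[ℝ] Q) :
    OpenPartialHomeomorph M Q :=
  φ.transHomeomorph ((Homeomorph.addRight a).symm.trans L.toHomeomorph)

@[simp] lemma affChart_apply (a : P) (L : P ≃L[ℝ] Q) (x : M) :
    affChart φ a L x = L (φ x - a) := by
  simp [affChart, sub_eq_add_neg, Homeomorph.addRight_symm]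

@[simp] lemma affChart_symm_apply (a : P) (L : P ≃L[ℝ] Q) (y : Q) :
    (affChart φ a L).symm y = φ.symm (L.symm y + a) := by
  simp [affChart]

@[simp] lemma affChart_source (a : P) (L : P ≃L[ℝ] Q) : (affChart φ a L).source = φ.source := rfl

lemma mem_affChart_target (a : P) (L : P ≃L[ℝ] Q) (y : Q) :
    y ∈ (affChart φ a L).target ↔ L.symm y + a ∈ φ.target := by
  simp [affChart]

lemma IsChart.aff (hφ : IsChart E φ) (a : P) (L : P ≃L[ℝ] Q) : IsChart E (affChart φ a L) := by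
  constructor
  · have h : ContDiff ℝ 1 fun y => L (y - a) := L.contDiff.comp (contDiff_id.sub contDiff_const)
    exact (h.contMDiff.comp_contMDiffOn hφ.cd).congr fun x _ => by simp
  · have h : ContDiff ℝ 1 fun y => L.symm y + a := L.symm.contDiff.add contDiff_const
    exact (hφ.cd_symm.comp h.contMDiff.contMDiffOn fun y hy =>
      (mem_affChart_target a L y).mp hy).congr fun x _ => by simp

lemma isChart_chartAt [IsManifold 𝓘(ℝ, E) 1 M] (x : M) : IsChart E (chartAt E x) :=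
  ⟨contMDiffOn_chart, contMDiffOn_chart_symm⟩

/-- `σ` is the transport of the displacement `u` by the chart `φ`. -/
structure IsTr (φ : OpenPartialHomeomorph M P) (K : Set P) (u : P → P) (σ : Diff1 E M) : Prop where
  mem : ∀ y ∈ φ.target, y + u y ∈ φ.target
  eq : ∀ y ∈ φ.target, σ (φ.symm y) = φ.symm (y + u y)
  out : ∀ x ∉ φ.symm '' K, σ x = x

omit [NormedSpace ℝ P] in
lemma IsTr.mono {K K' : Set P} {u : P → P} {σ : Diff1 E M} (h : IsTr φ K u σ) (hK : K ⊆ K') :
    IsTr φ K' u σ :=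
  ⟨h.mem, h.eq, fun x hx => h.out x fun h' => hx (image_mono hK h')⟩

omit [NormedSpace ℝ P] in
lemma IsTr.dom {K : Set P} {u : P → P} {σ : Diff1 E M} (h : IsTr φ K u σ) {y : P}
    (hy : y ∈ φ.target) : y ∈ Dom σ φ φ :=
  ⟨hy, by rw [h.eq y hy]; exact φ.map_target (h.mem y hy)⟩

omit [NormedSpace ℝ P] in
lemma IsTr.rep_eq {K : Set P} {u : P → P} {σ : Diff1 E M} (h : IsTr φ K u σ) {y : P}
    (hy : y ∈ φ.target) : rep σ φ φ y = y + u y := by
  rw [rep, h.eq y hy, φ.right_inv (h.mem y hy)]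

lemma IsTr.fderiv_rep {K : Set P} {u : P → P} {σ : Diff1 E M} (h : IsTr φ K u σ) {δ : ℝ}
    (hu : Small K δ u) {y : P} (hy : y ∈ φ.target) :
    fderiv ℝ (rep σ φ φ) y = ContinuousLinearMap.id ℝ P + fderiv ℝ u y := by
  have : rep σ φ φ =ᶠ[𝓝 y] fun z => z + u z := by
    filter_upwards [φ.open_target.mem_nhds hy] with z hz using h.rep_eq hz
  rw [this.fderiv_eq]
  exact ((hasFDerivAt_id y).add (hu.diff y).hasFDerivAt).fderiv

omit [NormedSpace ℝ P] in
lemma isCompact_symm_image {K : Set P} (hK : IsCompact K) (hKt : K ⊆ φ.target) :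
    IsCompact (φ.symm '' K) :=
  hK.image_of_continuousOn (φ.continuousOn_symm.mono hKt)

open Classical in
lemma contMDiff_tr [T2Space M] (hφ : IsChart E φ) {K : Set P} (hK : IsCompact K)
    (hKt : K ⊆ φ.target) {e : P → P} (he : ContDiff ℝ 1 e) (h1 : ∀ y ∈ φ.target, e y ∈ φ.target)
    (h2 : ∀ y ∉ K, e y = y) :
    ContMDiff 𝓘(ℝ, E) 𝓘(ℝ, E) 1 fun x => if x ∈ φ.source then φ.symm (e (φ x)) else x := by
  intro x
  by_cases hx : x ∈ φ.source
  · refine ContMDiffAt.congr_of_eventuallyEq (f := fun x => φ.symm (e (φ x))) ?_ ?_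
    · exact (hφ.cd_symm.contMDiffAt (φ.open_target.mem_nhds (h1 _ (φ.map_source hx)))).comp x
        (he.contMDiff.contMDiffAt.comp x (hφ.cd.contMDiffAt (φ.open_source.mem_nhds hx)))
    · filter_upwards [φ.open_source.mem_nhds hx] with z hz using if_pos hz
  · refine ContMDiffAt.congr_of_eventuallyEq (f := id) contMDiffAt_id ?_
    have hx' : x ∉ φ.symm '' K := by
      rintro ⟨y, hy, rfl⟩
      exact hx (φ.map_target (hKt hy))
    filter_upwards [(isCompact_symm_image hK hKt).isClosed.isOpen_compl.mem_nhds hx'] with z hz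
    split_ifs with hz'
    · rw [h2, φ.left_inv hz', id]
      intro h'
      exact hz ⟨_, h', φ.left_inv hz'⟩
    · rfl

lemma exists_tr [T2Space M] [CompleteSpace P] (hφ : IsChart E φ) {K : Set P} (hK : IsCompact K)
    (hKt : K ⊆ φ.target) {u : P → P} {δ : ℝ} (hu : Small K δ u) (hδ : δ ≤ 1 / 2) :
    ∃ σ : Diff1 E M, IsTr φ K u σ := by
  classical
  obtain ⟨e, he, hc, hc'⟩ := hu.exists_homeo hδ
  have h2 : ∀ y ∉ K, e y = y := fun y hy => by rw [he, hu.zero y hy, add_zero]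
  have h2' : ∀ y ∉ K, e.symm y = y := fun y hy => by
    rw [e.symm_apply_eq, h2 y hy]
  have h1 : ∀ y ∈ φ.target, e y ∈ φ.target := by
    intro y hy
    by_cases h : e y ∈ K
    · exact hKt h
    · rwa [e.injective (h2 _ h)]
  have h1' : ∀ y ∈ φ.target, e.symm y ∈ φ.target := by
    intro y hy
    by_cases h : e.symm y ∈ K
    · exact hKt h
    · rwa [e.symm.injective (h2' _ h)]
  have key : ∀ (a b : P → P), (∀ y ∈ φ.target, a y ∈ φ.target) → (∀ y, b (a y) = y) →
      Function.LeftInverse (fun x => if x ∈ φ.source then φ.symm (b (φ x)) else x)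
        (fun x => if x ∈ φ.source then φ.symm (a (φ x)) else x) := by
    intro a b ha hb x
    by_cases hx : x ∈ φ.source
    · have := ha _ (φ.map_source hx)
      simp only [if_pos hx, if_pos (φ.map_target this), φ.right_inv this, hb, φ.left_inv hx]
    · simp only [if_neg hx]
  refine ⟨⟨⟨fun x => if x ∈ φ.source then φ.symm (e (φ x)) else x,
    fun x => if x ∈ φ.source then φ.symm (e.symm (φ x)) else x,
    key _ _ h1 e.symm_apply_apply, key _ _ h1' e.apply_symm_apply⟩,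
    contMDiff_tr hφ hK hKt hc h1 h2, contMDiff_tr hφ hK hKt hc' h1' h2'⟩, ?_, ?_, ?_⟩
  · intro y hy
    rw [← he]; exact h1 y hy
  · intro y hy
    show (if φ.symm y ∈ φ.source then φ.symm (e (φ (φ.symm y))) else φ.symm y) = _
    rw [if_pos (φ.map_target hy), φ.right_inv hy, he]
  · intro x hx
    show (if x ∈ φ.source then φ.symm (e (φ x)) else x) = _
    split_ifs with hz'
    · rw [h2, φ.left_inv hz']
      intro h'
      exact hx ⟨_, h', φ.left_inv hz'⟩
    · rfl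

end Pool.Agent.Lib.MP_95f3db_an
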