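import Pool.Agent.Lib.MP_95f3db_an.Surgery

/-!
# Contracting chart balls; the basic perturbation lemma
-/

namespace Pool.Agent.Lib.MP_95f3db_an

open scoped Manifold ContDiff Topology
open Set Filter Metric Function

variable {E : Type*} [NormedAddCommGroup E] [NormedSpace ℝ E] {M : Type*} [TopologicalSpace M]
  [ChartedSpace E M] {P Q : Type*} [NormedAddCommGroup P] [NormedSpace ℝ P] [NormedAddCommGroup Q]
  [NormedSpace ℝ Q] {φ : OpenPartialHomeomorph M P} {ψ : OpenPartialHomeomorph M Q}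

/-- `f` contracts the closed ball of radius `R` of the chart `φ` into the open ball. -/
structure Contr (f : Diff1 E M) (φ : OpenPartialHomeomorph M P) (R : ℝ) : Prop where
  pos : 0 < R
  dom : closedBall 0 R ⊆ Dom f φ φ
  maps : ∀ y ∈ closedBall 0 R, rep f φ φ y ∈ ball 0 R
  lt : ∀ y ∈ closedBall 0 R, ‖fderiv ℝ (rep f φ φ) y‖ < 1

lemma Contr.iter {f : Diff1 E M} {R : ℝ} (h : Contr f φ R) {y : P} (hy : y ∈ closedBall 0 R)
    (n : ℕ) : y ∈ Dom (f ^ n) φ φ ∧ rep (f ^ n) φ φ y ∈ closedBall 0 R := by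
  induction n with
  | zero =>
    have := (h.dom hy).1
    refine ⟨⟨this, φ.map_target this⟩, ?_⟩
    rwa [pow_zero, rep, diff_one_apply, φ.right_inv this]
  | succ n ih =>
    rw [pow_succ']
    refine ⟨Dom.mul ih.1 (h.dom ih.2), ?_⟩
    rw [Dom.rep_mul ih.1]
    exact ball_subset_closedBall (h.maps _ ih.2)

lemma Contr.rep_succ {f : Diff1 E M} {R : ℝ} (h : Contr f φ R) {y : P} (hy : y ∈ closedBall 0 R)
    (n : ℕ) : rep (f ^ (n + 1)) φ φ y = rep f φ φ (rep (f ^ n) φ φ y) := by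
  rw [pow_succ', Dom.rep_mul (h.iter hy n).1]

lemma Contr.rep_zero {f : Diff1 E M} {R : ℝ} (h : Contr f φ R) {y : P} (hy : y ∈ closedBall 0 R) :
    rep (f ^ 0) φ φ y = y := by
  rw [pow_zero, rep, diff_one_apply, φ.right_inv (h.dom hy).1]

lemma homog_bounds [FiniteDimensional ℝ P] {q : P → ℝ} (hq : Continuous q)
    (h1 : ∀ (t : ℝ) v, q (t • v) = |t| * q v) (h2 : ∀ v ≠ 0, 0 < q v) :
    ∃ a b : ℝ, 0 < a ∧ 0 < b ∧ ∀ v, a * ‖v‖ ≤ q v ∧ q v ≤ b * ‖v‖ := by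
  have : ProperSpace P := FiniteDimensional.proper ℝ P
  obtain ⟨a, ha, ha'⟩ := (isCompact_sphere (0 : P) 1).exists_forall_le' hq.continuousOn
    (a := 0) fun v hv => h2 v (by rintro rfl; simp at hv)
  obtain ⟨b, hb⟩ := (isCompact_sphere (0 : P) 1).exists_bound_of_continuousOn hq.continuousOn
  refine ⟨a, max b 1, ha, by positivity, fun v => ?_⟩
  by_cases hv : v = 0
  · have := h1 0 v
    rw [zero_smul, abs_zero, zero_mul] at this
    simp [hv, this]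
  · have hn : 0 < ‖v‖ := norm_pos_iff.mpr hv
    have e : v = ‖v‖ • ‖v‖⁻¹ • v := by rw [smul_smul, mul_inv_cancel₀ hn.ne', one_smul]
    have hm : ‖v‖⁻¹ • v ∈ sphere (0 : P) 1 := by
      rw [mem_sphere_zero_iff_norm, norm_smul, norm_inv, norm_norm, inv_mul_cancel₀ hn.ne']
    have e2 : q v = ‖v‖ * q (‖v‖⁻¹ • v) := by
      conv_lhs => rw [e, h1, abs_norm]
    rw [e2]
    have a1 := ha' _ hm
    have a2 := (le_abs_self _).trans ((hb _ hm).trans (le_max_left b 1))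
    constructor <;> nlinarith

variable [FiniteDimensional ℝ P]

lemma Contr.exists_lip {f : Diff1 E M} {R : ℝ} (hφ : IsChart E φ) (h : Contr f φ R) :
    ∃ θ : ℝ, 0 < θ ∧ θ < 1 ∧ (∀ y ∈ closedBall (0 : P) R, ‖fderiv ℝ (rep f φ φ) y‖ ≤ θ) ∧
      ∀ y ∈ closedBall (0 : P) R, ∀ z ∈ closedBall (0 : P) R,
        ‖rep f φ φ y - rep f φ φ z‖ ≤ θ * ‖y - z‖ := by
  have : ProperSpace P := FiniteDimensional.proper ℝ P
  obtain ⟨y₀, hy₀, hmax⟩ := (isCompact_closedBall (0 : P) R).exists_isMaxOn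
    ⟨0, mem_closedBall_self h.pos.le⟩ ((continuousOn_fderiv_rep hφ hφ).mono h.dom).norm
  have hb : ∀ y ∈ closedBall (0 : P) R, ‖fderiv ℝ (rep f φ φ) y‖ ≤
      max ‖fderiv ℝ (rep f φ φ) y₀‖ (1 / 2) := fun y hy => (hmax hy).trans (le_max_left _ _)
  refine ⟨_, by positivity, max_lt (h.lt y₀ hy₀) (by norm_num), hb, fun y hy z hz => ?_⟩
  exact (convex_closedBall (0 : P) R).norm_image_sub_le_of_norm_fderiv_le
    (fun x hx => (hasFDerivAt_rep hφ hφ (h.dom hx)).differentiableAt) hb hz hy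

lemma Contr.exists_fix {f : Diff1 E M} {R : ℝ} (hφ : IsChart E φ) (h : Contr f φ R) :
    ∃ s ∈ closedBall (0 : P) R, rep f φ φ s = s := by
  have : CompleteSpace P := FiniteDimensional.complete ℝ P
  obtain ⟨θ, h0, h1, -, h3⟩ := h.exists_lip hφ
  have hm : MapsTo (rep f φ φ) (closedBall 0 R) (closedBall 0 R) := fun y hy =>
    ball_subset_closedBall (h.maps y hy)
  have hc : ContractingWith ⟨θ, h0.le⟩ (hm.restrict _ _ _) := by
    refine ⟨h1, LipschitzWith.of_dist_le_mul fun y z => ?_⟩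
    rw [Subtype.dist_eq, Subtype.dist_eq, dist_eq_norm, dist_eq_norm]
    exact h3 y y.2 z z.2
  obtain ⟨s, hs, hs', -⟩ := hc.exists_fixedPoint' isClosed_closedBall.isComplete hm
    (mem_closedBall_self h.pos.le) (edist_ne_top _ _)
  exact ⟨s, hs, hs'⟩

lemma Contr.iter_le {f : Diff1 E M} {R : ℝ} (hφ : IsChart E φ) (h : Contr f φ R) {s : P}
    (hs : s ∈ closedBall 0 R) (hfix : rep f φ φ s = s) :
    ∃ θ : ℝ, 0 < θ ∧ θ < 1 ∧ ‖fderiv ℝ (rep f φ φ) s‖ ≤ θ ∧ ∀ y ∈ closedBall (0 : P) R, ∀ n,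
      ‖rep (f ^ n) φ φ y - s‖ ≤ θ ^ n * ‖y - s‖ := by
  obtain ⟨θ, h0, h1, h2, h3⟩ := h.exists_lip hφ
  refine ⟨θ, h0, h1, h2 s hs, fun y hy n => ?_⟩
  induction n with
  | zero => rw [h.rep_zero hy]; simp
  | succ n ih =>
    rw [h.rep_succ hy]
    conv_lhs => rw [← hfix]
    refine (h3 _ (h.iter hy n).2 s hs).trans ?_
    rw [pow_succ', mul_assoc]
    gcongr

variable [IsManifold 𝓘(ℝ, E) 1 M]

lemma len_up_bounds (hφ : IsChart E φ) {s : P} (hs : s ∈ φ.target)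
    {g : ∀ x : M, LinearMap.BilinForm ℝ (TangentSpace 𝓘(ℝ, E) x)} (hg : IsRiemannian g) :
    ∃ a b : ℝ, 0 < a ∧ 0 < b ∧ ∀ v, a * ‖v‖ ≤ len g (up E φ (s, v)) ∧
      len g (up E φ (s, v)) ≤ b * ‖v‖ := by
  refine homog_bounds ?_ ?_ ?_
  · refine (hg.2.2.comp (continuous_iff_continuousAt.mpr fun v => ?_)).sqrt
    exact (continuousAt_up hφ (p := (s, v)) hs).comp_of_eq (by fun_prop) rfl
  · intro t v
    have e : (up E φ (s, t • v)).2 = t • (up E φ (s, v)).2 :=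
      (mfderiv 𝓘(ℝ, P) 𝓘(ℝ, E) φ.symm s).map_smul t v
    have key : ∀ (x : M) (a : TangentSpace 𝓘(ℝ, E) x),
        √(g x (t • a) (t • a)) = |t| * √(g x a a) := by
      intro x a
      rw [map_smul, map_smul, LinearMap.smul_apply, smul_eq_mul, smul_eq_mul, ← mul_assoc,
        Real.sqrt_mul (mul_self_nonneg t), Real.sqrt_mul_self_eq_abs]
    unfold len
    rw [e]
    exact key _ _
  · intro v hv
    refine Real.sqrt_pos.mpr (hg.2.1 _ _ fun h0 => hv ?_)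
    have h1 := down_tang_up (k := 1) hφ hφ (y := s) ⟨hs, φ.map_target hs⟩ v
    rw [tang_one, fderiv_rep_one hs] at h1
    have h2 : (down φ (up E φ (s, v))).2 = 0 := by
      show mfderiv 𝓘(ℝ, E) 𝓘(ℝ, P) φ (up E φ (s, v)).1 (up E φ (s, v)).2 = 0
      rw [h0, map_zero]
    rw [h1] at h2
    exact h2

lemma Contr.sink [T2Space M] {f : Diff1 E M} {R : ℝ} (hφ : IsChart E φ) (h : Contr f φ R) {s : P}
    (hs : s ∈ closedBall 0 R) (hfix : rep f φ φ s = s) :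
    Sink f (φ.symm '' closedBall 0 R) (φ.symm s) := by
  have : ProperSpace P := FiniteDimensional.proper ℝ P
  obtain ⟨θ, h0, h1, h2, h3⟩ := h.iter_le hφ hs hfix
  have ht : closedBall (0 : P) R ⊆ φ.target := fun y hy => (h.dom hy).1
  have hs' : s ∈ ball (0 : P) R := hfix ▸ h.maps s hs
  have hint : φ.symm '' closedBall 0 R ∈ 𝓝 (φ.symm s) :=
    φ.symm.image_mem_nhds (ht hs) (mem_of_superset (isOpen_ball.mem_nhds hs') ball_subset_closedBall)
  have hit : ∀ y ∈ closedBall (0 : P) R, ∀ n, f^[n] (φ.symm y) = φ.symm (rep (f ^ n) φ φ y) := by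
    intro y hy n
    rw [Dom.symm_rep (h.iter hy n).1, diff_coe_pow]
  have hpow : ∀ n : ℕ, θ ^ n ≤ 1 := fun n => pow_le_one₀ h0.le h1.le
  refine ⟨(isCompact_symm_image (isCompact_closedBall _ _) ht).isClosed, ?_, ?_, hint, ?_, ?_,
    ?_, ?_⟩
  · rintro _ ⟨y, hy, rfl⟩
    exact ⟨_, ball_subset_closedBall (h.maps y hy), Dom.symm_rep (h.dom hy)⟩
  · rw [← Dom.symm_rep (h.dom hs), hfix]
  · rintro _ ⟨y, hy, rfl⟩
    simp only [hit y hy]
    refine (φ.continuousAt_symm (ht hs)).tendsto.comp ?_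
    rw [tendsto_iff_norm_sub_tendsto_zero]
    have := (tendsto_pow_atTop_nhds_zero_of_lt_one h0.le h1).mul_const ‖y - s‖
    rw [zero_mul] at this
    exact squeeze_zero (fun _ => norm_nonneg _) (h3 y hy) this
  · rintro _ ⟨y, hy, rfl⟩ hw
    by_contra hne
    have hys : 0 < ‖y - s‖ := norm_pos_iff.mpr (sub_ne_zero.mpr fun e => hne (by rw [e]))
    have a1 := h3 y hy 1
    rw [pow_one, pow_one] at a1
    obtain ⟨t, t1, t2⟩ := exists_between (a1.trans_lt (mul_lt_of_lt_one_left hys h1))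
    have hx : φ.symm y ∈ φ.source := φ.map_target (ht hy)
    have b1 : ∀ᶠ x in 𝓝 (φ.symm y), t < ‖φ x - s‖ := by
      refine ((φ.continuousAt hx).sub continuousAt_const).norm.eventually (lt_mem_nhds ?_)
      show t < ‖φ (φ.symm y) - s‖
      rwa [φ.right_inv (ht hy)]
    have c0 : ContinuousAt (fun x => φ (f x)) (φ.symm y) :=
      (φ.continuousAt (h.dom hy).2).comp_of_eq f.continuous.continuousAt rfl
    have b2 : ∀ᶠ x in 𝓝 (φ.symm y), ‖φ (f x) - s‖ < t :=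
      (c0.sub continuousAt_const).norm.eventually (gt_mem_nhds t1)
    have b3 : ∀ᶠ x in 𝓝 (φ.symm y), φ (f x) ∈ ball (0 : P) R :=
      c0.eventually (isOpen_ball.mem_nhds (h.maps y hy))
    have b4 : ∀ᶠ x in 𝓝 (φ.symm y), f x ∈ φ.source :=
      f.continuous.continuousAt.eventually (φ.open_source.mem_nhds (h.dom hy).2)
    obtain ⟨n, hn, _, ⟨a, ha, rfl⟩, hb⟩ := hw _ (b1.and (b2.and (b3.and b4)))
    obtain ⟨n, rfl⟩ : ∃ k, n = k + 1 := ⟨n - 1, by omega⟩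
    have d1 := hb.1
    have d0 := ball_subset_closedBall ha.2.2.1
    rw [iterate_succ_apply, ← φ.left_inv ha.2.2.2, hit _ d0,
      φ.right_inv (ht (h.iter d0 n).2)] at d1
    have d2 := h3 _ d0 n
    have d3 := ha.2.1
    have d4 := hpow n
    have d5 := norm_nonneg (φ (f a) - s)
    nlinarith
  · intro x hx
    have b1 := hx.eventually hint
    have hS : φ.symm s ∈ φ.source := φ.map_target (ht hs)
    have b2 := ((φ.continuousAt hS).tendsto.comp hx)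
    rw [φ.right_inv (ht hs), tendsto_iff_norm_sub_tendsto_zero] at b2
    have b3 : ∀ᶠ n : ℕ in atTop, x ∈ φ.source ∧ ‖φ x - s‖ ≤ ‖φ ((⇑f⁻¹)^[n] x) - s‖ := by
      filter_upwards [b1] with n ⟨y, hy, e⟩
      have e2 := iterate_inv_iterate f⁻¹ n x
      rw [inv_inv, ← e, hit y hy] at e2
      rw [← e, ← e2, φ.right_inv (ht hy), φ.right_inv (ht (h.iter hy n).2)]
      exact ⟨φ.map_target (ht (h.iter hy n).2),
        (h3 y hy n).trans (mul_le_of_le_one_left (norm_nonneg _) (hpow n))⟩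
    have b4 : ‖φ x - s‖ ≤ 0 := ge_of_tendsto b2 (b3.mono fun n hn => hn.2)
    rw [norm_le_zero_iff, sub_eq_zero] at b4
    rw [← b4, φ.left_inv b3.exists.choose_spec.1]
  · intro g hg
    obtain ⟨a, b, ha, hb, hab⟩ := len_up_bounds hφ (ht hs) hg
    refine ⟨b / a, θ, by positivity, h0, h1, fun w hw n => ?_⟩
    have hS : w.1 ∈ φ.source := hw ▸ φ.map_target (ht hs)
    have e1 : w = up E φ (s, (down φ w).2) := by
      conv_lhs => rw [← up_down hφ hS]
      congr 1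
      refine Prod.ext ?_ rfl
      rw [down_fst, hw, φ.right_inv (ht hs)]
    generalize (down φ w).2 = v at e1
    subst e1
    have e2 : ∀ n : ℕ, ∃ v', (tang f)^[n] (up E φ (s, v)) = up E φ (s, v') ∧ ‖v'‖ ≤ θ ^ n * ‖v‖ := by
      intro n
      induction n with
      | zero => exact ⟨v, rfl, by simp⟩
      | succ n ih =>
        obtain ⟨v', e, hv'⟩ := ih
        refine ⟨_, by rw [iterate_succ_apply', e, tang_up hφ hφ (h.dom hs), hfix], ?_⟩
        refine (ContinuousLinearMap.le_of_opNorm_le _ h2 _).trans ?_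
        rw [pow_succ', mul_assoc]
        gcongr
    obtain ⟨v', e, hv'⟩ := e2 n
    rw [e]
    calc _ ≤ b * ‖v'‖ := (hab v').2
      _ ≤ b * (θ ^ n * ‖v‖) := by gcongr
      _ = b / a * θ ^ n * (a * ‖v‖) := by field_simp
      _ ≤ _ := by gcongr; exact (hab v).1

variable [FiniteDimensional ℝ E]

lemma continuousAt_fderiv_rep (hφ : IsChart E φ) (hψ : IsChart E ψ) {f : Diff1 E M} {y : P}
    (hy : y ∈ Dom f φ ψ) :
    ContinuousAt (fun z : Diff1 E M × P => fderiv ℝ (rep z.1 φ ψ) z.2) (f, y) := by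
  have : ProperSpace P := FiniteDimensional.proper ℝ P
  obtain ⟨K, hK, hKd, hKc⟩ := local_compact_nhds (isOpen_dom.mem_nhds hy)
  have h1 : ContinuousAt (fun z : Diff1 E M × P => fderiv ℝ (rep f φ ψ) z.2) (f, y) :=
    ((contDiffAt_rep hφ hψ hy).continuousAt_fderiv one_ne_zero).comp_of_eq continuousAt_snd rfl
  have h2 : Tendsto (fun z : Diff1 E M × P => fderiv ℝ (rep z.1 φ ψ) z.2 -
      fderiv ℝ (rep f φ ψ) z.2) (𝓝 (f, y)) (𝓝 0) := by
    rw [NormedAddGroup.tendsto_nhds_zero]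
    intro ε hε
    filter_upwards [prod_mem_nhds (eventually_rep_close hφ hψ hKc hKd (half_pos hε)) hK] with z hz
    exact (hz.1 z.2 hz.2).2.trans_lt (half_lt_self hε)
  have := h2.add h1
  simpa [ContinuousAt] using this

variable [CompactSpace M] [T2Space M]

lemma continuous_inv_eval : Continuous fun p : Diff1 E M × M => p.1⁻¹ p.2 := by
  rw [continuous_iff_continuousAt]
  rintro ⟨f, x⟩ U hU
  obtain ⟨V, hV, hVo, hxV⟩ := _root_.mem_nhds_iff.mp hU
  obtain ⟨K, hK, hKd, hKc⟩ :=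
    local_compact_nhds (f⁻¹.continuous.continuousAt.preimage_mem_nhds (hVo.mem_nhds hxV))
  rw [mem_map]
  filter_upwards [prod_mem_nhds (eventually_mapsTo_inv hKc hVo hKd) hK] with z hz
  exact hV (hz.1 hz.2)

instance : ContinuousInv (Diff1 E M) := by
  have : CompleteSpace E := FiniteDimensional.complete ℝ E
  refine ⟨continuous_induced_rng.mpr (ContinuousMap.continuous_of_continuous_uncurry _ ?_)⟩
  rw [continuous_iff_continuousAt]
  rintro ⟨f, w⟩
  show ContinuousAt (fun z : Diff1 E M × TM E M => tang z.1⁻¹ z.2) (f, w)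
  have hφ := isChart_chartAt (E := E) w.1
  have hψ := isChart_chartAt (E := E) (f⁻¹ w.1)
  set φ := chartAt E w.1
  set ψ := chartAt E (f⁻¹ w.1)
  have hw : w.1 ∈ φ.source := mem_chart_source _ _
  have hw' : f⁻¹ w.1 ∈ ψ.source := mem_chart_source _ _
  have hd : φ w.1 ∈ Dom f⁻¹ φ ψ := ⟨φ.map_source hw, by rwa [φ.left_inv hw]⟩
  have hd' := Dom.inv hd
  have hrep : rep f⁻¹ φ ψ (φ w.1) = ψ (f⁻¹ w.1) := by rw [rep, φ.left_inv hw]
  rw [inv_inv, hrep] at hd'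
  have a0 : ContinuousAt (fun z : Diff1 E M × TM E M => z.1⁻¹ z.2.1) (f, w) :=
    (continuous_inv_eval.comp (continuous_id.prodMap continuous_proj)).continuousAt
  have a1 : ContinuousAt (fun z : Diff1 E M × TM E M => ψ (z.1⁻¹ z.2.1)) (f, w) :=
    (ψ.continuousAt hw').comp_of_eq a0 rfl
  have a2 : ContinuousAt (fun z : Diff1 E M × TM E M =>
      fderiv ℝ (rep z.1 ψ φ) (ψ (z.1⁻¹ z.2.1))) (f, w) :=
    (continuousAt_fderiv_rep hψ hφ hd').comp_of_eq (continuousAt_fst.prodMk a1) rfl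
  obtain ⟨L, hL, -⟩ := exists_equiv_rep hψ hφ hd'
  have a3 : ContinuousAt (fun z : Diff1 E M × TM E M =>
      (fderiv ℝ (rep z.1 ψ φ) (ψ (z.1⁻¹ z.2.1))).inverse) (f, w) :=
    (contDiffAt_map_inverse (n := 0) L).continuousAt.comp_of_eq a2 hL.symm
  have a4 : ContinuousAt (fun z : Diff1 E M × TM E M => (down φ z.2).2) (f, w) :=
    ((continuousAt_down hφ hw).comp_of_eq continuousAt_snd rfl).snd
  have a5 := (continuousAt_up hψ (p := (ψ (f⁻¹ w.1), _)) (ψ.map_source hw')).comp_of_eq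
    (a1.prodMk (a3.clm_apply a4)) rfl
  refine a5.congr ?_
  filter_upwards [a0.eventually (ψ.open_source.mem_nhds hw'),
    (continuous_proj.comp continuous_snd).continuousAt.eventually (φ.open_source.mem_nhds hw)]
    with z hz hz'
  have hz'' : z.2.1 ∈ φ.source := hz'
  have b1 : φ z.2.1 ∈ Dom z.1⁻¹ φ ψ := ⟨φ.map_source hz'', by rwa [φ.left_inv hz'']⟩
  have b2 := tang_up hφ hψ b1 (down φ z.2).2
  have b3 : rep z.1⁻¹ φ ψ (φ z.2.1) = ψ (z.1⁻¹ z.2.1) := by rw [rep, φ.left_inv hz'']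
  obtain ⟨L', hL1, hL2⟩ := exists_equiv_rep hφ hψ b1
  rw [inv_inv, b3] at hL2
  have b4 := up_down hφ hz''
  rw [show (φ z.2.1, (down φ z.2).2) = down φ z.2 from rfl, b4, b3, ← hL1] at b2
  rw [b2, Function.comp_apply, ← hL2, ContinuousLinearMap.inverse_equiv]
  rfl

omit [CompactSpace M] [T2Space M] in
lemma Contr.eventually {f : Diff1 E M} {R : ℝ} (hφ : IsChart E φ) (h : Contr f φ R) :
    ∀ᶠ g in 𝓝 f, Contr g φ R := by
  have : ProperSpace P := FiniteDimensional.proper ℝ P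
  obtain ⟨θ, -, h1, h2, -⟩ := h.exists_lip hφ
  have a1 := eventually_rep_close hφ hφ (isCompact_closedBall (0 : P) R) h.dom
    (half_pos (sub_pos.mpr h1))
  have a2 := eventually_mapsTo (f := f)
    (isCompact_symm_image (isCompact_closedBall (0 : P) R) fun y hy => (h.dom hy).1)
    (φ.isOpen_inter_preimage (isOpen_ball (x := (0 : P)) (ε := R)))
    (by rintro _ ⟨y, hy, rfl⟩; exact ⟨(h.dom hy).2, h.maps y hy⟩)
  filter_upwards [a1, a2] with g hg hg'
  refine ⟨h.pos, fun y hy => (hg y hy).1, fun y hy => (hg' ⟨y, hy, rfl⟩).2, fun y hy => ?_⟩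
  have := norm_add_le (fderiv ℝ (rep g φ φ) y - fderiv ℝ (rep f φ φ) y) (fderiv ℝ (rep f φ φ) y)
  rw [sub_add_cancel] at this
  linarith [(hg y hy).2, h2 y hy]

variable (E M P) in
/-- Two disjoint closed chart balls. -/
structure Frame where
  φS : OpenPartialHomeomorph M P
  φN : OpenPartialHomeomorph M P
  RS : ℝ
  RN : ℝ
  cS : IsChart E φS
  cN : IsChart E φN
  disj : Disjoint (φS.symm '' closedBall 0 RS) (φN.symm '' closedBall 0 RN)

/-- Axiom A without cycles, with a sink in the first ball and a source in the second. -/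
structure Good (𝓕 : Frame E M P) (f : Diff1 E M) : Prop where
  mem : f ∈ axiomANoCycles E M
  S : Contr f 𝓕.φS 𝓕.RS
  N : Contr f⁻¹ 𝓕.φN 𝓕.RN

lemma Good.eventually {𝓕 : Frame E M P} {f : Diff1 E M} (h : Good 𝓕 f) :
    ∀ᶠ g in 𝓝 f, Contr g 𝓕.φS 𝓕.RS ∧ Contr g⁻¹ 𝓕.φN 𝓕.RN :=
  (h.S.eventually 𝓕.cS).and (continuous_inv.continuousAt.eventually (h.N.eventually 𝓕.cN))

omit [FiniteDimensional ℝ E] in
lemma Good.of_eq {𝓕 : Frame E M P} {f g : Diff1 E M} (h : Good 𝓕 f) (hS : Contr g 𝓕.φS 𝓕.RS)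
    (hN : Contr g⁻¹ 𝓕.φN 𝓕.RN)
    (he : ∀ x ∉ 𝓕.φS.symm '' closedBall 0 𝓕.RS ∪ 𝓕.φN.symm '' closedBall 0 𝓕.RN, g x = f x) :
    Good 𝓕 g := by
  obtain ⟨s, hs, es⟩ := h.S.exists_fix 𝓕.cS
  obtain ⟨n, hn, en⟩ := h.N.exists_fix 𝓕.cN
  obtain ⟨s', hs', es'⟩ := hS.exists_fix 𝓕.cS
  obtain ⟨n', hn', en'⟩ := hN.exists_fix 𝓕.cN
  exact ⟨surgery h.mem (h.S.sink 𝓕.cS hs es) (h.N.sink 𝓕.cN hn en) (hS.sink 𝓕.cS hs' es')
    (hN.sink 𝓕.cN hn' en') 𝓕.disj he, hS, hN⟩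

lemma Good.pert {𝓕 : Frame E M P} {f : Diff1 E M} (h : Good 𝓕 f) {W : Set (Diff1 E M)}
    (hW : W ∈ 𝓝 f) {φ : OpenPartialHomeomorph M P} {R : ℝ}
    (hφ : (φ = 𝓕.φS ∧ R = 𝓕.RS) ∨ (φ = 𝓕.φN ∧ R = 𝓕.RN)) :
    ∃ δ : ℝ, 0 < δ ∧ δ ≤ 1 / 2 ∧ ∀ u σ, Small (closedBall 0 R) δ u → IsTr φ (closedBall 0 R) u σ →
      Good 𝓕 (f * σ) ∧ f * σ ∈ W := by
  have : ProperSpace P := FiniteDimensional.proper ℝ P
  have h1 : Tendsto (fun σ => f * σ) (𝓝 1) (𝓝 f) := by
    have := (continuous_const_mul f).tendsto 1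
    rwa [mul_one] at this
  have h2 : IsChart E φ ∧ closedBall 0 R ⊆ φ.target := by
    rcases hφ with ⟨rfl, rfl⟩ | ⟨rfl, rfl⟩
    · exact ⟨𝓕.cS, fun y hy => (h.S.dom hy).1⟩
    · exact ⟨𝓕.cN, fun y hy => (h.N.dom hy).1⟩
  obtain ⟨δ, hδ, H⟩ := exists_small_mem h2.1 (isCompact_closedBall _ _) h2.2
    (h1 (inter_mem hW h.eventually))
  refine ⟨min δ (1 / 2), by positivity, min_le_right _ _, fun u σ hu hσ => ?_⟩
  have := H u σ (hu.mono subset_rfl (min_le_left _ _)) hσ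
  refine ⟨h.of_eq this.2.1 this.2.2 fun x hx => ?_, this.1⟩
  rw [diff_mul_apply, hσ.out x fun h' => hx ?_]
  rcases hφ with ⟨rfl, rfl⟩ | ⟨rfl, rfl⟩
  · exact Or.inl h'
  · exact Or.inr h'

end Pool.Agent.Lib.MP_95f3db_an
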