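import Mathlib

/-!
# Definitions: the C1 topology, Axiom A, no cycles, trivial centralizer
-/

namespace Pool.Agent.Lib.MP_95f3db_an

open scoped Manifold ContDiff Topology
open Set Filter

/-- The C1 diffeomorphisms of a manifold `M` modelled on the normed space `E`. -/
abbrev Diff1 (E : Type*) [NormedAddCommGroup E] [NormedSpace ℝ E] (M : Type*) [TopologicalSpace M]
    [ChartedSpace E M] : Type _ :=
  Diffeomorph 𝓘(ℝ, E) 𝓘(ℝ, E) M M 1

/-- The tangent bundle of `M`. -/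
abbrev TM (E : Type*) [NormedAddCommGroup E] [NormedSpace ℝ E] (M : Type*) [TopologicalSpace M]
    [ChartedSpace E M] : Type _ :=
  TangentBundle 𝓘(ℝ, E) M

variable {E : Type*} [NormedAddCommGroup E] [NormedSpace ℝ E] {M : Type*} [TopologicalSpace M]
  [ChartedSpace E M]

/-- The tangent map `Tf : TM → TM`. -/
noncomputable def tang (f : Diff1 E M) : TM E M → TM E M :=
  tangentMap 𝓘(ℝ, E) 𝓘(ℝ, E) f

/-- The nonwandering set. -/
def nonwandering (f : M → M) : Set M :=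
  {x | ∀ U ∈ 𝓝 x, ∃ n : ℕ, 1 ≤ n ∧ (f^[n] '' U ∩ U).Nonempty}

/-- Stable set of a set: the points whose forward orbit approaches it. -/
def stableSet (f : M → M) (Λ : Set M) : Set M :=
  {x | Tendsto (fun n : ℕ => f^[n] x) atTop (𝓝ˢ Λ)}

/-- A basic set: a closed invariant piece of the nonwandering set, with closed complement in
the nonwandering set, that has a dense orbit. -/
def IsBasicSet (f : Diff1 E M) (Λ : Set M) : Prop :=
  Λ ⊆ nonwandering f ∧ IsClosed Λ ∧ IsClosed (nonwandering f \ Λ) ∧ f '' Λ = Λ ∧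
    ∃ x ∈ Λ, Λ ⊆ closure (range fun n : ℤ => (f.toEquiv ^ n) x)

/-- No cycles among the basic sets. -/
def NoCycles (f : Diff1 E M) : Prop :=
  ¬ ∃ (m : ℕ) (Λ : ℕ → Set M), 1 ≤ m ∧ (∀ j ≤ m, IsBasicSet f (Λ j)) ∧ Λ m = Λ 0 ∧
    ∀ j < m, ((stableSet f.symm (Λ j) ∩ stableSet f (Λ (j + 1))) \ nonwandering f).Nonempty

/-- The centralizer of `f` in the group of C1 diffeomorphisms consists of the powers of `f`. -/
def TrivialCentralizer (f : Diff1 E M) : Prop :=
  ∀ g : Diff1 E M, g ∘ f = f ∘ g ↔ ∃ n : ℤ, g.toEquiv = f.toEquiv ^ n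

variable [IsManifold 𝓘(ℝ, E) 1 M]

/-- The tangent map as a continuous map. -/
noncomputable def tangCM (f : Diff1 E M) : C(TM E M, TM E M) :=
  ⟨tang f, f.contMDiff.continuous_tangentMap le_rfl⟩

variable (E M) in
/-- The C1 topology: compact-open convergence of the tangent maps. -/
@[reducible] noncomputable def c1Top : TopologicalSpace (Diff1 E M) :=
  TopologicalSpace.induced tangCM ContinuousMap.compactOpen

/-- A continuous Riemannian metric on `M`. -/
def IsRiemannian (g : ∀ x : M, LinearMap.BilinForm ℝ (TangentSpace 𝓘(ℝ, E) x)) : Prop :=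
  (∀ x v w, g x v w = g x w v) ∧ (∀ x v, v ≠ 0 → 0 < g x v v) ∧
    Continuous fun w : TM E M => g w.1 w.2 w.2

/-- Length of a tangent vector. -/
noncomputable def len (g : ∀ x : M, LinearMap.BilinForm ℝ (TangentSpace 𝓘(ℝ, E) x))
    (w : TM E M) : ℝ :=
  √(g w.1 w.2 w.2)

/-- `F` is a `Tf`-invariant family of subspaces over `Λ`, exponentially contracted by `Tf`. -/
def Contracted (g : ∀ x : M, LinearMap.BilinForm ℝ (TangentSpace 𝓘(ℝ, E) x)) (f : Diff1 E M)
    (Λ : Set M) (F : ∀ x : M, Submodule ℝ (TangentSpace 𝓘(ℝ, E) x)) : Prop :=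
  (∀ w : TM E M, w.1 ∈ Λ → (w.2 ∈ F w.1 ↔ (tang f w).2 ∈ F (tang f w).1)) ∧
    ∃ C l : ℝ, 0 < C ∧ 0 < l ∧ l < 1 ∧ ∀ w : TM E M, w.1 ∈ Λ → w.2 ∈ F w.1 →
      ∀ n : ℕ, len g ((tang f)^[n] w) ≤ C * l ^ n * len g w

/-- A hyperbolic set. -/
def IsHyperbolic (f : Diff1 E M) (Λ : Set M) : Prop :=
  IsCompact Λ ∧ f '' Λ = Λ ∧
    ∃ g : ∀ x : M, LinearMap.BilinForm ℝ (TangentSpace 𝓘(ℝ, E) x), IsRiemannian g ∧
      ∃ Es Eu : ∀ x : M, Submodule ℝ (TangentSpace 𝓘(ℝ, E) x),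
        (∀ x ∈ Λ, IsCompl (Es x) (Eu x)) ∧ Contracted g f Λ Es ∧ Contracted g f.symm Λ Eu

/-- Axiom A. -/
def AxiomA (f : Diff1 E M) : Prop :=
  IsHyperbolic f (nonwandering f) ∧ nonwandering f ⊆ closure (Function.periodicPts f)

variable (E M) in
/-- The set of Axiom A diffeomorphisms with no cycles. -/
def axiomANoCycles : Set (Diff1 E M) :=
  {f | AxiomA f ∧ NoCycles f}

end Pool.Agent.Lib.MP_95f3db_an
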