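import Pool.Agent.Lib.MP_95f3db_an.Morse
import Pool.Agent.Lib.MP_95f3db_an.Contr

/-!
# A gradient-like diffeomorphism built from local pushes
-/

namespace Pool.Agent.Lib.MP_95f3db_an

open scoped Manifold ContDiff Topology
open Set Filter Metric Function

variable {E : Type*} [NormedAddCommGroup E] [NormedSpace ℝ E] {M : Type*} [TopologicalSpace M]
  [ChartedSpace E M]

/-- Every point is fixed or moved strictly down. -/
def IsPush (φ : M → ℝ) (σ : Diff1 E M) : Prop := ∀ x, σ x = x ∨ φ (σ x) < φ x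

lemma IsPush.le {φ : M → ℝ} {σ : Diff1 E M} (h : IsPush φ σ) (x : M) : φ (σ x) ≤ φ x := by
  rcases h x with e | e
  · rw [e]
  · exact e.le

lemma IsPush.lt_right {φ : M → ℝ} {σ τ : Diff1 E M} (h : IsPush φ σ) {x : M}
    (hx : φ (τ x) < φ x) : φ ((σ * τ) x) < φ x := (h.le _).trans_lt hx

lemma IsPush.lt_left {φ : M → ℝ} {σ τ : Diff1 E M} (h : IsPush φ σ) (h' : IsPush φ τ) {x : M}
    (hx : φ (σ x) < φ x) : φ ((σ * τ) x) < φ x := by
  rcases h' x with e | e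
  · rwa [diff_mul_apply, e]
  · exact h.lt_right e

lemma IsPush.mul {φ : M → ℝ} {σ τ : Diff1 E M} (h : IsPush φ σ) (h' : IsPush φ τ) :
    IsPush φ (σ * τ) := by
  intro x
  rcases h' x with e | e
  · rw [diff_mul_apply, e]; exact h x
  · exact Or.inr (h.lt_right e)

/-- Local normal form at a fixed point. -/
def Loc (f : Diff1 E M) (c : M) : Prop :=
  ∃ (ψ : OpenPartialHomeomorph M E) (J : E →L[ℝ] E) (ε : ℝ), IsChart E ψ ∧ 0 ∈ ψ.target ∧
    ψ.symm 0 = c ∧ (∀ y, J (J y) = y) ∧ 0 < ε ∧ ε < 1 ∧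
    ∀ᶠ y in 𝓝 0, f (ψ.symm y) = ψ.symm (y - ε • J y)

lemma Loc.fix {f : Diff1 E M} {c : M} (h : Loc f c) : f c = c := by
  obtain ⟨ψ, J, ε, -, -, rfl, -, -, -, h⟩ := h
  simpa using h.self_of_nhds

lemma Loc.congr {f g : Diff1 E M} {c : M} (h : Loc f c) (e : g =ᶠ[𝓝 c] f) : Loc g c := by
  obtain ⟨ψ, J, ε, h1, h2, rfl, h3, h4, h5, h⟩ := h
  refine ⟨ψ, J, ε, h1, h2, rfl, h3, h4, h5, ?_⟩
  filter_upwards [h, (ψ.continuousAt_symm h2).eventually e] with y hy hy'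
  rw [hy', hy]

lemma lt_of_fderiv_neg {h : E → ℝ} {y v : E} {t : ℝ} (ht : 0 < t)
    (H : ∀ τ ∈ Icc 0 t, DifferentiableAt ℝ h (y + τ • v) ∧ fderiv ℝ h (y + τ • v) v < 0) :
    h (y + t • v) < h y := by
  have hd : ∀ τ ∈ Icc 0 t, HasDerivAt (fun τ : ℝ => h (y + τ • v))
      (fderiv ℝ h (y + τ • v) v) τ := fun τ hτ => by
    have := (H τ hτ).1.hasFDerivAt.comp_hasDerivAt τ
      (((hasDerivAt_id τ).smul_const v).const_add y)
    simpa using! this
  obtain ⟨c, hc, e⟩ := exists_hasDerivAt_eq_slope (fun τ : ℝ => h (y + τ • v)) _ ht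
    (fun τ hτ => (hd τ hτ).continuousAt.continuousWithinAt)
    (fun τ hτ => hd τ (Ioo_subset_Icc_self hτ))
  have := (H c (Ioo_subset_Icc_self hc)).2
  rw [e, zero_smul, add_zero, sub_zero, div_neg_iff] at this
  rcases this with h1 | h1
  · linarith [h1.2]
  · linarith [h1.1]

variable [FiniteDimensional ℝ E]

lemma exists_invol (H : E →L[ℝ] E →L[ℝ] ℝ) (hs : ∀ v w, H v w = H w v) (hi : Injective H) :
    ∃ (J : E →L[ℝ] E) (c : ℝ), (∀ y, J (J y) = y) ∧ 0 < c ∧ ∀ y, c * ‖y‖ ^ 2 ≤ H y (J y) := by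
  classical
  obtain ⟨v, hv⟩ := LinearMap.BilinForm.exists_orthogonal_basis (K := ℝ) (V := E)
    (B := LinearMap.mk₂ ℝ (fun v w => H v w) (by simp) (by simp) (by simp) (by simp))
    ⟨fun v w => by simpa using hs v w⟩
  have hv' : ∀ i j, i ≠ j → H (v i) (v j) = 0 := fun i j hij => hv hij
  have hne : ∀ i, H (v i) (v i) ≠ 0 := by
    intro i h0
    have : H (v i) = 0 := by
      apply ContinuousLinearMap.coe_injective
      refine v.ext fun j => ?_
      by_cases hij : i = j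
      · subst hij; exact h0
      · exact hv' i j hij
    exact v.ne_zero i (hi (by rw [this, map_zero]))
  set sg : _ → ℝ := fun i => if 0 < H (v i) (v i) then 1 else -1 with hsg
  have hsg1 : ∀ i, sg i * sg i = 1 := fun i => by simp only [hsg]; split_ifs <;> norm_num
  have hsg2 : ∀ i, 0 < sg i * H (v i) (v i) := fun i => by
    simp only [hsg]
    split_ifs with h
    · simpa using h
    · have := lt_of_le_of_ne (not_lt.mp h) (hne i)
      linarith
  set J : E →L[ℝ] E := LinearMap.toContinuousLinearMap (v.constr ℝ fun i => sg i • v i) with hJ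
  have hJv : ∀ i, J (v i) = sg i • v i := fun i => by simp [hJ]
  have hJJ : ∀ y, J (J y) = y := by
    have : (J.comp J : E →ₗ[ℝ] E) = LinearMap.id := v.ext fun i => by
      simp [hJv, smul_smul, hsg1]
    exact fun y => DFunLike.congr_fun this y
  have hq : ∀ y, H y (J y) = ∑ i, v.repr y i ^ 2 * (sg i * H (v i) (v i)) := by
    intro y
    conv_lhs => rw [← v.sum_repr y]
    simp only [map_sum, map_smul, hJv, sum_apply, smul_apply, smul_eq_mul]
    refine Finset.sum_congr rfl fun i _ => ?_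
    rw [Finset.sum_eq_single i (fun j _ hj => by rw [hv' j i hj, mul_zero]) (by simp)]
    ring
  obtain ⟨a, b, ha, -, hab⟩ := homog_bounds (q := fun y => √(H y (J y))) (by fun_prop)
    (fun t y => by
      simp only [map_smul, smul_apply, smul_eq_mul]
      rw [← mul_assoc, Real.sqrt_mul (mul_self_nonneg t), Real.sqrt_mul_self_eq_abs])
    (fun y hy => by
      refine Real.sqrt_pos.mpr ?_
      rw [hq]
      obtain ⟨i, hi⟩ : ∃ i, v.repr y i ≠ 0 := by
        by_contra h'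
        push Not at h'
        exact hy (v.repr.map_eq_zero_iff.mp (Finsupp.ext h'))
      exact Finset.sum_pos' (fun j _ => mul_nonneg (sq_nonneg _) (hsg2 j).le)
        ⟨i, Finset.mem_univ _, mul_pos (by positivity) (hsg2 i)⟩)
  refine ⟨J, a ^ 2, hJJ, by positivity, fun y => ?_⟩
  have h0 : 0 ≤ H y (J y) := by
    rw [hq]; exact Finset.sum_nonneg fun j _ => mul_nonneg (sq_nonneg _) (hsg2 j).le
  rw [← mul_pow]
  exact (Real.le_sqrt (by positivity) h0).mp (hab y).1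

variable [T2Space M] {φ : M → ℝ} {ψ : OpenPartialHomeomorph M E}

lemma exists_push : ∃ θ : ℝ, 0 < θ ∧ θ ≤ 1 / 2 ∧ ∀ (φ : M → ℝ) (ψ : OpenPartialHomeomorph M E)
    (a : E) (s : ℝ) (G : E → E) (V : Set M), IsChart E ψ → 0 < s →
    (∀ y ∈ ball a (3 * s), ContDiffAt ℝ 1 G y) → (∀ y ∈ ball a (3 * s), ‖G y‖ ≤ 3 * θ * s) →
    (∀ y ∈ ball a (3 * s), ‖fderiv ℝ G y‖ ≤ θ) →
    (∀ y ∈ closedBall a (2 * s), y ∈ ψ.target ∧ ψ.symm y ∈ V ∧
      (G y = 0 ∨ ∀ t : ℝ, 0 < t → t ≤ 1 → φ (ψ.symm (y + t • G y)) < φ (ψ.symm y))) →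
    ∃ σ : Diff1 E M, IsPush φ σ ∧ (∀ z ∉ V, σ =ᶠ[𝓝 z] id) ∧
      ∀ y ∈ closedBall a s, σ (ψ.symm y) = ψ.symm (y + G y) := by
  have : ProperSpace E := FiniteDimensional.proper ℝ E
  have : CompleteSpace E := FiniteDimensional.complete ℝ E
  obtain ⟨C, hC, hcut⟩ := exists_cutoff E
  refine ⟨1 / (2 * C), by positivity, by
    apply one_div_le_one_div_of_le <;> linarith, fun φ ψ a s G V hψ hs h1 h2 h3 h4 => ?_⟩
  obtain ⟨χ, -, c0, c1, c2, -, hu⟩ := hcut a s _ G hs (by positivity) h1 h2 h3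
  have hKt : closedBall a (2 * s) ⊆ ψ.target := fun y hy => (h4 y hy).1
  obtain ⟨σ, hσ⟩ := exists_tr hψ (isCompact_closedBall _ _) hKt hu
    (le_of_eq (by field_simp))
  refine ⟨σ, fun x => ?_, fun z hz => ?_, fun y hy => ?_⟩
  · by_cases hx : x ∈ ψ.symm '' closedBall a (2 * s)
    · obtain ⟨y, hy, rfl⟩ := hx
      rw [hσ.eq y (hKt hy)]
      rcases (h4 y hy).2.2 with e | e
      · left; simp [e]
      · rcases (c0 y).eq_or_lt with e' | e'
        · left; simp [← e']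
        · exact Or.inr (e _ e' (c1 y))
    · exact Or.inl (hσ.out x hx)
  · filter_upwards [(isCompact_symm_image (isCompact_closedBall _ _) hKt).isClosed.isOpen_compl.mem_nhds
      (show z ∉ ψ.symm '' closedBall a (2 * s) by
        rintro ⟨y, hy, rfl⟩; exact hz (h4 y hy).2.1)] with x hx using hσ.out x hx
  · rw [hσ.eq y (hKt (closedBall_subset_closedBall (by linarith) hy)), c2 y hy, one_smul]

lemma push_regular (hψ : IsChart E ψ) {x : M} (hx : x ∈ ψ.source)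
    (h1 : ContDiffAt ℝ 2 (φ ∘ ψ.symm) (ψ x)) (h2 : fderiv ℝ (φ ∘ ψ.symm) (ψ x) ≠ 0) {V : Set M}
    (hV : V ∈ 𝓝 x) : ∃ σ : Diff1 E M, IsPush φ σ ∧ (∀ z ∉ V, σ =ᶠ[𝓝 z] id) ∧
      ∀ᶠ z in 𝓝 x, φ (σ z) < φ z := by
  obtain ⟨θ, hθ, hθ', H⟩ := exists_push (E := E) (M := M)
  obtain ⟨b, hb⟩ : ∃ b, fderiv ℝ (φ ∘ ψ.symm) (ψ x) b < 0 := by
    obtain ⟨v, hv⟩ : ∃ v, fderiv ℝ (φ ∘ ψ.symm) (ψ x) v ≠ 0 := by
      by_contra h'
      push Not at h'
      exact h2 (ContinuousLinearMap.ext h')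
    rcases lt_or_gt_of_ne hv with h | h
    · exact ⟨v, h⟩
    · exact ⟨-v, by rw [map_neg]; linarith⟩
  have hb0 : 0 < ‖b‖ := norm_pos_iff.mpr (by rintro rfl; simp at hb)
  have ht := ψ.map_source hx
  have e1 : ∀ᶠ y in 𝓝 (ψ x), fderiv ℝ (φ ∘ ψ.symm) y b < 0 :=
    ((h1.continuousAt_fderiv (by norm_num)).clm_apply continuousAt_const).eventually
      (gt_mem_nhds hb)
  have e2 : ∀ᶠ y in 𝓝 (ψ x), ψ.symm y ∈ V :=
    (ψ.continuousAt_symm ht).eventually (by rwa [ψ.left_inv hx])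
  obtain ⟨r, hr, hr'⟩ := Metric.eventually_nhds_iff_ball.mp
    ((e1.and e2).and ((h1.eventually (by simp)).and (ψ.open_target.eventually_mem ht)))
  obtain ⟨s, rfl⟩ : ∃ s, r = 3 * s := ⟨r / 3, by ring⟩
  have hs : 0 < s := by linarith
  have hn : ‖(θ * s / ‖b‖) • b‖ = θ * s := by
    rw [norm_smul, Real.norm_of_nonneg (by positivity)]; field_simp
  have key : ∀ y ∈ closedBall (ψ x) (2 * s), ∀ t : ℝ, 0 < t → t ≤ 1 →
      φ (ψ.symm (y + t • (θ * s / ‖b‖) • b)) < φ (ψ.symm y) := by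
    intro y hy t ht ht'
    refine lt_of_fderiv_neg (h := φ ∘ ψ.symm) ht fun τ hτ => ?_
    have : y + τ • (θ * s / ‖b‖) • b ∈ ball (ψ x) (3 * s) := by
      rw [mem_closedBall, dist_eq_norm] at hy
      rw [mem_ball, dist_eq_norm, add_sub_right_comm]
      refine (norm_add_le _ _).trans_lt ?_
      rw [norm_smul, hn, Real.norm_of_nonneg hτ.1]
      have : τ * (θ * s) ≤ 1 * (1 / 2 * s) := by gcongr; exact hτ.2.trans ht'
      linarith
    refine ⟨(hr' _ this).2.1.differentiableAt (by norm_num), ?_⟩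
    rw [map_smul, smul_eq_mul]
    exact mul_neg_of_pos_of_neg (by positivity) (hr' _ this).1.1
  obtain ⟨σ, p1, p2, p3⟩ := H φ ψ (ψ x) s (fun _ => (θ * s / ‖b‖) • b) V hψ hs
    (fun _ _ => contDiffAt_const) (fun _ _ => by rw [hn]; nlinarith [mul_pos hθ hs])
    (fun _ _ => by simpa using hθ.le)
    (fun y hy => by
      have := hr' y (closedBall_subset_ball (by linarith) hy)
      exact ⟨this.2.2, this.1.2, Or.inr (key y hy)⟩)
  refine ⟨σ, p1, p2, ?_⟩
  filter_upwards [(ψ.continuousAt hx).eventually (closedBall_mem_nhds _ hs),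
    ψ.open_source.mem_nhds hx] with z hz hz'
  have := key _ (closedBall_subset_closedBall (by linarith) hz) 1 one_pos le_rfl
  rwa [one_smul, ← p3 _ hz, ψ.left_inv hz'] at this

lemma push_critical (hψ : IsChart E ψ) {x : M} (hx : x ∈ ψ.source)
    (h1 : ContDiffAt ℝ 2 (φ ∘ ψ.symm) (ψ x)) (h2 : fderiv ℝ (φ ∘ ψ.symm) (ψ x) = 0)
    (h3 : Injective (fderiv ℝ (fderiv ℝ (φ ∘ ψ.symm)) (ψ x))) {V : Set M}
    (hV : V ∈ 𝓝 x) : ∃ σ : Diff1 E M, IsPush φ σ ∧ (∀ z ∉ V, σ =ᶠ[𝓝 z] id) ∧ Loc σ x ∧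
      ∀ᶠ z in 𝓝[≠] x, φ (σ z) < φ z := by
  obtain ⟨θ, hθ, hθ', H⟩ := exists_push (E := E) (M := M)
  obtain ⟨J, c, hJ, hc, hJ'⟩ := exists_invol _ (h1.isSymmSndFDerivAt (by simp)) h3
  have hd := ((h1.fderiv_right (m := 1) (by norm_num)).differentiableAt one_ne_zero).hasFDerivAt
  set B := fderiv ℝ (fderiv ℝ (φ ∘ ψ.symm)) (ψ x)
  set a := ψ x with ha
  have ht : a ∈ ψ.target := ψ.map_source hx
  have hJ0 := norm_nonneg J
  have hB0 := norm_nonneg B
  obtain ⟨ε, ⟨⟨ε1, ε2⟩, ε3⟩, ε0⟩ : ∃ ε : ℝ, ((ε * ‖J‖ < θ ∧ ε * (‖B‖ * ‖J‖ ^ 2) < c / 4) ∧ ε < 1) ∧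
      0 < ε := by
    have a1 : ∀ k d : ℝ, 0 < d → ∀ᶠ ε in 𝓝 (0 : ℝ), ε * k < d := fun k d hd =>
      (continuous_mul_const k).continuousAt.eventually (gt_mem_nhds (by simpa using hd))
    exact (((((a1 _ _ hθ).and (a1 _ _ (by positivity))).and (gt_mem_nhds one_pos)).filter_mono
      nhdsWithin_le_nhds).and (self_mem_nhdsWithin (s := Ioi (0 : ℝ)))).exists
  have e1 := hd.isLittleO.bound (show 0 < c / (8 * (‖J‖ + 1)) by positivity)
  have e2 : ∀ᶠ y in 𝓝 a, ψ.symm y ∈ V :=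
    (ψ.continuousAt_symm ht).eventually (by rwa [ψ.left_inv hx])
  obtain ⟨r, hr, hr'⟩ := Metric.eventually_nhds_iff_ball.mp
    ((e1.and e2).and ((h1.eventually (by simp)).and (ψ.open_target.eventually_mem ht)))
  obtain ⟨s, rfl⟩ : ∃ s, r = 5 * s := ⟨r / 5, by ring⟩
  have hs : 0 < s := by linarith
  have key : ∀ y ∈ closedBall a (2 * s), y ≠ a → ∀ t : ℝ, 0 < t → t ≤ 1 →
      φ (ψ.symm (y + t • (-ε) • J (y - a))) < φ (ψ.symm y) := by
    intro y hy hya t ht ht'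
    refine lt_of_fderiv_neg (h := φ ∘ ψ.symm) ht fun τ hτ => ?_
    rw [mem_closedBall, dist_eq_norm] at hy
    set w := y - a with hw
    have hw0 : 0 < ‖w‖ := norm_pos_iff.mpr (sub_ne_zero.mpr hya)
    have a1 := J.le_opNorm w
    have hτ1 : τ ≤ 1 := hτ.2.trans ht'
    have hτ0 := hτ.1
    have a2 : y + τ • (-ε) • J w - a = w - (τ * ε) • J w := by
      rw [hw]; module
    have a3 : ‖w - (τ * ε) • J w‖ ≤ 2 * ‖w‖ := by
      refine (norm_sub_le _ _).trans ?_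
      rw [norm_smul, Real.norm_of_nonneg (by positivity)]
      have : τ * ε * ‖J w‖ ≤ 1 * ε * (‖J‖ * ‖w‖) := by gcongr
      nlinarith
    have a4 : y + τ • (-ε) • J w ∈ ball a (5 * s) := by
      rw [mem_ball, dist_eq_norm, a2]; linarith
    refine ⟨(hr' _ a4).2.1.differentiableAt (by norm_num), ?_⟩
    have a5 := (hr' _ a4).1.1
    rw [h2, sub_zero, a2] at a5
    set D := fderiv ℝ (φ ∘ ψ.symm) (y + τ • (-ε) • J w)
    have a6 := (D - B (w - (τ * ε) • J w)).le_of_opNorm_le a5 (J w)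
    rw [Real.norm_eq_abs, sub_apply, map_sub B, map_smul, sub_apply, smul_apply,
      smul_eq_mul] at a6
    have a7 : |B (J w) (J w)| ≤ ‖B‖ * ‖J‖ ^ 2 * ‖w‖ ^ 2 := by
      calc _ ≤ ‖B‖ * ‖J w‖ * ‖J w‖ := B.le_opNorm₂ _ _
        _ ≤ ‖B‖ * (‖J‖ * ‖w‖) * (‖J‖ * ‖w‖) := by gcongr
        _ = _ := by ring
    have a8 : c / (8 * (‖J‖ + 1)) * ‖w - (τ * ε) • J w‖ * ‖J w‖ ≤ c / 4 * ‖w‖ ^ 2 := by
      calc _ ≤ c / (8 * (‖J‖ + 1)) * (2 * ‖w‖) * ((‖J‖ + 1) * ‖w‖) := by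
            gcongr; nlinarith
        _ = _ := by field_simp; ring
    have a9 : τ * ε * B (J w) (J w) ≤ c / 4 * ‖w‖ ^ 2 := by
      calc _ ≤ τ * ε * |B (J w) (J w)| := by gcongr; exact le_abs_self _
        _ ≤ 1 * ε * (‖B‖ * ‖J‖ ^ 2 * ‖w‖ ^ 2) := by gcongr
        _ = ε * (‖B‖ * ‖J‖ ^ 2) * ‖w‖ ^ 2 := by ring
        _ ≤ _ := by gcongr
    have a10 := hJ' w
    have a11 := (abs_le.mp (a6.trans a8)).1
    have a12 : 0 < c * ‖w‖ ^ 2 := by positivity
    rw [map_smul, smul_eq_mul]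
    exact mul_neg_of_neg_of_pos (by linarith) (by linarith)
  have hG : ∀ y, HasFDerivAt (fun y => (-ε) • J (y - a)) ((-ε) • J) y := fun y =>
    (J.hasFDerivAt.comp y ((hasFDerivAt_id y).sub_const a)).const_smul (-ε)
  obtain ⟨σ, p1, p2, p3⟩ := H φ ψ a s (fun y => (-ε) • J (y - a)) V hψ hs
    (fun _ _ => by fun_prop)
    (fun y hy => by
      rw [mem_ball, dist_eq_norm] at hy
      rw [norm_smul, norm_neg, Real.norm_of_nonneg ε0.le]
      calc _ ≤ ε * (‖J‖ * (3 * s)) := by gcongr; exact (J.le_opNorm _).trans (by gcongr)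
        _ ≤ _ := by nlinarith)
    (fun y _ => by rw [(hG y).fderiv, norm_smul, norm_neg, Real.norm_of_nonneg ε0.le]; exact ε1.le)
    (fun y hy => by
      have := hr' y (closedBall_subset_ball (by linarith) hy)
      refine ⟨this.2.2, this.1.2, ?_⟩
      by_cases hya : y = a
      · left; simp [hya]
      · exact Or.inr (key y hy hya))
  refine ⟨σ, p1, p2, ⟨affChart ψ a (ContinuousLinearEquiv.refl ℝ E), J, ε, hψ.aff _ _,
    by simpa [mem_affChart_target] using ht, by simpa using ψ.left_inv hx, hJ, ε0, ε3, ?_⟩, ?_⟩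
  · filter_upwards [closedBall_mem_nhds (0 : E) hs] with y hy
    simp only [affChart_symm_apply, ContinuousLinearEquiv.refl_symm,
      ContinuousLinearEquiv.refl_apply]
    rw [p3 _ (by simpa using hy)]
    congr 1
    simp only [add_sub_cancel_right]
    module
  · filter_upwards [nhdsWithin_le_nhds ((ψ.continuousAt hx).eventually (closedBall_mem_nhds _ hs)),
      nhdsWithin_le_nhds (ψ.open_source.mem_nhds hx), self_mem_nhdsWithin] with z hz hz' hzx
    have := key _ (closedBall_subset_closedBall (by linarith) hz)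
      (fun e => hzx (ψ.injOn hz' hx e)) 1 one_pos le_rfl
    rwa [one_smul, ← p3 _ hz, ψ.left_inv hz'] at this

theorem exists_gradient_like [IsManifold 𝓘(ℝ, E) ∞ M] [CompactSpace M] :
    ∃ (f : Diff1 E M) (φ : M → ℝ) (C : Set M), Continuous φ ∧ C.Finite ∧
      (∀ x ∉ C, φ (f x) < φ x) ∧ ∀ c ∈ C, Loc f c := by
  obtain ⟨φ, C, hφ, hC, h1, h2⟩ := exists_morse (E := E) (M := M)
  have step1 : ∀ T : Set M, T.Finite → T ⊆ C → ∃ σ : Diff1 E M, IsPush φ σ ∧
      (∀ c ∈ T, Loc σ c ∧ ∀ᶠ z in 𝓝[≠] c, φ (σ z) < φ z) ∧ ∀ c ∈ C \ T, σ =ᶠ[𝓝 c] id := by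
    intro T hT
    induction T, hT using Set.Finite.induction_on with
    | empty => exact fun _ => ⟨1, fun _ => Or.inl rfl, by simp, fun _ _ => by rfl⟩
    | @insert c T hc hT ih =>
      intro hsub
      obtain ⟨σ, p1, p2, p3⟩ := ih ((subset_insert _ _).trans hsub)
      have hcC := hsub (mem_insert _ _)
      obtain ⟨ψ, a1, a2, a3, a4, a5⟩ := h2 c hcC
      obtain ⟨τ, q1, q2, q3, q4⟩ := push_critical a1 a2 a3 a4 a5 (V := (C \ {c})ᶜ)
        ((hC.subset sdiff_subset).isClosed.isOpen_compl.mem_nhds (by simp))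
      refine ⟨σ * τ, p1.mul q1, ?_, fun d hd => ?_⟩
      · rintro d (rfl | hd)
        · refine ⟨q3.congr ?_, q4.mono fun z hz => p1.lt_right hz⟩
          have := τ.continuous.continuousAt.eventually
            (show ∀ᶠ z in 𝓝 (τ d), σ z = id z by rw [q3.fix]; exact p3 d ⟨hcC, hc⟩)
          exact this.mono fun z hz => hz
        · refine ⟨(p2 d hd).1.congr ?_, (p2 d hd).2.mono fun z hz => p1.lt_left q1 hz⟩
          filter_upwards [q2 d (not_not.mpr ⟨hsub (mem_insert_of_mem _ hd),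
            fun e => hc (e ▸ hd)⟩)] with z hz
          rw [diff_mul_apply, hz, id]
      · simp only [Set.mem_sdiff, mem_insert_iff, not_or] at hd
        filter_upwards [p3 d ⟨hd.1, hd.2.2⟩, q2 d (not_not.mpr ⟨hd.1, hd.2.1⟩)] with z hz hz'
        rw [diff_mul_apply, hz', id, hz, id]
  obtain ⟨σ, p1, p2, -⟩ := step1 C hC subset_rfl
  have hK : IsCompact (interior {z | z ∈ C ∨ φ (σ z) < φ z})ᶜ :=
    isOpen_interior.isClosed_compl.isCompact
  obtain ⟨τ, q1, q2, q3⟩ := hK.induction_on (p := fun s => ∃ τ : Diff1 E M, IsPush φ τ ∧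
      (∀ z ∈ s, φ (τ z) < φ z) ∧ ∀ c ∈ C, τ =ᶠ[𝓝 c] id)
    ⟨1, fun _ => Or.inl rfl, by simp, fun _ _ => by rfl⟩
    (fun s t hst ⟨τ, a1, a2, a3⟩ => ⟨τ, a1, fun z hz => a2 z (hst hz), a3⟩)
    (fun s t ⟨τ, a1, a2, a3⟩ ⟨τ', b1, b2, b3⟩ => ⟨τ * τ', a1.mul b1,
      fun z hz => hz.elim (fun h => a1.lt_left b1 (a2 z h)) fun h => a1.lt_right (b2 z h),
      fun c hc => by
        filter_upwards [a3 c hc, b3 c hc] with z hz hz'
        rw [diff_mul_apply, hz', id, hz, id]⟩)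
    (fun x hx => by
      have hxC : x ∉ C := fun h => hx (by
        rw [mem_interior_iff_mem_nhds]
        filter_upwards [eventually_nhdsWithin_iff.mp (p2 x h).2] with z hz
        by_cases e : z = x
        · exact Or.inl (e ▸ h)
        · exact Or.inr (hz e))
      obtain ⟨ψ, a1, a2, a3, a4⟩ := h1 x hxC
      obtain ⟨τ, b1, b2, b3⟩ := push_regular a1 a2 a3 a4 (V := Cᶜ)
        (hC.isClosed.isOpen_compl.mem_nhds hxC)
      exact ⟨_, nhdsWithin_le_nhds b3, τ, b1, fun z hz => hz, fun c hc => b2 c (not_not.mpr hc)⟩)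
  refine ⟨τ * σ, φ, C, hφ, hC, fun x hx => ?_, fun c hc => (p2 c hc).1.congr ?_⟩
  · by_cases h : x ∈ interior {z | z ∈ C ∨ φ (σ z) < φ z}
    · exact q1.lt_right ((interior_subset h).resolve_left hx)
    · exact q1.lt_left p1 (q2 x h)
  · have := σ.continuous.continuousAt.eventually
      (show ∀ᶠ z in 𝓝 (σ c), τ z = id z by rw [(p2 c hc).1.fix]; exact q3 c hc)
    exact this.mono fun z hz => hz

end Pool.Agent.Lib.MP_95f3db_an
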