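import Pool.Agent.Lib.MP_95f3db_an.Init
import Pool.Agent.Lib.MP_95f3db_an.Push

-- part Pool.Agent.Lib.MP_95f3db_an.Seed
section

/-!
# From a seed to the negative answer
-/

namespace Pool.Agent.Lib.MP_95f3db_an

open scoped Manifold ContDiff Topology
open Set Filter Metric Function

variable {E : Type*} [NormedAddCommGroup E] [NormedSpace ℝ E] {M : Type*} [TopologicalSpace M]
  [ChartedSpace E M]

lemma hom_aff {P Q : Type*} [NormedAddCommGroup P] [NormedSpace ℝ P] [NormedAddCommGroup Q]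
    [NormedSpace ℝ Q] {φ : OpenPartialHomeomorph M P} {k : M → M} {l : ℝ} (L : P ≃L[ℝ] Q)
    (h0 : 0 ∈ φ.target) (h : ∀ᶠ y in 𝓝 0, k (φ.symm y) = φ.symm (l • y)) {U : Set M}
    (hU : U ∈ 𝓝 (φ.symm 0)) :
    ∃ r > 0, ∀ y ∈ ball (0 : Q) r, y ∈ (affChart φ 0 L).target ∧ (affChart φ 0 L).symm y ∈ U ∧
      k ((affChart φ 0 L).symm y) = (affChart φ 0 L).symm (l • y) := by
  have h1 : Tendsto L.symm (𝓝 0) (𝓝 0) := by simpa using L.symm.continuous.tendsto 0
  obtain ⟨r, hr, hr'⟩ := Metric.eventually_nhds_iff_ball.mp (h1.eventually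
    ((φ.open_target.eventually_mem h0).and (((φ.continuousAt_symm h0).eventually hU).and h)))
  refine ⟨r, hr, fun y hy => ?_⟩
  simpa [mem_affChart_target] using! hr' y hy

variable [IsManifold 𝓘(ℝ, E) 1 M]

/-- An Axiom A no-cycle diffeomorphism with an orbit from a conformal source to a conformal
sink. -/
def Seed (f : Diff1 E M) : Prop :=
  f ∈ axiomANoCycles E M ∧ ∃ (φS φN : OpenPartialHomeomorph M E) (lS lN : ℝ) (x : M),
    IsChart E φS ∧ IsChart E φN ∧ 0 ∈ φS.target ∧ 0 ∈ φN.target ∧ 0 < lS ∧ lS < 1 ∧ 0 < lN ∧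
    lN < 1 ∧ (∀ᶠ y in 𝓝 0, f (φS.symm y) = φS.symm (lS • y)) ∧
    (∀ᶠ y in 𝓝 0, f⁻¹ (φN.symm y) = φN.symm (lN • y)) ∧ φS.symm 0 ≠ φN.symm 0 ∧
    Tendsto (fun n : ℕ => f^[n] x) atTop (𝓝 (φS.symm 0)) ∧
    Tendsto (fun n : ℕ => (⇑f⁻¹)^[n] x) atTop (𝓝 (φN.symm 0))

variable [FiniteDimensional ℝ E] [CompactSpace M] [T2Space M]

lemma Seed.exists_cfg {F : Type*} [NormedAddCommGroup F] [InnerProductSpace ℝ F]
    [FiniteDimensional ℝ F] (L₀ : E ≃L[ℝ] F × ℝ) {f : Diff1 E M} (h : Seed f) :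
    ∃ (𝓕 : Frame E M (F × ℝ)) (g : Diff1 E M) (d : Data F), Good 𝓕 g ∧
      ∀ᶠ g' in 𝓝 g, Cfg 𝓕 d g' := by
  obtain ⟨hf, φS, φN, lS, lN, x, cS, cN, tS, tN, hS0, hS1, hN0, hN1, hS, hN, hne, hx1, hx2⟩ := h
  have hlam : ∀ (l : ℝ) (y : F × ℝ), Lam F l l y = l • y := fun l y => rfl
  obtain ⟨US, UN, hUS, hUN, hdisj⟩ := t2_separation_nhds hne
  obtain ⟨rN, hrN, bN⟩ := hom_aff L₀ tN hN hUN
  obtain ⟨r₀, hr₀, b₀⟩ := hom_aff L₀ tS hS hUS
  have cN' := cN.aff 0 L₀
  have cS₀ := cS.aff 0 L₀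
  have eN : (affChart φN 0 L₀).symm 0 = φN.symm 0 := by simp
  have eS₀ : (affChart φS 0 L₀).symm 0 = φS.symm 0 := by simp
  set φN' := affChart φN 0 L₀
  set φ₀ := affChart φS 0 L₀
  have fS : f (φS.symm 0) = φS.symm 0 := by simpa using hS.self_of_nhds
  have fN' : f⁻¹ (φN.symm 0) = φN.symm 0 := by simpa using hN.self_of_nhds
  have fN : f (φN.symm 0) = φN.symm 0 := by
    conv_lhs => rw [← fN']
    simp
  have fS' : f⁻¹ (φS.symm 0) = φS.symm 0 := by
    conv_lhs => rw [← fS]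
    simp
  obtain ⟨j, p, hp, hp'⟩ := (hx2.eventually (eN ▸ φN'.symm.image_mem_nhds
    (bN 0 (mem_ball_self hrN)).1 (ball_mem_nhds 0 (half_pos hrN)))).exists
  have hx3 : Tendsto (fun n : ℕ => f^[n] (φN'.symm p)) atTop (𝓝 (φS.symm 0)) := by
    rw [← tendsto_add_atTop_iff_nat j]
    refine hx1.congr fun n => ?_
    have e := iterate_inv_iterate f⁻¹ j x
    rw [inv_inv] at e
    rw [iterate_add_apply, hp', e]
  have hx4 : Tendsto (fun n : ℕ => (⇑f⁻¹)^[n] (φN'.symm p)) atTop (𝓝 (φN.symm 0)) := by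
    refine (hx2.comp (tendsto_add_atTop_nat j)).congr fun n => ?_
    rw [hp', comp_apply, iterate_add_apply]
  have hne' : ∀ i, f^[i] (φN'.symm p) ≠ φS.symm 0 ∧ f^[i] (φN'.symm p) ≠ φN.symm 0 := by
    intro i
    constructor
    · intro e
      have e2 := iterate_inv_iterate f i (φN'.symm p)
      rw [e, iterate_fixed fS'] at e2
      simp only [← e2, iterate_fixed fS'] at hx4
      exact hne (tendsto_nhds_unique tendsto_const_nhds hx4)
    · intro e
      have e2 := iterate_inv_iterate f i (φN'.symm p)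
      rw [e, iterate_fixed fN'] at e2
      simp only [← e2, iterate_fixed fN] at hx3
      exact hne (tendsto_nhds_unique hx3 tendsto_const_nhds)
  obtain ⟨m, q, hq, hq'⟩ := (hx3.eventually (eS₀ ▸ φ₀.symm.image_mem_nhds
    (b₀ 0 (mem_ball_self hr₀)).1 (ball_mem_nhds 0 hr₀))).exists
  have hd : p ∈ Dom (f ^ m) φN' φ₀ := ⟨(bN p (ball_subset_ball (by linarith) hp)).1, by
    rw [diff_coe_pow, ← hq']; exact φ₀.map_target (b₀ q hq).1⟩
  have hrep : rep (f ^ m) φN' φ₀ p = q := by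
    rw [rep, diff_coe_pow, ← hq', φ₀.right_inv (b₀ q hq).1]
  obtain ⟨T, hT, -⟩ := exists_equiv_rep cN' cS₀ hd
  obtain ⟨L, hL⟩ := SeparatingDual.exists_continuousLinearEquiv_apply_eq (R := ℝ)
    (show T (0, 1) ≠ 0 by simp) (show ((0, 1) : F × ℝ) ≠ 0 by simp)
  have cS' := cS₀.aff 0 L
  have eS' : (affChart φ₀ 0 L).symm 0 = φS.symm 0 := by simpa using eS₀
  have hO : ∀ y ∈ L.symm ⁻¹' ball 0 r₀, y ∈ (affChart φ₀ 0 L).target ∧
      (affChart φ₀ 0 L).symm y ∈ US ∧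
      f ((affChart φ₀ 0 L).symm y) = (affChart φ₀ 0 L).symm (Lam F lS lS y) := fun y hy => by
    simpa [mem_affChart_target, hlam] using b₀ _ hy
  have hrepL : rep (f ^ m) φN' (affChart φ₀ 0 L) = L ∘ rep (f ^ m) φN' φ₀ := by
    funext y; simp [rep]
  have par1 : Par (f ^ m) φN' (affChart φ₀ 0 L) p := by
    refine ⟨hd, 1, ?_⟩
    rw [hrepL, (L.hasFDerivAt.comp p (hasFDerivAt_rep cN' cS₀ hd)).fderiv, ← hT, one_smul]
    exact hL
  have hq2 : rep (f ^ m) φN' (affChart φ₀ 0 L) p ∈ L.symm ⁻¹' ball 0 r₀ := by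
    rw [hrepL, comp_apply, hrep]; simpa using hq
  set φS' := affChart φ₀ 0 L
  have hOo : IsOpen (L.symm ⁻¹' ball (0 : F × ℝ) r₀) := isOpen_ball.preimage L.symm.continuous
  have hOm : ∀ y ∈ L.symm ⁻¹' ball (0 : F × ℝ) r₀, Lam F lS lS y ∈ L.symm ⁻¹' ball 0 r₀ := by
    intro y hy
    rw [mem_preimage, hlam, map_smul, ← hlam]
    exact Lam_mem hS0.le le_rfl hS1 hy
  have hOr := fun y hy => rep_lin hOo (fun y hy => (hO y hy).1) hOm (fun y hy => (hO y hy).2.2)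
    (y := y) hy
  obtain ⟨rS, hrS, bS⟩ := Metric.isOpen_iff.mp hOo 0 (by simpa using hr₀)
  have hx5 : Tendsto (fun k : ℕ => f^[k + m] (φN'.symm p)) atTop (𝓝 (φS'.symm 0)) :=
    eS' ▸ hx3.comp (tendsto_add_atTop_nat m)
  obtain ⟨k, q', hq3, hq4⟩ := (hx5.eventually (φS'.symm.image_mem_nhds
    (hO 0 (bS (mem_ball_self hrS))).1 (ball_mem_nhds 0 (half_pos hrS)))).exists
  have par2 := (Par.iter cS' (fun y hy => ⟨(hOr y hy).1, lS, by rw [(hOr y hy).2.2]; simp⟩)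
    (fun y hy => by rw [(hOr y hy).2.1]; exact hOm y hy) k hq2).1
  have par3 := par1.mul cN' cS' cS' par2
  rw [← pow_add] at par3
  let 𝓕 : Frame E M (F × ℝ) := ⟨φS', φN', rS / 2, rN / 2, cS', cN', hdisj.mono
    (by rintro _ ⟨y, hy, rfl⟩; exact (hO y (bS (closedBall_subset_ball (by linarith) hy))).2.1)
    (by rintro _ ⟨y, hy, rfl⟩; exact (bN y (closedBall_subset_ball (by linarith) hy)).2.1)⟩
  have g0 : Good 𝓕 f := ⟨hf,
    (near_lam hS0.le le_rfl hS1 (r' := rS) (fun y hy => (hO y (bS hy)).1)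
      (fun y hy => (hO y (bS hy)).2.2) (half_pos hrS) (half_lt_self hrS)).contr,
    (near_lam hN0.le le_rfl hN1 (r' := rN) (fun y hy => (bN y hy).1)
      (fun y hy => (bN y hy).2.2) (half_pos hrN) (half_lt_self hrN)).contr⟩
  obtain ⟨g, mS, mN, r₁, r₂, p', n, g1, a1, a2, a3, a4, a5, a6, a7, a8, a9, a10, a11, a12, a13,
    a14⟩ := stage_stretch g0 hS0 hS1 hN0 hN1
      (fun y hy => (hO y (bS (ball_subset_ball (half_le_self hrS.le) hy))).2.2)
      (fun y hy => (bN y (ball_subset_ball (half_le_self hrN.le) hy)).2.2) hp par3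
      (by
        show φS' ((f ^ (k + m)) (φN'.symm p)) ∈ ball 0 (rS / 2)
        rwa [diff_coe_pow, ← hq4,
          φS'.right_inv (hO q' (bS (ball_subset_ball (half_le_self hrS.le) hq3))).1])
      (fun i => by
        show f^[i] (φN'.symm p) ≠ φS'.symm 0 ∧ f^[i] (φN'.symm p) ≠ φN'.symm 0
        rw [eS', eN]; exact hne' i)
  exact ⟨𝓕, stage_shear g1 a1 a2 hS1 a3 a4 hN1 a5 a6 a8 a9 a10 a11 a12 a13 a14⟩

theorem Seed.negative (hd : 1 ≤ Module.finrank ℝ E) {f : Diff1 E M} (h : Seed f) :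
    ¬ ∃ U : Set (Diff1 E M), U ⊆ axiomANoCycles E M ∧
      (∃ W, IsOpen W ∧ U = W ∩ axiomANoCycles E M) ∧ axiomANoCycles E M ⊆ closure U ∧
      ∀ f ∈ U, TrivialCentralizer f := by
  rintro ⟨U, -, ⟨W, hW, rfl⟩, hdense, htriv⟩
  have L₀ : E ≃L[ℝ] EuclideanSpace ℝ (Fin (Module.finrank ℝ E - 1)) × ℝ :=
    ContinuousLinearEquiv.ofFinrankEq (by simp; omega)
  obtain ⟨𝓕, g, d, hg, hc⟩ := h.exists_cfg L₀
  obtain ⟨f, ⟨⟨h1, h2⟩, h3⟩, h4, h5⟩ := mem_closure_iff_nhds.mp (hdense hg.mem) _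
    (hg.eventually.and hc.eventually_nhds)
  obtain ⟨f', a1, a2, a3⟩ := dense_nontrivial (𝓕 := 𝓕) ⟨h5, h1, h2⟩ h3 (hW.mem_nhds h4)
  exact a3 (htriv f' ⟨a1, a2⟩)

end Pool.Agent.Lib.MP_95f3db_an
end

-- part Pool.Agent.Lib.MP_95f3db_an.Grad
section

/-!
# The gradient-like diffeomorphism is a seed
-/

namespace Pool.Agent.Lib.MP_95f3db_an

open scoped Manifold ContDiff Topology
open Set Filter Metric Function

section lyap

variable {M : Type*} [TopologicalSpace M] {k : M → M} {φ : M → ℝ} {C : Set M}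

omit [TopologicalSpace M] in
lemma lyap_le (h1 : ∀ x ∉ C, φ (k x) < φ x) (h2 : ∀ c ∈ C, k c = c) (n : ℕ) (x : M) :
    φ (k^[n] x) ≤ φ x := by
  induction n with
  | zero => exact le_rfl
  | succ n ih =>
    rw [iterate_succ_apply']
    refine le_trans ?_ ih
    by_cases h : k^[n] x ∈ C
    · rw [h2 _ h]
    · exact (h1 _ h).le

lemma lyap_nonwandering (hk : Continuous k) (hφ : Continuous φ) (h1 : ∀ x ∉ C, φ (k x) < φ x)
    (h2 : ∀ c ∈ C, k c = c) : nonwandering k = C := by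
  refine Subset.antisymm (fun x hx => ?_) fun c hc => fixed_mem_nonwandering (h2 c hc)
  by_contra hC
  obtain ⟨t, t1, t2⟩ := exists_between (h1 x hC)
  obtain ⟨n, hn, _, ⟨a, ha, rfl⟩, hb⟩ := hx _
    (((hφ.comp hk).continuousAt.eventually (gt_mem_nhds t1)).and
      (hφ.continuousAt.eventually (lt_mem_nhds t2)))
  obtain ⟨n, rfl⟩ : ∃ m, n = m + 1 := ⟨n - 1, by omega⟩
  have a1 := lyap_le h1 h2 n (k a)
  have a2 : φ (k a) < t := ha.1
  have a3 : t < φ (k^[n] (k a)) := hb.2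
  linarith

lemma lyap_eventually [CompactSpace M] (hk : Continuous k) (hφ : Continuous φ)
    (h1 : ∀ x ∉ C, φ (k x) < φ x) (h2 : ∀ c ∈ C, k c = c) {V : Set M} (hV : IsOpen V)
    (hCV : C ⊆ V) (x : M) : ∀ᶠ n in atTop, k^[n] x ∈ V := by
  obtain ⟨δ, hδ, hδ'⟩ := hV.isClosed_compl.isCompact.exists_forall_le'
    (hφ.sub (hφ.comp hk)).continuousOn (a := 0) fun z hz => sub_pos.mpr (h1 z fun h => hz (hCV h))
  have ha : Antitone fun n => φ (k^[n] x) := antitone_nat_of_succ_le fun n => by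
    rw [iterate_succ_apply']
    exact lyap_le h1 h2 1 _
  obtain ⟨b, hb⟩ := (isCompact_range hφ).bddBelow
  have ht := tendsto_atTop_ciInf ha ⟨b, by rintro _ ⟨n, rfl⟩; exact hb ⟨_, rfl⟩⟩
  have := ht.sub (ht.comp (tendsto_add_atTop_nat 1))
  rw [sub_self] at this
  filter_upwards [this.eventually (gt_mem_nhds hδ)] with n hn
  by_contra h
  have := hδ' _ h
  simp only [comp_apply, iterate_succ_apply', Pi.sub_apply] at hn this
  linarith

lemma lyap_stay [CompactSpace M] [T2Space M] (hk : Continuous k) (hφ : Continuous φ)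
    (hC : C.Finite) (h1 : ∀ x ∉ C, φ (k x) < φ x) (h2 : ∀ c ∈ C, k c = c) {N : M → Set M}
    (hN : ∀ c ∈ C, N c ∈ 𝓝 c) (x : M) : ∃ c ∈ C, ∃ n₀, ∀ n, k^[n] (k^[n₀] x) ∈ N c := by
  obtain ⟨U, hU, hd⟩ := hC.t2_separation
  obtain ⟨n₀, hn₀⟩ := eventually_atTop.mp (lyap_eventually hk hφ h1 h2
    (V := ⋃ c ∈ C, interior (N c) ∩ U c ∩ k ⁻¹' U c)
    (isOpen_biUnion fun c _ => (isOpen_interior.inter (hU c).2).inter ((hU c).2.preimage hk))
    (fun c hc => mem_biUnion hc ⟨⟨mem_interior_iff_mem_nhds.mpr (hN c hc), (hU c).1⟩,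
      by rw [mem_preimage, h2 c hc]; exact (hU c).1⟩) x)
  obtain ⟨c, hc, h0⟩ := mem_iUnion₂.mp (hn₀ n₀ le_rfl)
  refine ⟨c, hc, n₀, fun n => ?_⟩
  have : k^[n] (k^[n₀] x) ∈ interior (N c) ∩ U c ∩ k ⁻¹' U c := by
    induction n with
    | zero => exact h0
    | succ n ih =>
      obtain ⟨d, hd', h⟩ := mem_iUnion₂.mp (hn₀ (n + 1 + n₀) (by omega))
      rw [iterate_add_apply] at h
      by_cases e : c = d
      · rwa [e]
      · refine absurd h.1.2 (Set.disjoint_left.mp (hd hc hd' e) ?_)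
        rw [iterate_succ_apply']
        exact ih.2
  exact interior_subset this.1.1

end lyap

variable {E : Type*} [NormedAddCommGroup E] [NormedSpace ℝ E] {M : Type*} [TopologicalSpace M]
  [ChartedSpace E M]

lemma rep_of_eventually {k : Diff1 E M} {ψ : OpenPartialHomeomorph M E} (h0 : 0 ∈ ψ.target)
    {A : E →L[ℝ] E} (h : ∀ᶠ y in 𝓝 0, k (ψ.symm y) = ψ.symm (A y)) :
    0 ∈ Dom k ψ ψ ∧ rep k ψ ψ 0 = 0 ∧ fderiv ℝ (rep k ψ ψ) 0 = A := by
  have h1 : ∀ᶠ y in 𝓝 0, A y ∈ ψ.target :=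
    A.continuous.continuousAt.eventually (ψ.open_target.mem_nhds (by simpa using h0))
  have h2 : rep k ψ ψ =ᶠ[𝓝 0] A := by
    filter_upwards [h, h1] with y hy hy'
    rw [rep, hy, ψ.right_inv hy']
  refine ⟨⟨h0, by rw [h.self_of_nhds]; exact ψ.map_target h1.self_of_nhds⟩, ?_, ?_⟩
  · rw [h2.self_of_nhds, map_zero]
  · rw [h2.fderiv_eq, A.fderiv]

lemma Loc.tang {f : Diff1 E M} {c : M} (h : Loc f c) :
    ∃ (J : TangentSpace 𝓘(ℝ, E) c →L[ℝ] TangentSpace 𝓘(ℝ, E) c) (ε : ℝ), 0 < ε ∧ ε < 1 ∧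
      (∀ v, J (J v) = v) ∧ ∀ v, tang f ⟨c, v⟩ = ⟨c, v - ε • J v⟩ := by
  obtain ⟨ψ, J, ε, hψ, h0, rfl, hJ, ε0, ε1, h⟩ := h
  obtain ⟨a1, a2, a3⟩ := rep_of_eventually h0 (A := ContinuousLinearMap.id ℝ E - ε • J) h
  let A : E →L[ℝ] TangentSpace 𝓘(ℝ, E) (ψ.symm 0) := mfderiv 𝓘(ℝ, E) 𝓘(ℝ, E) ψ.symm 0
  let B : TangentSpace 𝓘(ℝ, E) (ψ.symm 0) →L[ℝ] E := mfderiv 𝓘(ℝ, E) 𝓘(ℝ, E) ψ (ψ.symm 0)
  have hup : ∀ u, up E ψ (0, u) = ⟨ψ.symm 0, A u⟩ := fun u => rfl
  have hAB : ∀ v, A (B v) = v := fun v => by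
    have h1 := up_down hψ (w := ⟨ψ.symm 0, v⟩) (ψ.map_target h0)
    have h2 : down ψ (⟨ψ.symm 0, v⟩ : TM E M) = (0, B v) := Prod.ext (ψ.right_inv h0) rfl
    rw [h2, hup] at h1
    exact eq_of_heq (Bundle.TotalSpace.mk.inj h1).2
  have hBA : ∀ u, B (A u) = u := fun u => by
    have h1 := down_tang_up (k := 1) hψ hψ (y := 0) ⟨h0, ψ.map_target h0⟩ u
    rw [tang_one, fderiv_rep_one h0] at h1
    exact congrArg Prod.snd h1
  refine ⟨A.comp (J.comp B), ε, ε0, ε1, fun v => by simp [hBA, hJ, hAB], fun v => ?_⟩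
  have := tang_up hψ hψ a1 (B v)
  rw [a2, a3, hup, hup, hAB] at this
  rw [this]
  simp [hAB]

lemma len_smul (g : ∀ x : M, LinearMap.BilinForm ℝ (TangentSpace 𝓘(ℝ, E) x)) (x : M) (t : ℝ)
    (v : TangentSpace 𝓘(ℝ, E) x) : len g ⟨x, t • v⟩ = |t| * len g ⟨x, v⟩ := by
  show √(g x (t • v) (t • v)) = |t| * √(g x v v)
  rw [map_smul, map_smul, LinearMap.smul_apply, smul_eq_mul, smul_eq_mul, ← mul_assoc,
    Real.sqrt_mul (mul_self_nonneg t), Real.sqrt_mul_self_eq_abs]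

lemma contracted_of_finite (g : ∀ x : M, LinearMap.BilinForm ℝ (TangentSpace 𝓘(ℝ, E) x))
    {k : Diff1 E M} {C : Set M} (hC : C.Finite)
    {F : ∀ x : M, Submodule ℝ (TangentSpace 𝓘(ℝ, E) x)}
    (h : ∀ c ∈ C, ∃ l : ℝ, 0 < l ∧ l < 1 ∧ (∀ v ∈ F c, tang k ⟨c, v⟩ = ⟨c, l • v⟩) ∧
      ∀ v, (tang k ⟨c, v⟩).2 ∈ F (tang k ⟨c, v⟩).1 → v ∈ F c) : Contracted g k C F := by
  choose! l l0 l1 h1 h2 using h
  obtain ⟨L, ⟨hL, hL0⟩, hL1⟩ := (((((eventually_all_finite hC).mpr fun c hc =>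
    lt_mem_nhds (l1 c hc)).and (lt_mem_nhds one_pos)).filter_mono nhdsWithin_le_nhds).and
    (self_mem_nhdsWithin (s := Iio (1 : ℝ)))).exists
  refine ⟨?_, 1, L, one_pos, hL0, hL1, ?_⟩
  · rintro ⟨c, v⟩ hc
    refine ⟨fun hv => ?_, h2 c hc v⟩
    rw [h1 c hc v hv]
    exact (F c).smul_mem _ hv
  · rintro ⟨c, v⟩ hc hv n
    have : (tang k)^[n] ⟨c, v⟩ = ⟨c, l c ^ n • v⟩ := by
      induction n with
      | zero => simp
      | succ n ih =>
        rw [iterate_succ_apply', ih, h1 c hc _ ((F c).smul_mem _ hv), smul_smul, pow_succ']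
    have h0 := l0 c hc
    rw [this, len_smul, abs_of_pos (by positivity), one_mul]
    have := len_nonneg g ⟨c, v⟩
    gcongr
    exact (hL c hc).le

/-- Local normal form adapted to both `f` and its inverse. -/
def Loc2 (k : Diff1 E M) (ψ : OpenPartialHomeomorph M E) (J : E →L[ℝ] E) (l : ℝ) : Prop :=
  0 ∈ ψ.target ∧ 0 < l ∧ l < 1 ∧ ∃ (A : E →L[ℝ] E) (m : ℝ), 1 < m ∧
    (∀ y, A y - J (A y) = m • (y - J y)) ∧ (∀ y, J y = y → A y = l • y) ∧
    ∀ᶠ y in 𝓝 0, k (ψ.symm y) = ψ.symm (A y)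

lemma Loc.loc2 {f : Diff1 E M} {c : M} (h : Loc f c) :
    ∃ (ψ : OpenPartialHomeomorph M E) (J : E →L[ℝ] E) (l l' : ℝ), IsChart E ψ ∧ ψ.symm 0 = c ∧
      Loc2 f ψ J l ∧ Loc2 f⁻¹ ψ (-J) l' := by
  obtain ⟨ψ, J, ε, hψ, h0, rfl, hJ, ε0, ε1, h⟩ := h
  have hd : 0 < 1 - ε ^ 2 := by nlinarith
  have h1 : 1 + ε ≠ 0 := by positivity
  have h2 : 1 - ε ≠ 0 := by linarith [sub_pos.mpr ε1]
  have h3 : (1 - ε ^ 2)⁻¹ * (1 - ε ^ 2) = 1 := inv_mul_cancel₀ hd.ne'
  let A : E ≃L[ℝ] E := ContinuousLinearEquiv.equivOfInverse (ContinuousLinearMap.id ℝ E - ε • J)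
    ((1 - ε ^ 2)⁻¹ • (ContinuousLinearMap.id ℝ E + ε • J))
    (fun y => by
      simp only [smul_apply, add_apply, sub_apply, ContinuousLinearMap.id_apply, map_sub, map_smul,
        hJ]
      conv_rhs => rw [← one_smul ℝ y, ← h3]
      module)
    (fun y => by
      simp only [smul_apply, add_apply, sub_apply, ContinuousLinearMap.id_apply, map_add, map_smul,
        hJ]
      conv_rhs => rw [← one_smul ℝ y, ← h3]
      module)
  refine ⟨ψ, J, 1 - ε, (1 + ε)⁻¹, hψ, rfl, ⟨h0, by linarith, by linarith,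
    ContinuousLinearMap.id ℝ E - ε • J, 1 + ε, by linarith, fun y => ?_, fun y hy => ?_, h⟩,
    ⟨h0, by positivity, inv_lt_one_of_one_lt₀ (by linarith),
      (1 - ε ^ 2)⁻¹ • (ContinuousLinearMap.id ℝ E + ε • J), (1 - ε)⁻¹,
      (one_lt_inv₀ (by linarith)).mpr (by linarith), fun y => ?_, fun y hy => ?_, ?_⟩⟩
  · simp only [smul_apply, sub_apply, ContinuousLinearMap.id_apply, map_sub, map_smul, hJ]
    module
  · simp only [smul_apply, sub_apply, ContinuousLinearMap.id_apply, hy]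
    module
  · have : (1 - ε)⁻¹ = (1 - ε ^ 2)⁻¹ * (1 + ε) := by field_simp; ring
    simp only [smul_apply, add_apply, neg_apply, ContinuousLinearMap.id_apply, map_add, map_smul,
      hJ, this]
    module
  · have : (1 + ε)⁻¹ = (1 - ε ^ 2)⁻¹ * (1 - ε) := by field_simp; ring
    have hy' : J y = -y := by rw [neg_apply] at hy; exact neg_eq_iff_eq_neg.mp hy
    simp only [smul_apply, add_apply, ContinuousLinearMap.id_apply, hy', this]
    module
  · have := lin_inv (f := f) (φ := ψ) (s := 0) A (by simpa using! h)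
    simp only [zero_add, sub_zero] at this
    exact this

variable [FiniteDimensional ℝ E] [CompactSpace M] [T2Space M]

lemma generic_sink {k : Diff1 E M} {φ : M → ℝ} {C : Set M} (hφ : Continuous φ) (hC : C.Finite)
    (h1 : ∀ x ∉ C, φ (k x) < φ x) {ψ : M → OpenPartialHomeomorph M E} {J : M → E →L[ℝ] E}
    {l : M → ℝ} (h2 : ∀ c ∈ C, (ψ c).symm 0 = c ∧ Loc2 k (ψ c) (J c) (l c)) :
    ∀ᶠ x in residual M, ∃ c ∈ C, (∀ y, J c y = y) ∧
      (∀ᶠ y in 𝓝 0, k ((ψ c).symm y) = (ψ c).symm (l c • y)) ∧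
      Tendsto (fun n : ℕ => k^[n] x) atTop (𝓝 ((ψ c).symm 0)) := by
  have : ProperSpace E := FiniteDimensional.proper ℝ E
  choose! h0 h3 l0 l1 A m m1 hA1 hA2 hA3 using h2
  have hr : ∀ c ∈ C, ∃ r > 0, ∀ y ∈ closedBall (0 : E) r, (y ∈ (ψ c).target ∧
      A c y ∈ (ψ c).target) ∧ k ((ψ c).symm y) = (ψ c).symm (A c y) := fun c hc =>
    Metric.nhds_basis_closedBall.eventually_iff.mp
      ((((ψ c).open_target.eventually_mem (h3 c hc)).and ((A c).continuous.continuousAt.eventually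
        ((ψ c).open_target.mem_nhds (by simpa using h3 c hc)))).and (hA3 c hc))
  choose! r r0 hr using hr
  have hfix : ∀ c ∈ C, k c = c := fun c hc => by
    have := (hA3 c hc).self_of_nhds
    rwa [map_zero, h0 c hc] at this
  have hZ : ∀ c ∈ C, (¬ ∀ y, J c y = y) → ∀ n : ℕ,
      {x | k^[n] x ∉ (ψ c).symm '' (closedBall 0 (r c) ∩ {y | J c y = y})} ∈ residual M := by
    intro c hc hJ n
    have a1 : IsClosed ((ψ c).symm '' (closedBall 0 (r c) ∩ {y | J c y = y})) :=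
      (isCompact_symm_image ((isCompact_closedBall _ _).inter_right
        (isClosed_eq (J c).continuous continuous_id)) fun y hy => (hr c hc y hy.1).1.1).isClosed
    have a2 : Dense ((ψ c).symm '' (closedBall 0 (r c) ∩ {y | J c y = y}))ᶜ := by
      rw [← interior_eq_empty_iff_dense_compl, eq_empty_iff_forall_notMem]
      intro x hx
      obtain ⟨y, hy, rfl⟩ := interior_subset hx
      have b1 := (hr c hc y hy.1).1.1
      have b2 : J c =ᶠ[𝓝 y] id := by
        filter_upwards [((ψ c).continuousAt_symm b1).eventually (mem_interior_iff_mem_nhds.mp hx),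
          (ψ c).open_target.mem_nhds b1] with z ⟨z', hz', e⟩ hz
        rw [← (ψ c).symm.injOn (hr c hc z' hz'.1).1.1 hz e]
        exact hz'.2
      have b3 := b2.fderiv_eq (𝕜 := ℝ)
      rw [(J c).fderiv, fderiv_id] at b3
      exact hJ fun y => by rw [b3]; rfl
    have a3 := residual_of_dense_open (a1.isOpen_compl.preimage (k ^ n).continuous)
      (a2.preimage (k ^ n).toHomeomorph.isOpenMap)
    rwa [diff_coe_pow] at a3
  have hall : ∀ᶠ x in residual M, ∀ c ∈ C, (¬ ∀ y, J c y = y) → ∀ n : ℕ,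
      k^[n] x ∉ (ψ c).symm '' (closedBall 0 (r c) ∩ {y | J c y = y}) :=
    (eventually_all_finite hC).mpr fun c hc => eventually_imp_distrib_left.mpr fun hJ =>
      eventually_countable_forall.mpr (hZ c hc hJ)
  filter_upwards [hall] with x hx
  obtain ⟨c, hc, n₀, hn⟩ := lyap_stay k.continuous hφ hC h1 hfix
    (N := fun c => (ψ c).symm '' closedBall 0 (r c))
    (fun c hc => by
      have := (ψ c).symm.image_mem_nhds (h3 c hc) (closedBall_mem_nhds 0 (r0 c hc))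
      rwa [h0 c hc] at this) x
  obtain ⟨y, hy, ey⟩ := hn 0
  rw [iterate_zero, id] at ey
  have a1 : ∀ n, (A c)^[n] y ∈ closedBall 0 (r c) ∧
      k^[n] (k^[n₀] x) = (ψ c).symm ((A c)^[n] y) := by
    intro n
    induction n with
    | zero => exact ⟨hy, ey.symm⟩
    | succ n ih =>
      obtain ⟨z, hz, ez⟩ := hn (n + 1)
      rw [iterate_succ_apply', ih.2, (hr c hc _ ih.1).2] at ez
      rw [iterate_succ_apply', iterate_succ_apply', ih.2, (hr c hc _ ih.1).2]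
      exact ⟨(ψ c).symm.injOn (hr c hc z hz).1.1 (hr c hc _ ih.1).1.2 ez ▸ hz, rfl⟩
  have a2 : ∀ n, (A c)^[n] y - J c ((A c)^[n] y) = m c ^ n • (y - J c y) := by
    intro n
    induction n with
    | zero => simp
    | succ n ih => rw [iterate_succ_apply', hA1 c hc, ih, smul_smul, pow_succ']
  have a3 : J c y = y := by
    by_contra hne
    have b0 : 0 < ‖y - J c y‖ := norm_pos_iff.mpr (sub_ne_zero.mpr (Ne.symm hne))
    have b1 := (tendsto_pow_atTop_atTop_of_one_lt (m1 c hc)).atTop_mul_const b0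
    obtain ⟨n, hn⟩ := (b1.eventually (eventually_gt_atTop (r c + ‖J c‖ * r c))).exists
    have b2 := congrArg norm (a2 n)
    have b3 := m1 c hc
    rw [norm_smul, Real.norm_of_nonneg (by positivity)] at b2
    have b4 := mem_closedBall_zero_iff.mp (a1 n).1
    have b5 := norm_sub_le ((A c)^[n] y) (J c ((A c)^[n] y))
    have b6 : ‖J c ((A c)^[n] y)‖ ≤ ‖J c‖ * r c := ((J c).le_opNorm _).trans (by gcongr)
    linarith
  have a4 : ∀ y, J c y = y := by
    by_contra hJ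
    exact hx c hc hJ n₀ ⟨y, ⟨hy, a3⟩, ey⟩
  refine ⟨c, hc, a4, (hA3 c hc).mono fun z hz => by rw [hz, hA2 c hc z (a4 z)], ?_⟩
  rw [← tendsto_add_atTop_iff_nat n₀]
  have a5 : ∀ n, (A c)^[n] y = l c ^ n • y := by
    intro n
    induction n with
    | zero => simp
    | succ n ih => rw [iterate_succ_apply', ih, hA2 c hc _ (a4 _), smul_smul, pow_succ']
  have a6 := (tendsto_pow_atTop_nhds_zero_of_lt_one (l0 c hc).le (l1 c hc)).smul_const y
  rw [zero_smul] at a6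
  refine (((ψ c).continuousAt_symm (h3 c hc)).tendsto.comp a6).congr fun n => ?_
  rw [iterate_add_apply, (a1 n).2, a5, comp_apply]

variable [IsManifold 𝓘(ℝ, E) ∞ M]

lemma exists_riemannian :
    ∃ g : ∀ x : M, LinearMap.BilinForm ℝ (TangentSpace 𝓘(ℝ, E) x), IsRiemannian g := by
  obtain ⟨n, e, he, -, hi⟩ := exists_embedding_euclidean_of_compact (I := 𝓘(ℝ, E)) (M := M)
  let D : ∀ x : M, TangentSpace 𝓘(ℝ, E) x →L[ℝ] EuclideanSpace ℝ (Fin n) := fun x =>
    mfderiv 𝓘(ℝ, E) 𝓘(ℝ, EuclideanSpace ℝ (Fin n)) e x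
  refine ⟨fun x => LinearMap.mk₂ ℝ (fun v w => inner ℝ (D x v) (D x w))
    (fun _ _ _ => by rw [map_add, inner_add_left]) (fun _ _ _ => by
      rw [map_smul, real_inner_smul_left, smul_eq_mul])
    (fun _ _ _ => by rw [map_add, inner_add_right]) (fun _ _ _ => by
      rw [map_smul, real_inner_smul_right, smul_eq_mul]),
    fun x v w => real_inner_comm (D x w) (D x v), fun x v hv => ?_, ?_⟩
  · refine (real_inner_self_pos (x := D x v)).mpr fun h0 => hv (hi x ?_)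
    exact h0.trans (map_zero _).symm
  · have h1 : Continuous fun p : TangentBundle 𝓘(ℝ, EuclideanSpace ℝ (Fin n))
        (EuclideanSpace ℝ (Fin n)) =>
        ((p.1, p.2) : EuclideanSpace ℝ (Fin n) × EuclideanSpace ℝ (Fin n)) :=
      (tangentBundleModelSpaceHomeomorph 𝓘(ℝ, EuclideanSpace ℝ (Fin n))).continuous
    have h2 : Continuous fun w : TM E M => D w.1 w.2 :=
      (h1.comp (he.continuous_tangentMap (by norm_cast))).snd
    exact h2.inner h2

lemma gradient_like_mem {f : Diff1 E M} {φ : M → ℝ} {C : Set M} (hφ : Continuous φ)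
    (hC : C.Finite) (h1 : ∀ x ∉ C, φ (f x) < φ x) (h2 : ∀ c ∈ C, Loc f c) :
    f ∈ axiomANoCycles E M := by
  have hfix : ∀ c ∈ C, f c = c := fun c hc => (h2 c hc).fix
  have hΩ := lyap_nonwandering f.continuous hφ h1 hfix
  obtain ⟨g, hg⟩ := exists_riemannian (E := E) (M := M)
  choose! J ε ε0 ε1 hJ hT using fun c hc => (h2 c hc).tang
  refine ⟨⟨⟨?_, ?_, g, hg, fun x => LinearMap.ker ((J x).toLinearMap - LinearMap.id),
    fun x => LinearMap.ker ((J x).toLinearMap + LinearMap.id), ?_, ?_, ?_⟩, ?_⟩, ?_⟩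
  · rw [hΩ]; exact hC.isCompact
  · rw [hΩ, image_congr hfix, image_id']
  · rw [hΩ]
    intro c hc
    constructor
    · rw [Submodule.disjoint_def]
      intro v a1 a2
      simp only [LinearMap.mem_ker, LinearMap.sub_apply, LinearMap.add_apply, LinearMap.id_apply,
        ContinuousLinearMap.coe_coe] at a1 a2
      have : (2 : ℝ) • v = (J c v + v) - (J c v - v) := by module
      rw [a1, a2, sub_zero] at this
      simpa using this
    · rw [codisjoint_iff, eq_top_iff]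
      intro v _
      refine Submodule.mem_sup.mpr ⟨(1 / 2 : ℝ) • (v + J c v), ?_, (1 / 2 : ℝ) • (v - J c v), ?_,
        by module⟩
      · simp [hJ c hc, add_comm]
      · simp [hJ c hc]
  · rw [hΩ]
    refine contracted_of_finite g hC fun c hc => ⟨1 - ε c, by linarith [ε1 c hc],
      by linarith [ε0 c hc], fun v hv => ?_, fun v hv => ?_⟩
    · simp only [LinearMap.mem_ker, LinearMap.sub_apply, LinearMap.id_apply,
        ContinuousLinearMap.coe_coe, sub_eq_zero] at hv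
      rw [hT c hc, hv, sub_smul, one_smul]
    · rw [hT c hc] at hv
      simp only [LinearMap.mem_ker, LinearMap.sub_apply, LinearMap.id_apply,
        ContinuousLinearMap.coe_coe, map_sub, map_smul, hJ c hc] at hv ⊢
      have : (1 + ε c) • (J c v - v) = 0 := by rw [← hv]; module
      exact (smul_eq_zero.mp this).resolve_left (by linarith [ε0 c hc])
  · rw [hΩ]
    have hinv : ∀ w : TM E M, tang f.symm (tang f w) = w := fun w => by
      rw [← diff_inv, ← tang_mul, inv_mul_cancel, tang_one]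
    refine contracted_of_finite g hC fun c hc => ⟨(1 + ε c)⁻¹, by have := ε0 c hc; positivity,
      inv_lt_one_of_one_lt₀ (by linarith [ε0 c hc]), fun v hv => ?_, fun v hv => ?_⟩
    · simp only [LinearMap.mem_ker, LinearMap.add_apply, LinearMap.id_apply,
        ContinuousLinearMap.coe_coe, add_eq_zero_iff_eq_neg] at hv
      have a1 : (1 + ε c)⁻¹ * (1 + ε c) = 1 := inv_mul_cancel₀ (by linarith [ε0 c hc])
      rw [← hinv ⟨c, (1 + ε c)⁻¹ • v⟩, hT c hc, map_smul, hv]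
      congr 2
      conv_lhs => rw [← one_smul ℝ v, ← a1]
      module
    · have a1 : (tang f.symm ⟨c, v⟩).1 = c := by
        show f⁻¹ c = c
        conv_lhs => rw [← hfix c hc]
        simp
      have a2 : tang f (tang f.symm ⟨c, v⟩) = ⟨c, v⟩ := by
        rw [← diff_inv, ← tang_mul, mul_inv_cancel, tang_one]
      generalize tang f.symm ⟨c, v⟩ = w at hv a1 a2
      obtain ⟨c', v'⟩ := w
      subst a1
      rw [hT _ hc] at a2
      rw [← eq_of_heq (Bundle.TotalSpace.mk.inj a2).2]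
      simp only [LinearMap.mem_ker, LinearMap.add_apply, LinearMap.id_apply,
        ContinuousLinearMap.coe_coe, map_sub, map_smul, hJ _ hc] at hv ⊢
      have : J c' v' = -v' := add_eq_zero_iff_eq_neg.mp hv
      rw [this]; module
  · rw [hΩ]
    exact fun c hc => subset_closure ⟨1, one_pos, hfix c hc⟩
  · rintro ⟨m, Λ, hm, hb, hΛ, hc⟩
    have : ∀ j ≤ m, ∃ c, Λ j = {c} := fun j hj => by
      obtain ⟨b1, -, -, -, x, hx, b2⟩ := hb j hj
      have := hfix x (hΩ ▸ b1 hx)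
      refine ⟨x, Subset.antisymm (b2.trans ?_) (by simpa using hx)⟩
      simp [diff_zpow_apply, zpow_fix this]
    have : Nonempty M := ⟨(this 0 (by omega)).choose⟩
    choose! c hc' using ‹∀ j ≤ m, ∃ c, Λ j = {c}›
    have step : ∀ j < m, φ (c (j + 1)) < φ (c j) := by
      intro j hj
      obtain ⟨z, ⟨z1, z2⟩, z3⟩ := hc j hj
      rw [hc' j hj.le, stableSet, nhdsSet_singleton] at z1
      rw [hc' (j + 1) hj, stableSet, nhdsSet_singleton] at z2
      rw [hΩ] at z3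
      have a1 : φ z ≤ φ (c j) := ge_of_tendsto' ((hφ.tendsto _).comp z1) fun n => by
        have e := iterate_inv_iterate f⁻¹ n z
        rw [inv_inv] at e
        have := lyap_le h1 hfix n ((⇑f⁻¹)^[n] z)
        rwa [e] at this
      have a2 : φ (c (j + 1)) ≤ φ (f z) :=
        le_of_tendsto' ((hφ.tendsto _).comp (z2.comp (tendsto_add_atTop_nat 1))) fun n =>
          lyap_le h1 hfix n (f z)
      linarith [h1 z z3]
    have chain : ∀ j, j + 1 ≤ m → φ (c (j + 1)) < φ (c 0) := by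
      intro j
      induction j with
      | zero => exact step 0
      | succ j ih => exact fun hj => (step _ hj).trans (ih (by omega))
    obtain ⟨k, rfl⟩ : ∃ k, m = k + 1 := ⟨m - 1, by omega⟩
    have := chain k le_rfl
    rw [hc' _ le_rfl, hc' 0 (by omega), singleton_eq_singleton_iff] at hΛ
    rw [hΛ] at this
    exact lt_irrefl _ this

theorem exists_seed [Nonempty M] [Nontrivial E] : ∃ f : Diff1 E M, Seed f := by
  have : ProperSpace E := FiniteDimensional.proper ℝ E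
  obtain ⟨f, φ, C, hφ, hC, h1, h2⟩ := exists_gradient_like (E := E) (M := M)
  have hfix : ∀ c ∈ C, f c = c := fun c hc => (h2 c hc).fix
  have h1' : ∀ x ∉ C, -φ (f⁻¹ x) < -φ x := fun x hx => by
    have := h1 (f⁻¹ x) fun h => hx (by have := hfix _ h; rwa [diff_apply_inv] at this ▸ h)
    rw [diff_apply_inv] at this
    linarith
  have : Nonempty (OpenPartialHomeomorph M E) := ⟨chartAt E (Classical.arbitrary M)⟩
  choose! ψ J l l' a1 a2 a3 a4 using fun c hc => (h2 c hc).loc2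
  obtain ⟨x, ⟨S, hS, s1, s2, s3⟩, N, hN, n1, n2, n3⟩ := (dense_of_mem_residual
    ((generic_sink hφ hC h1 fun c hc => ⟨a2 c hc, a3 c hc⟩).and
      (generic_sink (φ := fun x => -φ x) (J := fun c => -J c) hφ.neg hC h1'
        fun c hc => ⟨a2 c hc, a4 c hc⟩))).nonempty
  refine ⟨f, gradient_like_mem hφ hC h1 h2, ψ S, ψ N, l S, l' N, x, a1 S hS, a1 N hN,
    (a3 S hS).1, (a3 N hN).1, (a3 S hS).2.1, (a3 S hS).2.2.1, (a4 N hN).2.1, (a4 N hN).2.2.1,
    s2, n2, ?_, s3, n3⟩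
  rw [a2 S hS, a2 N hN]
  rintro rfl
  obtain ⟨y, hy⟩ := exists_ne (0 : E)
  have := n1 y
  rw [neg_apply, s1, neg_eq_iff_add_eq_zero, ← two_smul ℝ] at this
  simp [hy] at this

end Pool.Agent.Lib.MP_95f3db_an
end
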