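import Mathlib
import Pool.Agent.Shared.Brouwer.Basic

-- part Pool.Agent.Lib.MP_95f3db_an.Alpha
section

/-!
# A C1 action of the affine group on the line, supported in a compact interval
-/

namespace Pool.Agent.Lib.MP_95f3db_an

open scoped Topology
open Set Filter Metric Real

lemma contDiff_of_convex {X Y : Type*} [NormedAddCommGroup X] [NormedSpace ℝ X]
    [NormedAddCommGroup Y] [NormedSpace ℝ Y] {H : X → Y} {U : Set X} (hU : IsOpen U)
    (hc : Convex ℝ U) (hH : ContDiffOn ℝ 1 H U) (h0 : ∀ p ∉ U, H p = 0)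
    (h1 : ∀ p ∈ closure U, p ∉ U → Tendsto H (𝓝[U] p) (𝓝 0))
    (h2 : ∀ p ∈ closure U, p ∉ U → Tendsto (fderiv ℝ H) (𝓝[U] p) (𝓝 0)) : ContDiff ℝ 1 H := by
  have hd : DifferentiableOn ℝ H U := hH.differentiableOn one_ne_zero
  have hout : ∀ p ∉ U, HasFDerivAt H (0 : X →L[ℝ] Y) p := by
    intro p hp
    have a1 : HasFDerivWithinAt H (0 : X →L[ℝ] Y) (closure U) p := by
      by_cases hp' : p ∈ closure U
      · refine hasFDerivWithinAt_closure_of_tendsto_fderiv hd hc hU (fun y hy => ?_) (h2 p hp' hp)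
        by_cases hyU : y ∈ U
        · exact hd.continuousOn y hyU
        · have := h1 y hy hyU
          rwa [← h0 y hyU] at this
      · rw [← closure_closure] at hp'
        exact HasFDerivWithinAt.of_notMem_closure hp'
    have a2 : HasFDerivWithinAt H (0 : X →L[ℝ] Y) Uᶜ p :=
      (hasFDerivWithinAt_const (0 : Y) p Uᶜ).congr (fun y hy => h0 y hy) (h0 p hp)
    have := a1.union a2
    rwa [show closure U ∪ Uᶜ = univ from ?_, hasFDerivWithinAt_univ] at this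
    refine eq_univ_of_forall fun y => ?_
    by_cases hy : y ∈ U
    · exact Or.inl (subset_closure hy)
    · exact Or.inr hy
  rw [contDiff_one_iff_fderiv]
  refine ⟨fun p => ?_, continuous_iff_continuousAt.mpr fun p => ?_⟩
  · by_cases hp : p ∈ U
    · exact (hd p hp).differentiableAt (hU.mem_nhds hp)
    · exact (hout p hp).differentiableAt
  · by_cases hp : p ∈ U
    · exact ((hH.contDiffAt (hU.mem_nhds hp)).continuousAt_fderiv one_ne_zero)
    · rw [ContinuousAt, (hout p hp).fderiv, ← nhdsWithin_univ, ← union_compl_self U,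
        nhdsWithin_union, tendsto_sup]
      constructor
      · by_cases hp' : p ∈ closure U
        · exact h2 p hp' hp
        · rw [mem_closure_iff_nhdsWithin_neBot, not_neBot] at hp'
          rw [hp']; exact tendsto_bot
      · refine tendsto_const_nhds.congr' ?_
        filter_upwards [self_mem_nhdsWithin] with y hy using (hout y hy).fderiv.symm

/-- The affine map `s ↦ exp a * s + b` in the coordinate `arsinh s`. -/
noncomputable def bet (a b u : ℝ) : ℝ := arsinh (exp a * sinh u + b)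

/-- The affine map in the coordinate `arctan (arsinh s)`, extended by the identity. -/
noncomputable def alp (a b t : ℝ) : ℝ :=
  if t ∈ Ioo (-(π / 2)) (π / 2) then arctan (bet a b (tan t)) else t

lemma alp_mem {a b t : ℝ} (ht : t ∈ Ioo (-(π / 2)) (π / 2)) :
    alp a b t ∈ Ioo (-(π / 2)) (π / 2) := by
  rw [alp, if_pos ht]
  exact ⟨neg_pi_div_two_lt_arctan _, arctan_lt_pi_div_two _⟩

lemma alp_of_notMem {a b t : ℝ} (ht : t ∉ Ioo (-(π / 2)) (π / 2)) : alp a b t = t := by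
  rw [alp, if_neg ht]

lemma alp_alp (a b a' b' t : ℝ) :
    alp a b (alp a' b' t) = alp (a + a') (exp a * b' + b) t := by
  by_cases ht : t ∈ Ioo (-(π / 2)) (π / 2)
  · rw [alp, if_pos (alp_mem ht), alp, if_pos ht, alp, if_pos ht, tan_arctan]
    simp only [bet, sinh_arsinh, exp_add]
    congr 2
    ring
  · simp only [alp_of_notMem ht]

lemma alp_zero (t : ℝ) : alp 0 0 t = t := by
  by_cases ht : t ∈ Ioo (-(π / 2)) (π / 2)
  · rw [alp, if_pos ht]
    simp [bet, arctan_tan ht.1 ht.2]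
  · exact alp_of_notMem ht

lemma alp_ne {b : ℝ} (hb : b ≠ 0) : alp 0 b 0 ≠ 0 := by
  have : (0 : ℝ) ∈ Ioo (-(π / 2)) (π / 2) := ⟨by linarith [pi_pos], by linarith [pi_pos]⟩
  rw [alp, if_pos this]
  simp [bet, hb]

lemma one_le_sqrt' (x : ℝ) : 1 ≤ √(1 + x ^ 2) := by
  rw [Real.one_le_sqrt]; nlinarith

lemma abs_le_sqrt' (x : ℝ) : |x| ≤ √(1 + x ^ 2) := by
  apply Real.abs_le_sqrt; linarith

lemma bet_sub (a b u : ℝ) : |bet a b u - u| ≤ |a| + |b| := by
  have h1 : ∀ x y : ℝ, ‖arsinh y - arsinh x‖ ≤ 1 * ‖y - x‖ := fun x y =>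
    (convex_univ (𝕜 := ℝ) (E := ℝ)).norm_image_sub_le_of_norm_hasDerivWithin_le
      (fun z _ => (hasDerivAt_arsinh z).hasDerivWithinAt) (fun z _ => by
        rw [norm_inv, Real.norm_of_nonneg (sqrt_nonneg _)]
        exact inv_le_one_of_one_le₀ (one_le_sqrt' z)) (mem_univ x) (mem_univ y)
  have h2 : ∀ x y : ℝ, ‖arsinh (exp y * sinh u) - arsinh (exp x * sinh u)‖ ≤ 1 * ‖y - x‖ :=
    fun x y => (convex_univ (𝕜 := ℝ) (E := ℝ)).norm_image_sub_le_of_norm_hasDerivWithin_le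
      (f := fun z => arsinh (exp z * sinh u))
      (fun z _ => (((hasDerivAt_exp z).mul_const (sinh u)).arsinh).hasDerivWithinAt) (fun z _ => by
        rw [norm_smul, norm_inv, Real.norm_of_nonneg (sqrt_nonneg _), Real.norm_eq_abs]
        have := abs_le_sqrt' (exp z * sinh u)
        have h := one_le_sqrt' (exp z * sinh u)
        rw [inv_mul_le_iff₀ (by linarith)]
        linarith) (mem_univ x) (mem_univ y)
  have a1 := h1 (exp a * sinh u) (exp a * sinh u + b)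
  have a2 := h2 0 a
  simp only [exp_zero, one_mul, arsinh_sinh, sub_zero, add_sub_cancel_left, Real.norm_eq_abs]
    at a1 a2
  have := abs_add_le (arsinh (exp a * sinh u + b) - arsinh (exp a * sinh u))
    (arsinh (exp a * sinh u) - u)
  rw [sub_add_sub_cancel] at this
  unfold bet
  linarith

section limits

variable {ι : Type*} {l : Filter ι} {a b u : ι → ℝ} {a₀ b₀ : ℝ}

lemma inv_tendsto (hu : Tendsto (fun i => |u i|) l atTop) : Tendsto (fun i => (u i)⁻¹) l (𝓝 0) := by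
  rw [tendsto_zero_iff_abs_tendsto_zero]
  refine hu.inv_tendsto_atTop.congr fun i => ?_
  simp [abs_inv]

lemma lim4 (ha : Tendsto a l (𝓝 a₀)) (hb : Tendsto b l (𝓝 b₀))
    (hu : Tendsto (fun i => |u i|) l atTop) :
    Tendsto (fun i => (1 + u i ^ 2) / (1 + bet (a i) (b i) (u i) ^ 2)) l (𝓝 1) := by
  have hr := inv_tendsto hu
  have hd : Tendsto (fun i => (bet (a i) (b i) (u i) - u i) * (u i)⁻¹) l (𝓝 0) := by
    have h1 : Tendsto (fun i => (|a i| + |b i|) * |(u i)⁻¹|) l (𝓝 ((|a₀| + |b₀|) * |0|)) :=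
      (ha.abs.add hb.abs).mul hr.abs
    rw [abs_zero, mul_zero] at h1
    refine squeeze_zero_norm (fun i => ?_) h1
    rw [Real.norm_eq_abs, abs_mul]
    gcongr
    exact bet_sub _ _ _
  have h2 : Tendsto (fun i => ((u i)⁻¹ ^ 2 + 1) / ((u i)⁻¹ ^ 2 +
      (1 + (bet (a i) (b i) (u i) - u i) * (u i)⁻¹) ^ 2)) l (𝓝 ((0 ^ 2 + 1) / (0 ^ 2 + (1 + 0) ^ 2))) :=
    ((hr.pow 2).add_const 1).div ((hr.pow 2).add ((hd.const_add 1).pow 2)) (by norm_num)
  norm_num at h2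
  refine h2.congr' ?_
  filter_upwards [hu.eventually (eventually_gt_atTop 0)] with i hi
  have : u i ≠ 0 := abs_pos.mp hi
  field_simp
  ring

lemma lim5 (ha : Tendsto a l (𝓝 a₀)) (hb : Tendsto b l (𝓝 b₀))
    (hu : Tendsto (fun i => |u i|) l atTop) :
    Tendsto (fun i => 1 / (1 + bet (a i) (b i) (u i) ^ 2)) l (𝓝 0) := by
  have hr := inv_tendsto hu
  have h2 : Tendsto (fun i => (u i)⁻¹ ^ 2 / ((u i)⁻¹ ^ 2 + 1)) l (𝓝 (0 ^ 2 / (0 ^ 2 + 1))) :=
    (hr.pow 2).div ((hr.pow 2).add_const 1) (by norm_num)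
  have h3 := (lim4 ha hb hu).mul h2
  norm_num at h3
  refine h3.congr' ?_
  filter_upwards [hu.eventually (eventually_gt_atTop 0)] with i hi
  have : u i ≠ 0 := abs_pos.mp hi
  field_simp

lemma lim3 (ha : Tendsto a l (𝓝 a₀)) (hb : Tendsto b l (𝓝 b₀))
    (hu : Tendsto (fun i => |u i|) l atTop) :
    Tendsto (fun i => (√(1 + (exp (a i) * sinh (u i) + b i) ^ 2))⁻¹ * (exp (a i) * cosh (u i)))
      l (𝓝 1) := by
  have hs : Tendsto (fun i => |sinh (u i)|) l atTop := by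
    refine tendsto_atTop_mono (fun i => ?_) hu
    rw [abs_sinh]
    exact self_le_sinh_iff.mpr (abs_nonneg _)
  have hr := inv_tendsto hs
  have hc : Tendsto (fun i => exp (a i)) l (𝓝 (exp a₀)) := (continuous_exp.tendsto _).comp ha
  have h2 : Tendsto (fun i => exp (a i) ^ 2 * ((sinh (u i))⁻¹ ^ 2 + 1) / ((sinh (u i))⁻¹ ^ 2 +
      (exp (a i) + b i * (sinh (u i))⁻¹) ^ 2)) l
      (𝓝 (exp a₀ ^ 2 * (0 ^ 2 + 1) / (0 ^ 2 + (exp a₀ + b₀ * 0) ^ 2))) :=
    ((hc.pow 2).mul ((hr.pow 2).add_const 1)).div ((hr.pow 2).add ((hc.add (hb.mul hr)).pow 2))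
      (by simp)
  have e : exp a₀ ^ 2 * (0 ^ 2 + 1) / (0 ^ 2 + (exp a₀ + b₀ * 0) ^ 2) = 1 := by
    simp
  rw [e] at h2
  have h3 := h2.sqrt
  rw [sqrt_one] at h3
  refine h3.congr' ?_
  filter_upwards [hs.eventually (eventually_gt_atTop 0)] with i hi
  have h0 : sinh (u i) ≠ 0 := abs_pos.mp hi
  have h4 : 0 < 1 + (exp (a i) * sinh (u i) + b i) ^ 2 := by positivity
  rw [Real.sqrt_eq_iff_mul_self_eq (by positivity) (by positivity)]
  have h5 := Real.mul_self_sqrt h4.le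
  have h6 := cosh_sq' (u i)
  have h7 : 0 < √(1 + (exp (a i) * sinh (u i) + b i) ^ 2) := Real.sqrt_pos.mpr h4
  set q := √(1 + (exp (a i) * sinh (u i) + b i) ^ 2)
  have h8 : (sinh (u i))⁻¹ ^ 2 + (exp (a i) + b i * (sinh (u i))⁻¹) ^ 2
      = (sinh (u i))⁻¹ ^ 2 * (q * q) := by
    rw [h5]; field_simp
  rw [h8]
  field_simp
  rw [h6]

end limits

lemma contDiff_alp : ContDiff ℝ 1 fun p : ℝ × ℝ × ℝ => alp p.1 p.2.1 p.2.2 - p.2.2 := by
  set U : Set (ℝ × ℝ × ℝ) := {p | p.2.2 ∈ Ioo (-(π / 2)) (π / 2)} with hU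
  have hUo : IsOpen U := isOpen_Ioo.preimage (by fun_prop)
  have hUc : Convex ℝ U := (convex_Ioo _ _).is_linear_preimage
    (f := fun p : ℝ × ℝ × ℝ => p.2.2) ⟨fun _ _ => rfl, fun _ _ => rfl⟩
  have hev : ∀ p ∈ U, (fun p : ℝ × ℝ × ℝ => alp p.1 p.2.1 p.2.2 - p.2.2) =ᶠ[𝓝 p]
      fun p => arctan (arsinh (exp p.1 * sinh (tan p.2.2) + p.2.1)) - p.2.2 := by
    intro p hp
    filter_upwards [hUo.mem_nhds hp] with q hq
    rw [alp, if_pos (show q.2.2 ∈ Ioo (-(π / 2)) (π / 2) from hq), bet]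
  have hcos : ∀ p ∈ U, cos p.2.2 ≠ 0 := fun p hp => (cos_pos_of_mem_Ioo hp).ne'
  have hbd : ∀ p ∈ closure U, p ∉ U → p.2.2 = π / 2 ∨ p.2.2 = -(π / 2) := by
    intro p hp hp'
    have h1 : closure U ⊆ {p | p.2.2 ∈ Icc (-(π / 2)) (π / 2)} :=
      closure_minimal (fun q hq => Ioo_subset_Icc_self hq) (isClosed_Icc.preimage (by fun_prop))
    have h2 := h1 hp
    simp only [hU, mem_ofPred_eq, mem_Ioo, mem_Icc, not_and_or, not_lt] at h2 hp'
    rcases hp' with h | h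
    · right; linarith [h2.1]
    · left; linarith [h2.2]
  have ht : ∀ p : ℝ × ℝ × ℝ, Tendsto (fun q : ℝ × ℝ × ℝ => q.2.2) (𝓝[U] p) (𝓝 p.2.2) := fun p =>
    ((continuous_snd.comp continuous_snd).tendsto p).mono_left nhdsWithin_le_nhds
  have ha : ∀ p : ℝ × ℝ × ℝ, Tendsto (fun q : ℝ × ℝ × ℝ => q.1) (𝓝[U] p) (𝓝 p.1) := fun p =>
    (continuous_fst.tendsto p).mono_left nhdsWithin_le_nhds
  have hb : ∀ p : ℝ × ℝ × ℝ, Tendsto (fun q : ℝ × ℝ × ℝ => q.2.1) (𝓝[U] p) (𝓝 p.2.1) := fun p =>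
    ((continuous_fst.comp continuous_snd).tendsto p).mono_left nhdsWithin_le_nhds
  have htop : ∀ p : ℝ × ℝ × ℝ, p.2.2 = π / 2 →
      Tendsto (fun q : ℝ × ℝ × ℝ => tan q.2.2) (𝓝[U] p) atTop := by
    intro p hp
    refine tendsto_tan_pi_div_two.comp (tendsto_nhdsWithin_iff.mpr ⟨hp ▸ ht p, ?_⟩)
    filter_upwards [self_mem_nhdsWithin] with q hq using hq.2
  have hbot : ∀ p : ℝ × ℝ × ℝ, p.2.2 = -(π / 2) →
      Tendsto (fun q : ℝ × ℝ × ℝ => tan q.2.2) (𝓝[U] p) atBot := by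
    intro p hp
    refine tendsto_tan_neg_pi_div_two.comp (tendsto_nhdsWithin_iff.mpr ⟨hp ▸ ht p, ?_⟩)
    filter_upwards [self_mem_nhdsWithin] with q hq using hq.1
  have habs : ∀ p ∈ closure U, p ∉ U →
      Tendsto (fun q : ℝ × ℝ × ℝ => |tan q.2.2|) (𝓝[U] p) atTop := by
    intro p hp hp'
    rcases hbd p hp hp' with h | h
    · exact tendsto_abs_atTop_atTop.comp (htop p h)
    · exact tendsto_abs_atBot_atTop.comp (hbot p h)
  refine contDiff_of_convex hUo hUc (fun p hp => ?_) (fun p hp => ?_) (fun p hp hp' => ?_)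
    (fun p hp hp' => ?_)
  · refine (ContDiffAt.congr_of_eventuallyEq ?_ (hev p hp)).contDiffWithinAt
    have h1 : ContDiffAt ℝ 1 (fun q : ℝ × ℝ × ℝ => tan q.2.2) p :=
      (contDiffAt_tan.mpr (hcos p hp)).comp p (f := fun q : ℝ × ℝ × ℝ => q.2.2) (by fun_prop)
    exact (((contDiffAt_fst.exp.mul h1.sinh).add (by fun_prop)).arsinh.arctan).sub (by fun_prop)
  · rw [alp_of_notMem hp, sub_self]
  · have hab := ((ha p).abs.add (hb p).abs).eventually (gt_mem_nhds (lt_add_one _))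
    have key : Tendsto (fun q : ℝ × ℝ × ℝ => arctan (bet q.1 q.2.1 (tan q.2.2))) (𝓝[U] p)
        (𝓝 p.2.2) := by
      rcases hbd p hp hp' with h | h
      · rw [h]
        refine (tendsto_arctan_atTop.mono_right nhdsWithin_le_nhds).comp ?_
        refine tendsto_atTop_mono' _ ?_
          (tendsto_atTop_add_const_right _ (-(|p.1| + |p.2.1| + 1)) (htop p h))
        filter_upwards [hab] with q hq
        have := (abs_le.mp (bet_sub q.1 q.2.1 (tan q.2.2))).1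
        linarith
      · rw [h]
        refine (tendsto_arctan_atBot.mono_right nhdsWithin_le_nhds).comp ?_
        refine tendsto_atBot_mono' _ ?_
          (tendsto_atBot_add_const_right _ (|p.1| + |p.2.1| + 1) (hbot p h))
        filter_upwards [hab] with q hq
        have := (abs_le.mp (bet_sub q.1 q.2.1 (tan q.2.2))).2
        linarith
    have := key.sub (ht p)
    rw [sub_self] at this
    refine this.congr' ?_
    filter_upwards [self_mem_nhdsWithin] with q hq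
    rw [alp, if_pos (show q.2.2 ∈ Ioo (-(π / 2)) (π / 2) from hq)]
  · set da : ℝ × ℝ × ℝ →L[ℝ] ℝ := ContinuousLinearMap.fst ℝ ℝ (ℝ × ℝ) with hda
    set db : ℝ × ℝ × ℝ →L[ℝ] ℝ :=
      (ContinuousLinearMap.fst ℝ ℝ ℝ).comp (ContinuousLinearMap.snd ℝ ℝ (ℝ × ℝ)) with hdb
    set dt : ℝ × ℝ × ℝ →L[ℝ] ℝ :=
      (ContinuousLinearMap.snd ℝ ℝ ℝ).comp (ContinuousLinearMap.snd ℝ ℝ (ℝ × ℝ)) with hdt
    have h3 := lim3 (ha p) (hb p) (habs p hp hp')
    have h4 := lim4 (ha p) (hb p) (habs p hp hp')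
    have h5 := lim5 (ha p) (hb p) (habs p hp hp')
    have k1 : Tendsto (fun q : ℝ × ℝ × ℝ => 1 / (1 + bet q.1 q.2.1 (tan q.2.2) ^ 2) *
        ((√(1 + (exp q.1 * sinh (tan q.2.2) + q.2.1) ^ 2))⁻¹ * (exp q.1 * sinh (tan q.2.2))))
        (𝓝[U] p) (𝓝 0) := by
      have := h5.mul ((hb p).abs.const_add 1)
      rw [zero_mul] at this
      refine squeeze_zero_norm (fun q => ?_) this
      rw [norm_mul, Real.norm_of_nonneg (by positivity), norm_mul, norm_inv,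
        Real.norm_of_nonneg (sqrt_nonneg _), Real.norm_eq_abs]
      gcongr
      have a1 := abs_le_sqrt' (exp q.1 * sinh (tan q.2.2) + q.2.1)
      have a2 := one_le_sqrt' (exp q.1 * sinh (tan q.2.2) + q.2.1)
      have a3 := abs_sub (exp q.1 * sinh (tan q.2.2) + q.2.1) q.2.1
      rw [add_sub_cancel_right] at a3
      rw [inv_mul_le_iff₀ (by linarith)]
      nlinarith [abs_nonneg q.2.1]
    have k2 : Tendsto (fun q : ℝ × ℝ × ℝ => 1 / (1 + bet q.1 q.2.1 (tan q.2.2) ^ 2) *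
        (√(1 + (exp q.1 * sinh (tan q.2.2) + q.2.1) ^ 2))⁻¹) (𝓝[U] p) (𝓝 0) := by
      refine squeeze_zero_norm (fun q => ?_) h5
      rw [Real.norm_of_nonneg (by positivity)]
      exact mul_le_of_le_one_right (by positivity) (inv_le_one_of_one_le₀ (one_le_sqrt' _))
    have k3 := (h4.mul h3).sub_const 1
    rw [mul_one, sub_self] at k3
    have := ((k1.smul_const da).add (k2.smul_const db)).add (k3.smul_const dt)
    simp only [zero_smul, add_zero] at this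
    refine this.congr' ?_
    filter_upwards [self_mem_nhdsWithin] with q hq
    rw [(hev q hq).fderiv_eq]
    have b1 : HasFDerivAt (fun q : ℝ × ℝ × ℝ => q.2.2) dt q := dt.hasFDerivAt
    have b2 : HasFDerivAt (fun q : ℝ × ℝ × ℝ => q.2.1) db q := db.hasFDerivAt
    have b3 : HasFDerivAt (fun q : ℝ × ℝ × ℝ => q.1) da q := da.hasFDerivAt
    have b4 := (hasDerivAt_tan (hcos q hq)).comp_hasFDerivAt q b1
    have b5 := (((b3.exp.mul b4.sinh).add b2).arsinh.arctan).sub b1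
    symm
    refine HasFDerivAt.fderiv ?_
    refine b5.congr_fderiv ?_
    have b6 : 1 / cos q.2.2 ^ 2 = 1 + tan q.2.2 ^ 2 := by
      rw [one_div, ← inv_one_add_tan_sq (hcos q hq), inv_inv]
    rw [b6]
    refine ContinuousLinearMap.ext fun v => ?_
    simp only [bet, add_apply, sub_apply,
      smul_apply, smul_eq_mul, Pi.add_apply, Pi.mul_apply, Function.comp_apply]
    ring

/-- The model family of vertical displacements. -/
structure Model (F : Type*) [NormedAddCommGroup F] [NormedSpace ℝ F] where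
  D : Set (F × ℝ)
  η : ℝ × ℝ → F × ℝ → ℝ
  sz : ℝ × ℝ → ℝ
  cpt : IsCompact D
  zero_mem : 0 ∈ D
  cd : ∀ q, ContDiff ℝ 1 (η q)
  out : ∀ q, ∀ y ∉ D, η q y = 0
  bd : ∀ q y, ‖fderiv ℝ (η q) y‖ ≤ sz q
  lim : Tendsto sz (𝓝 0) (𝓝 0)
  maps : ∀ q, ∀ y ∈ D, y + η q y • ((0, 1) : F × ℝ) ∈ D
  zero : ∀ y, η 0 y = 0
  ne : ∀ b ≠ 0, η (0, b) 0 ≠ 0
  comm : ∀ a b y, (y + η (0, b) y • ((0, 1) : F × ℝ)) +
      η (a, 0) (y + η (0, b) y • ((0, 1) : F × ℝ)) • ((0, 1) : F × ℝ) =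
    (y + η (a, 0) y • ((0, 1) : F × ℝ)) +
      η (0, exp a * b) (y + η (a, 0) y • ((0, 1) : F × ℝ)) • ((0, 1) : F × ℝ)

lemma exists_model (F : Type*) [NormedAddCommGroup F] [NormedSpace ℝ F] [FiniteDimensional ℝ F] :
    Nonempty (Model F) := by
  have : ProperSpace F := FiniteDimensional.proper ℝ F
  let β : ContDiffBump (0 : F) := ⟨1, 2, one_pos, by norm_num⟩
  let γ : ContDiffBump (0 : F) := ⟨2, 3, two_pos, by norm_num⟩
  have hβ : ContDiff ℝ 1 β := β.contDiff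
  have hγ : ContDiff ℝ 1 γ := γ.contDiff
  set D : Set (F × ℝ) := closedBall (0 : F) 3 ×ˢ Icc (-(π / 2)) (π / 2) with hD
  set η : ℝ × ℝ → F × ℝ → ℝ := fun q y => alp (q.1 * γ y.1) (q.2 * β y.1) y.2 - y.2 with hη
  have hDc : IsCompact D := (isCompact_closedBall _ _).prod isCompact_Icc
  have hΦ : ContDiff ℝ 1 fun p : (ℝ × ℝ) × (F × ℝ) => η p.1 p.2 :=
    contDiff_alp.comp (f := fun p : (ℝ × ℝ) × (F × ℝ) =>
      (p.1.1 * γ p.2.1, p.1.2 * β p.2.1, p.2.2))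
      (((contDiff_fst.comp contDiff_fst).mul (hγ.comp (contDiff_fst.comp contDiff_snd))).prodMk
        (((contDiff_snd.comp contDiff_fst).mul (hβ.comp (contDiff_fst.comp contDiff_snd))).prodMk
          (contDiff_snd.comp contDiff_snd)))
  have hcd : ∀ q, ContDiff ℝ 1 (η q) := fun q =>
    hΦ.comp (f := fun y : F × ℝ => (q, y)) (contDiff_const.prodMk contDiff_id)
  have hout : ∀ q, ∀ y ∉ D, η q y = 0 := by
    intro q y hy
    simp only [hD, mem_prod, not_and_or] at hy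
    rcases hy with hy | hy
    · rw [mem_closedBall, not_le] at hy
      have h1 : γ y.1 = 0 := γ.zero_of_le_dist hy.le
      have h2 : β y.1 = 0 := β.zero_of_le_dist (show (2 : ℝ) ≤ _ by linarith)
      simp only [hη, h1, h2, mul_zero, alp_zero, sub_self]
    · simp only [hη]
      rw [alp_of_notMem fun h => hy (Ioo_subset_Icc_self h), sub_self]
  have hout' : ∀ q, ∀ y ∉ D, fderiv ℝ (η q) y = 0 := by
    intro q y hy
    have : η q =ᶠ[𝓝 y] fun _ => 0 := by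
      filter_upwards [hDc.isClosed.isOpen_compl.mem_nhds hy] with z hz using hout q z hz
    rw [this.fderiv_eq]; simp
  have hzero : ∀ y, η 0 y = 0 := fun y => by simp [hη, alp_zero]
  have hfd : ∀ q y, fderiv ℝ (η q) y = (fderiv ℝ (fun p : (ℝ × ℝ) × (F × ℝ) => η p.1 p.2)
      (q, y)).comp (ContinuousLinearMap.inr ℝ _ _) := fun q y =>
    ((hΦ.differentiable one_ne_zero (q, y)).hasFDerivAt.comp y
      (hasFDerivAt_prodMk_right q y)).fderiv
  have hcont : Continuous fun p : (ℝ × ℝ) × (F × ℝ) => fderiv ℝ (η p.1) p.2 := by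
    simp only [hfd]
    exact (hΦ.continuous_fderiv one_ne_zero).clm_comp continuous_const
  have hbdd : ∀ q, BddAbove (range fun y => ‖fderiv ℝ (η q) y‖) := by
    intro q
    have h1 : HasCompactSupport (fderiv ℝ (η q)) :=
      HasCompactSupport.intro hDc (hout' q)
    obtain ⟨C, hC⟩ := h1.exists_bound_of_continuous ((hcd q).continuous_fderiv one_ne_zero)
    exact ⟨C, by rintro _ ⟨y, rfl⟩; exact hC y⟩
  have hH : ∀ q y, y + η q y • ((0, 1) : F × ℝ) = (y.1, alp (q.1 * γ y.1) (q.2 * β y.1) y.2) := by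
    intro q y
    ext <;> simp [hη]
  refine ⟨⟨D, η, fun q => ⨆ y, ‖fderiv ℝ (η q) y‖, hDc, ?_, hcd, hout,
    fun q y => le_ciSup (hbdd q) y, ?_, ?_, hzero, ?_, ?_⟩⟩
  · refine ⟨by simp, ?_⟩
    simp only [Prod.snd_zero, mem_Icc]
    constructor <;> linarith [pi_pos]
  · rw [Metric.tendsto_nhds]
    intro ε hε
    have h1 : ∀ᶠ q : ℝ × ℝ in 𝓝 0, ∀ y ∈ D, ‖fderiv ℝ (η q) y‖ < ε / 2 := by
      refine hDc.eventually_forall_of_forall_eventually fun y _ => ?_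
      have h2 : η 0 = fun _ => 0 := funext hzero
      refine (hcont.norm.tendsto (0, y)).eventually (gt_mem_nhds ?_)
      simp only [h2, fderiv_fun_const, Pi.zero_apply, norm_zero]
      linarith
    filter_upwards [h1] with q hq
    rw [Real.dist_eq, sub_zero, abs_of_nonneg (Real.iSup_nonneg fun y => norm_nonneg _)]
    refine lt_of_le_of_lt (ciSup_le fun y => ?_) (half_lt_self hε)
    by_cases hy : y ∈ D
    · exact (hq y hy).le
    · rw [hout' q y hy, norm_zero]; linarith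
  · intro q y hy
    rw [hH]
    refine ⟨hy.1, ?_⟩
    by_cases ht : y.2 ∈ Ioo (-(π / 2)) (π / 2)
    · exact Ioo_subset_Icc_self (alp_mem ht)
    · simp only [alp_of_notMem ht]; exact hy.2
  · intro b hb
    have h1 : β 0 = 1 := β.one_of_mem_closedBall (by simp [β])
    simp only [hη, Prod.fst_zero, Prod.snd_zero, zero_mul, h1, mul_one, sub_zero]
    exact alp_ne hb
  · intro a b y
    simp only [hH, alp_alp, zero_mul, add_zero, zero_add, mul_zero]
    congr 2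
    by_cases h : β y.1 = 0
    · simp [h]
    · have h1 : γ y.1 = 1 := by
        apply γ.one_of_mem_closedBall
        by_contra h'
        rw [mem_closedBall, not_le] at h'
        exact h (β.zero_of_le_dist h'.le)
      rw [h1]; ring_nf

end Pool.Agent.Lib.MP_95f3db_an
end

-- part Pool.Agent.Lib.MP_95f3db_an.Linear
section

/-!
# Linear algebra near a dominated diagonal map
-/

namespace Pool.Agent.Lib.MP_95f3db_an

open scoped Topology
open Set Filter Metric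

section normed

variable {F : Type*} [NormedAddCommGroup F] [NormedSpace ℝ F]

/-- The diagonal map. -/
noncomputable def Lam (F : Type*) [NormedAddCommGroup F] [NormedSpace ℝ F] (l m : ℝ) :
    F × ℝ →L[ℝ] F × ℝ :=
  (l • ContinuousLinearMap.id ℝ F).prodMap (m • ContinuousLinearMap.id ℝ ℝ)

@[simp] lemma Lam_apply (l m : ℝ) (y : F × ℝ) : Lam F l m y = (l • y.1, m * y.2) := rfl

lemma norm_Lam_le {l m : ℝ} (hm : 0 ≤ m) (hml : m ≤ l) : ‖Lam F l m‖ ≤ l := by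
  refine ContinuousLinearMap.opNorm_le_bound _ (by linarith) fun y => ?_
  rw [Lam_apply, Prod.norm_mk, norm_smul, norm_mul, Real.norm_of_nonneg hm,
    Real.norm_of_nonneg (by linarith : 0 ≤ l)]
  refine max_le ?_ ?_
  · exact mul_le_mul_of_nonneg_left (norm_fst_le y) (by linarith)
  · exact mul_le_mul hml (norm_snd_le y) (norm_nonneg _) (by linarith)

/-- The vertical cone. -/
def Cone (κ : ℝ) (u : F × ℝ) : Prop := ‖u.1‖ ≤ κ * |u.2|

/-- Admissible constants. -/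
structure Cst (l m κ η : ℝ) : Prop where
  κ_pos : 0 < κ
  κ_le : κ ≤ 1
  η_nonneg : 0 ≤ η
  η_lt : η < m
  gap : 4 * η ≤ κ * (l - m)
  lt_one : l + η < 1

lemma near_fst {l m η : ℝ} {B : F × ℝ →L[ℝ] F × ℝ} (hB : ‖B - Lam F l m‖ ≤ η) (u : F × ℝ) :
    ‖(B u).1 - l • u.1‖ ≤ η * ‖u‖ := by
  have h := (B - Lam F l m).le_of_opNorm_le hB u
  exact (norm_fst_le ((B - Lam F l m) u)).trans h

lemma near_snd {l m η : ℝ} {B : F × ℝ →L[ℝ] F × ℝ} (hB : ‖B - Lam F l m‖ ≤ η) (u : F × ℝ) :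
    |(B u).2 - m * u.2| ≤ η * ‖u‖ := by
  have h := (B - Lam F l m).le_of_opNorm_le hB u
  exact (norm_snd_le ((B - Lam F l m) u)).trans h

lemma Cst.lt {l m κ η : ℝ} (c : Cst l m κ η) : m ≤ l := by
  have h1 := c.gap
  have h2 := c.η_nonneg
  have h3 := c.κ_pos
  by_contra h
  nlinarith

lemma cone_back {l m κ η : ℝ} (c : Cst l m κ η) {B : F × ℝ →L[ℝ] F × ℝ}
    (hB : ‖B - Lam F l m‖ ≤ η) {u : F × ℝ} (h : Cone κ (B u)) : Cone κ u := by
  unfold Cone at h ⊢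
  by_contra hu
  push Not at hu
  have h1 := near_fst hB u
  have h2 := near_snd hB u
  have hκ := c.κ_pos
  have hκ1 := c.κ_le
  have hη := c.η_nonneg
  have hm : 0 < m := hη.trans_lt c.η_lt
  have hl := c.lt
  have hu1 : 0 < ‖u.1‖ := lt_of_le_of_lt (by positivity) hu
  have h3 : κ * ‖u‖ ≤ ‖u.1‖ := by
    rw [Prod.norm_def, mul_max_of_nonneg _ _ hκ.le]
    exact max_le (by nlinarith) hu.le
  have h4 : l * ‖u.1‖ ≤ ‖(B u).1‖ + η * ‖u‖ := by
    have := norm_sub_norm_le (l • u.1) (B u).1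
    rw [norm_smul, Real.norm_of_nonneg (by linarith), norm_sub_rev] at this
    linarith
  have h5 : |(B u).2| ≤ m * |u.2| + η * ‖u‖ := by
    have := abs_sub_abs_le_abs_sub (B u).2 (m * u.2)
    rw [abs_mul, abs_of_pos hm] at this
    linarith
  have h6 := c.gap
  have h7 : κ * (l * ‖u.1‖) ≤ κ * (κ * (m * |u.2| + η * ‖u‖) + η * ‖u‖) := by
    gcongr
    calc _ ≤ _ := h4
      _ ≤ κ * |(B u).2| + η * ‖u‖ := by gcongr
      _ ≤ _ := by gcongr
  have h8 : κ * (κ * (m * |u.2|)) < κ * (m * ‖u.1‖) := by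
    refine mul_lt_mul_of_pos_left ?_ hκ
    nlinarith
  have h9 : κ * (κ * (η * ‖u‖)) ≤ η * ‖u.1‖ := by
    have : κ * (κ * (η * ‖u‖)) = κ * η * (κ * ‖u‖) := by ring
    rw [this]
    calc _ ≤ 1 * η * ‖u.1‖ := by gcongr
      _ = _ := by ring
  have h10 : κ * (η * ‖u‖) ≤ η * ‖u.1‖ := by
    have : κ * (η * ‖u‖) = η * (κ * ‖u‖) := by ring
    rw [this]; gcongr
  nlinarith

omit [NormedSpace ℝ F] in
lemma Cone.snd_ne {κ : ℝ} {u : F × ℝ} (h : Cone κ u) (hu : u ≠ 0) : u.2 ≠ 0 := by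
  intro h2
  unfold Cone at h
  rw [h2, abs_zero, mul_zero, norm_le_zero_iff] at h
  exact hu (Prod.ext h h2)

lemma Cone.norm_div {κ : ℝ} {u : F × ℝ} (h : Cone κ u) (hu : u ≠ 0) : ‖u.2⁻¹ • u.1‖ ≤ κ := by
  have h2 := abs_pos.mpr (h.snd_ne hu)
  rw [norm_smul, norm_inv, Real.norm_eq_abs, inv_mul_le_iff₀ h2, mul_comm]
  exact h

lemma Cone.eq_smul {κ : ℝ} {u : F × ℝ} (h : Cone κ u) (hu : u ≠ 0) :
    u = u.2 • (u.2⁻¹ • u.1, (1 : ℝ)) := by
  have h2 := h.snd_ne hu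
  ext
  · simp [smul_smul, h2]
  · simp

/-- `v` is a direction of strongest contraction of `A`, up to a bounded factor. -/
def Strong {P : Type*} [NormedAddCommGroup P] [NormedSpace ℝ P] (A : P ≃L[ℝ] P) (v : P) : Prop :=
  ∃ C : ℝ, ∀ (n : ℕ) (y : P), ‖A^[n] v‖ * ‖y‖ ≤ C * ‖A^[n] y‖

/-- The shear used to make the tangency robust. -/
noncomputable def shear (k : ℝ) (ξ : F) : F × ℝ →L[ℝ] F × ℝ :=
  (ContinuousLinearMap.snd ℝ F ℝ).smulRight (k • ξ, 0)

@[simp] lemma shear_apply (k : ℝ) (ξ : F) (y : F × ℝ) : shear k ξ y = ((y.2 * k) • ξ, 0) := by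
  simp [shear, smul_smul]

/-- The tangency property of a family of linear maps. -/
def TP (T : F → F × ℝ →L[ℝ] F × ℝ) (ρ κ : ℝ) : Prop :=
  ∀ w v : F → F × ℝ, ContinuousOn w (closedBall 0 ρ) → ContinuousOn v (closedBall 0 ρ) →
    (∀ ξ ∈ closedBall (0 : F) ρ, w ξ ≠ 0 ∧ Cone κ (w ξ)) →
    (∀ ξ ∈ closedBall (0 : F) ρ, v ξ ≠ 0 ∧ Cone κ (v ξ)) →
    ∃ ξ ∈ closedBall (0 : F) ρ, ∃ s : ℝ, T ξ (w ξ) = s • v ξ

end normed

variable {F : Type*} [NormedAddCommGroup F] [InnerProductSpace ℝ F] [FiniteDimensional ℝ F]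

lemma exists_strong {l m κ η : ℝ} (c : Cst l m κ η) (A : (F × ℝ) ≃L[ℝ] (F × ℝ))
    (hA : ‖(A : F × ℝ →L[ℝ] F × ℝ) - Lam F l m‖ ≤ η) :
    ∃ v : F × ℝ, v ≠ 0 ∧ Cone κ v ∧ Strong A v := by
  have hκ := c.κ_pos
  have hκ1 := c.κ_le
  have hη := c.η_nonneg
  have hm : 0 < m := hη.trans_lt c.η_lt
  have hl := c.lt
  have hu : ∀ σ ∈ closedBall (0 : F) κ, A.symm (σ, 1) ≠ 0 ∧ Cone κ (A.symm (σ, 1)) := by
    intro σ hσ
    refine ⟨by simp, cone_back c hA ?_⟩
    simpa [Cone] using hσ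
  obtain ⟨σ, hσ, hfix⟩ := Pool.Agent.Shared.Brouwer.brouwer hκ
    (fun σ : F => (A.symm (σ, 1)).2⁻¹ • (A.symm (σ, 1)).1)
    (ContinuousOn.smul (ContinuousOn.inv₀ (by fun_prop) fun σ hσ => (hu σ hσ).2.snd_ne (hu σ hσ).1)
      (by fun_prop))
    (fun σ hσ => mem_closedBall_zero_iff.mpr ((hu σ hσ).2.norm_div (hu σ hσ).1))
  have h1 := (hu σ hσ).2.eq_smul (hu σ hσ).1
  have h2 := (hu σ hσ).2.snd_ne (hu σ hσ).1
  rw [hfix] at h1
  set t := (A.symm (σ, 1)).2 with ht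
  have h3 : A (σ, 1) = t⁻¹ • (σ, 1) := by
    have := congrArg A h1
    rw [A.apply_symm_apply, map_smul] at this
    rw [eq_inv_smul_iff₀ h2]
    exact this.symm
  rw [mem_closedBall_zero_iff] at hσ
  have hn1 : ‖((σ, 1) : F × ℝ)‖ = 1 := by
    rw [Prod.norm_mk, norm_one]; exact max_eq_right (hσ.trans hκ1)
  have h4 := near_snd hA (σ, 1)
  rw [ContinuousLinearEquiv.coe_coe, h3, hn1] at h4
  simp only [Prod.smul_snd, smul_eq_mul, mul_one] at h4
  set μ := t⁻¹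
  have hμ1 : 0 < μ := by linarith [(abs_le.mp h4).1, c.η_lt]
  have hμ2 : μ ≤ m + η := by linarith [(abs_le.mp h4).2]
  set N : F × ℝ → ℝ := fun y => ‖y.1 - y.2 • σ‖ + |y.2| with hN
  have hN1 : ∀ y, ‖y‖ ≤ N y := by
    intro y
    rw [Prod.norm_def]
    refine max_le ?_ (le_add_of_nonneg_left (norm_nonneg _))
    have a1 := norm_add_le (y.1 - y.2 • σ) (y.2 • σ)
    rw [sub_add_cancel, norm_smul, Real.norm_eq_abs] at a1
    have a2 : |y.2| * ‖σ‖ ≤ |y.2| := mul_le_of_le_one_right (abs_nonneg _) (hσ.trans hκ1)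
    simp only [hN]; linarith
  have hN2 : ∀ y, N y ≤ 3 * ‖y‖ := by
    intro y
    have a1 := norm_sub_le y.1 (y.2 • σ)
    rw [norm_smul, Real.norm_eq_abs] at a1
    have a2 : |y.2| * ‖σ‖ ≤ |y.2| := mul_le_of_le_one_right (abs_nonneg _) (hσ.trans hκ1)
    have a3 := norm_fst_le y
    have a4 : |y.2| ≤ ‖y‖ := norm_snd_le y
    simp only [hN]; linarith
  have hN3 : ∀ y, μ * N y ≤ N (A y) := by
    intro y
    set x := y.1 - y.2 • σ with hx
    have e1 : y = y.2 • (σ, (1 : ℝ)) + (x, 0) := by ext <;> simp [hx]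
    have e2 : A y = (y.2 * μ) • (σ, (1 : ℝ)) + A (x, 0) := by
      conv_lhs => rw [e1]
      rw [map_add, map_smul, h3, smul_smul]
    have a1 := near_fst hA (x, 0)
    have a2 := near_snd hA (x, 0)
    have hx0 : ‖((x, 0) : F × ℝ)‖ = ‖x‖ := by simp
    rw [hx0, ContinuousLinearEquiv.coe_coe] at a1 a2
    simp only [mul_zero, sub_zero] at a1 a2
    set r := A (x, 0)
    have e3 : (A y).2 = y.2 * μ + r.2 := by rw [e2]; simp
    have e4 : (A y).1 - (A y).2 • σ = r.1 - r.2 • σ := by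
      rw [e3, e2]; simp [add_smul]
    simp only [hN]
    rw [e4, e3]
    have a3 : l * ‖x‖ ≤ ‖r.1‖ + η * ‖x‖ := by
      have := norm_sub_norm_le (l • x) r.1
      rw [norm_smul, Real.norm_of_nonneg (by linarith), norm_sub_rev (l • x)] at this
      linarith
    have a4 : ‖r.1‖ ≤ ‖r.1 - r.2 • σ‖ + |r.2| := by
      have b1 := norm_add_le (r.1 - r.2 • σ) (r.2 • σ)
      rw [sub_add_cancel, norm_smul, Real.norm_eq_abs] at b1
      have b2 : |r.2| * ‖σ‖ ≤ |r.2| := mul_le_of_le_one_right (abs_nonneg _) (hσ.trans hκ1)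
      linarith
    have a5 : μ * |y.2| ≤ |y.2 * μ + r.2| + |r.2| := by
      have := abs_sub (y.2 * μ + r.2) r.2
      rw [add_sub_cancel_right, abs_mul, abs_of_pos hμ1] at this
      linarith
    have a6 : 4 * η ≤ l - m := by nlinarith [c.gap]
    have a7 : μ * ‖x‖ ≤ (l - 3 * η) * ‖x‖ := by gcongr; linarith
    nlinarith
  refine ⟨(σ, 1), by simp, by simpa [Cone] using hσ, 3, fun n y => ?_⟩
  have b1 : A^[n] (σ, 1) = μ ^ n • (σ, 1) := by
    induction n with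
    | zero => simp
    | succ n ih => rw [Function.iterate_succ_apply', ih, map_smul, h3, smul_smul, pow_succ]
  have b2 : μ ^ n * N y ≤ N (A^[n] y) := by
    clear b1
    induction n with
    | zero => simp
    | succ n ih =>
      rw [Function.iterate_succ_apply']
      refine le_trans ?_ (hN3 _)
      rw [pow_succ', mul_assoc]
      gcongr
  rw [b1, norm_smul, hn1, mul_one, Real.norm_of_nonneg (by positivity)]
  calc μ ^ n * ‖y‖ ≤ μ ^ n * N y := by gcongr; exact hN1 y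
    _ ≤ _ := b2
    _ ≤ _ := hN2 _

lemma tangency (M₀ : (F × ℝ) ≃L[ℝ] (F × ℝ)) {c : ℝ} (hc : M₀ (0, 1) = c • (0, 1)) {k : ℝ}
    (hk : 0 < k) (hk1 : k ≤ 1) : ∃ θ κ₁ : ℝ, 0 < θ ∧ 0 < κ₁ ∧ ∀ κ ρ : ℝ, κ ≤ κ₁ → 0 < ρ →
      ∀ T : F → F × ℝ →L[ℝ] F × ℝ, ContinuousOn T (closedBall 0 ρ) →
      (∀ ξ ∈ closedBall (0 : F) ρ, ‖T ξ - (M₀ : F × ℝ →L[ℝ] F × ℝ).comp
        (ContinuousLinearMap.id ℝ _ + shear (k / ρ) ξ)‖ ≤ θ) → TP T ρ κ := by
  set m := ‖(M₀.symm : F × ℝ →L[ℝ] F × ℝ)‖ with hm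
  have hm0 : 0 ≤ m := ContinuousLinearMap.opNorm_nonneg _
  have hc0 : c ≠ 0 := by
    rintro rfl
    simp at hc
  refine ⟨k / (4 * (m + 1)), min (k / 4) (k / (16 * (|c| * m + 1))), by positivity, by positivity,
    fun κ ρ hκ hρ T hT hb w v hw hv hw' hv' => ?_⟩
  have hκ1 : κ ≤ k / 4 := hκ.trans (min_le_left _ _)
  have hκ2 : κ ≤ k / (16 * (|c| * m + 1)) := hκ.trans (min_le_right _ _)
  set σ₁ : F → F := fun ξ => (w ξ).2⁻¹ • (w ξ).1 with hσ₁
  set σ₂ : F → F := fun ξ => (v ξ).2⁻¹ • (v ξ).1 with hσ₂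
  have hσ₁c : ContinuousOn σ₁ (closedBall 0 ρ) :=
    ((continuous_snd.comp_continuousOn hw).inv₀ fun ξ h => (hw' ξ h).2.snd_ne (hw' ξ h).1).smul
      (continuous_fst.comp_continuousOn hw)
  have hσ₂c : ContinuousOn σ₂ (closedBall 0 ρ) :=
    ((continuous_snd.comp_continuousOn hv).inv₀ fun ξ h => (hv' ξ h).2.snd_ne (hv' ξ h).1).smul
      (continuous_fst.comp_continuousOn hv)
  set U : F → F × ℝ := fun ξ => M₀.symm (T ξ (σ₁ ξ, 1)) with hU
  set V : F → F × ℝ := fun ξ => c • M₀.symm (σ₂ ξ, 1) with hV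
  have hUc : ContinuousOn U (closedBall 0 ρ) :=
    M₀.symm.continuous.comp_continuousOn (hT.clm_apply (hσ₁c.prodMk continuousOn_const))
  have hVc : ContinuousOn V (closedBall 0 ρ) :=
    (M₀.symm.continuous.comp_continuousOn (hσ₂c.prodMk continuousOn_const)).const_smul c
  have hUb : ∀ ξ ∈ closedBall (0 : F) ρ, ‖U ξ - (σ₁ ξ + (k / ρ) • ξ, 1)‖ ≤ k / 4 := by
    intro ξ hξ
    have a1 := (hw' ξ hξ).2.norm_div (hw' ξ hξ).1
    have a2 : ‖((σ₁ ξ, 1) : F × ℝ)‖ ≤ 1 := by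
      rw [Prod.norm_mk, norm_one]; exact max_le (by linarith) le_rfl
    have a3 := (ContinuousLinearMap.le_of_opNorm_le _ (hb ξ hξ) (σ₁ ξ, 1))
    have e : U ξ - (σ₁ ξ + (k / ρ) • ξ, 1) = M₀.symm ((T ξ - (M₀ : F × ℝ →L[ℝ] F × ℝ).comp
        (ContinuousLinearMap.id ℝ (F × ℝ) + shear (k / ρ) ξ) : F × ℝ →L[ℝ] F × ℝ) (σ₁ ξ, 1)) := by
      simp [hU]
    rw [e]
    calc _ ≤ m * _ := (M₀.symm : F × ℝ →L[ℝ] F × ℝ).le_opNorm _
      _ ≤ (m + 1) * (k / (4 * (m + 1)) * 1) := by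
          gcongr
          · linarith
          · exact a3.trans (by gcongr)
      _ = _ := by field_simp
  have hVb : ∀ ξ ∈ closedBall (0 : F) ρ, ‖V ξ - (0, 1)‖ ≤ k / 16 := by
    intro ξ hξ
    have a1 := (hv' ξ hξ).2.norm_div (hv' ξ hξ).1
    have e0 : c • M₀.symm (0, 1) = (0, 1) := by
      rw [← map_smul, ← hc, M₀.symm_apply_apply]
    have e : V ξ - (0, 1) = c • M₀.symm (σ₂ ξ, 0) := by
      simp only [hV]
      rw [← e0, ← smul_sub, ← map_sub]
      simp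
    rw [e, norm_smul, Real.norm_eq_abs]
    have a2 : ‖M₀.symm (σ₂ ξ, 0)‖ ≤ m * κ := by
      refine ((M₀.symm : F × ℝ →L[ℝ] F × ℝ).le_opNorm _).trans ?_
      gcongr
      simpa using a1
    have a3 : 0 ≤ κ := (norm_nonneg _).trans a1
    calc _ ≤ |c| * (m * κ) := by gcongr
      _ ≤ (|c| * m + 1) * κ := by nlinarith
      _ ≤ (|c| * m + 1) * (k / (16 * (|c| * m + 1))) := by gcongr
      _ = _ := by field_simp
  set Φ : F → F := fun ξ => (V ξ).2 • (U ξ).1 - (U ξ).2 • (V ξ).1 with hΦ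
  obtain ⟨ξ, hξ, hfix⟩ := Pool.Agent.Shared.Brouwer.brouwer hρ (fun ξ => ξ - (ρ / k) • Φ ξ)
    (continuousOn_id.sub (ContinuousOn.const_smul
      (((continuous_snd.comp_continuousOn hVc).smul (continuous_fst.comp_continuousOn hUc)).sub
        ((continuous_snd.comp_continuousOn hUc).smul (continuous_fst.comp_continuousOn hVc))) _))
    (by
      intro ξ hξ
      have a1 := (hw' ξ hξ).2.norm_div (hw' ξ hξ).1
      have a2 := hUb ξ hξ
      have a3 := hVb ξ hξ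
      have b1 : ‖(U ξ).1 - (σ₁ ξ + (k / ρ) • ξ)‖ ≤ k / 4 := (norm_fst_le _).trans a2
      have b2 : |(U ξ).2 - 1| ≤ k / 4 := (norm_snd_le (U ξ - (σ₁ ξ + (k / ρ) • ξ, 1))).trans a2
      have b3 : ‖(V ξ).1 - 0‖ ≤ k / 16 := (norm_fst_le _).trans a3
      have b4 : |(V ξ).2 - 1| ≤ k / 16 := (norm_snd_le (V ξ - (0, 1))).trans a3
      rw [sub_zero] at b3
      rw [mem_closedBall_zero_iff] at hξ ⊢
      have b5 : ‖(k / ρ) • ξ‖ ≤ k := by
        rw [norm_smul, Real.norm_of_nonneg (by positivity), div_mul_eq_mul_div, div_le_iff₀ hρ]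
        gcongr
      have b6 : ‖(U ξ).1 - (k / ρ) • ξ‖ ≤ k / 2 := by
        have := norm_add_le ((U ξ).1 - (σ₁ ξ + (k / ρ) • ξ)) (σ₁ ξ)
        rw [show (U ξ).1 - (σ₁ ξ + (k / ρ) • ξ) + σ₁ ξ = (U ξ).1 - (k / ρ) • ξ by abel] at this
        linarith
      have b7 : ‖(U ξ).1‖ ≤ 3 / 2 := by
        have := norm_add_le ((U ξ).1 - (k / ρ) • ξ) ((k / ρ) • ξ)
        rw [sub_add_cancel] at this
        linarith
      have b8 : |(U ξ).2| ≤ 5 / 4 := by
        have := abs_add_le ((U ξ).2 - 1) 1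
        rw [sub_add_cancel, abs_one] at this
        linarith
      have e : ξ - (ρ / k) • Φ ξ = -(ρ / k) • (((U ξ).1 - (k / ρ) • ξ) +
          ((V ξ).2 - 1) • (U ξ).1 - (U ξ).2 • (V ξ).1) := by
        have : (ρ / k) * (k / ρ) = 1 := by field_simp
        simp only [hΦ]
        have h' : ξ = (ρ / k) • (k / ρ) • ξ := by rw [smul_smul, this, one_smul]
        conv_lhs => rw [h']
        rw [← h']
        conv_lhs => arg 1; rw [h']
        module
      show ‖ξ - (ρ / k) • Φ ξ‖ ≤ ρ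
      rw [e, norm_smul, norm_neg, Real.norm_of_nonneg (by positivity)]
      have b9 : ‖((U ξ).1 - (k / ρ) • ξ) + ((V ξ).2 - 1) • (U ξ).1 - (U ξ).2 • (V ξ).1‖ ≤ k := by
        refine (norm_sub_le _ _).trans ?_
        have c1 := norm_add_le ((U ξ).1 - (k / ρ) • ξ) (((V ξ).2 - 1) • (U ξ).1)
        rw [norm_smul, Real.norm_eq_abs] at c1 ⊢
        have c2 : |(V ξ).2 - 1| * ‖(U ξ).1‖ ≤ k / 16 * (3 / 2) := by gcongr
        have c3 : |(U ξ).2| * ‖(V ξ).1‖ ≤ 5 / 4 * (k / 16) := by gcongr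
        linarith
      calc _ ≤ ρ / k * k := by gcongr
        _ = _ := by field_simp)
  have hΦ0 : Φ ξ = 0 := by
    have : (ρ / k) • Φ ξ = 0 := sub_eq_self.mp hfix
    exact (smul_eq_zero.mp this).resolve_left (by positivity)
  have b4 : |(V ξ).2 - 1| ≤ k / 16 := (norm_snd_le (V ξ - (0, 1))).trans (hVb ξ hξ)
  have hV2 : (V ξ).2 ≠ 0 := by
    intro h
    rw [h] at b4
    norm_num at b4
    linarith
  have e1 : U ξ = ((U ξ).2 / (V ξ).2) • V ξ := by
    have : (V ξ).2 • (U ξ).1 = (U ξ).2 • (V ξ).1 := sub_eq_zero.mp hΦ0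
    ext
    · rw [Prod.smul_fst, div_eq_inv_mul, ← smul_smul, ← this, smul_smul, inv_mul_cancel₀ hV2,
        one_smul]
    · simp [hV2]
  have e2 : T ξ (σ₁ ξ, 1) = ((U ξ).2 / (V ξ).2 * c) • (σ₂ ξ, 1) := by
    apply M₀.symm.injective
    rw [map_smul, ← smul_smul]
    exact e1
  refine ⟨ξ, hξ, (w ξ).2 * ((U ξ).2 / (V ξ).2 * c) * (v ξ).2⁻¹, ?_⟩
  have e3 := (hw' ξ hξ).2.eq_smul (hw' ξ hξ).1
  have e4 := (hv' ξ hξ).2.eq_smul (hv' ξ hξ).1
  have e5 := (hv' ξ hξ).2.snd_ne (hv' ξ hξ).1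
  have e6 : (v ξ).2⁻¹ • v ξ = (σ₂ ξ, 1) := by
    rw [inv_smul_eq_iff₀ e5]; exact e4
  rw [← smul_smul, e6, ← smul_smul, ← e2, ← map_smul]
  exact congrArg _ e3

end Pool.Agent.Lib.MP_95f3db_an
end
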