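import Pool.Agent.Lib.MP_95f3db_an.Contr
import Pool.Agent.Lib.MP_95f3db_an.Linear

-- part Pool.Agent.Lib.MP_95f3db_an.Core
section

/-!
# Creating a nontrivial centralizer along a wandering orbit of boxes
-/

namespace Pool.Agent.Lib.MP_95f3db_an

open scoped Manifold ContDiff Topology
open Set Filter Metric Function

variable {E : Type*} [NormedAddCommGroup E] [NormedSpace ℝ E] {M : Type*} [TopologicalSpace M]
  [ChartedSpace E M] {F : Type*} [NormedAddCommGroup F] [NormedSpace ℝ F]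

/-- The model vertical map. -/
def Model.H (𝓜 : Model F) (q : ℝ × ℝ) (y : F × ℝ) : F × ℝ := y + 𝓜.η q y • ((0, 1) : F × ℝ)

lemma Model.H_zero (𝓜 : Model F) (y : F × ℝ) : 𝓜.H 0 y = y := by simp [Model.H, 𝓜.zero]

lemma Model.H_mem (𝓜 : Model F) (q : ℝ × ℝ) (y : F × ℝ) (hy : y ∈ 𝓜.D) : 𝓜.H q y ∈ 𝓜.D :=
  𝓜.maps q y hy

lemma Model.sz_zero (𝓜 : Model F) : 𝓜.sz 0 = 0 :=
  tendsto_nhds_unique (tendsto_pure_nhds 𝓜.sz 0) (𝓜.lim.mono_left (pure_le_nhds 0))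

/-- `k` acts on the `i`-th box as the model map with parameter `q i`, and trivially elsewhere. -/
structure Acts (𝓜 : Model F) (f : Diff1 E M) (ι : F × ℝ → M) (k : Diff1 E M) (q : ℤ → ℝ × ℝ) :
    Prop where
  eq : ∀ i : ℤ, ∀ y ∈ 𝓜.D, k ((f ^ i) (ι y)) = (f ^ i) (ι (𝓜.H (q i) y))
  out : ∀ x, (∀ i : ℤ, ∀ y ∈ 𝓜.D, x ≠ (f ^ i) (ι y)) → k x = x

variable {𝓜 : Model F} {f : Diff1 E M} {ι : F × ℝ → M}

lemma Acts.one : Acts 𝓜 f ι 1 0 :=
  ⟨fun i y _ => by rw [Pi.zero_apply, 𝓜.H_zero, diff_one_apply], fun _ _ => rfl⟩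

lemma Acts.mul {k k' : Diff1 E M} {q q' : ℤ → ℝ × ℝ} (h : Acts 𝓜 f ι k q) (h' : Acts 𝓜 f ι k' q')
    (h0 : ∀ i, q i = 0 ∨ q' i = 0) : Acts 𝓜 f ι (k * k') (q + q') := by
  refine ⟨fun i y hy => ?_, fun x hx => by rw [diff_mul_apply, h'.out x hx, h.out x hx]⟩
  rw [diff_mul_apply, h'.eq i y hy, h.eq i _ (𝓜.H_mem _ y hy), Pi.add_apply]
  rcases h0 i with e | e
  · rw [e, 𝓜.H_zero, zero_add]
  · rw [e, add_zero, 𝓜.H_zero]

lemma Acts.conj {k : Diff1 E M} {q : ℤ → ℝ × ℝ} (h : Acts 𝓜 f ι k q) (m : ℤ) :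
    Acts 𝓜 f ι (f ^ m * k * f ^ (-m)) fun i => q (i - m) := by
  refine ⟨fun i y hy => ?_, fun x hx => ?_⟩
  · rw [diff_mul_apply, diff_mul_apply, ← diff_mul_apply (f ^ (-m)), ← zpow_add, neg_add_eq_sub,
      h.eq _ y hy, ← diff_mul_apply, ← zpow_add, add_sub_cancel]
  · rw [diff_mul_apply, diff_mul_apply, h.out, ← diff_mul_apply, ← zpow_add, add_neg_cancel,
      zpow_zero, diff_one_apply]
    intro i y hy e
    apply hx (m + i) y hy
    rw [zpow_add, diff_mul_apply, ← e, ← diff_mul_apply, ← zpow_add, add_neg_cancel, zpow_zero,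
      diff_one_apply]

lemma Acts.commute {g Ψ : Diff1 E M} {a b : ℤ → ℝ} (hg : Acts 𝓜 f ι g fun i => (0, b i))
    (hΨ : Acts 𝓜 f ι Ψ fun i => (a i, 0)) (h : ∀ i, Real.exp (a i) * b i = b (i + 1)) :
    g ∘ (f * Ψ : Diff1 E M) = (f * Ψ : Diff1 E M) ∘ g := by
  funext x
  simp only [comp_apply, diff_mul_apply]
  by_cases hx : ∃ i : ℤ, ∃ y ∈ 𝓜.D, x = (f ^ i) (ι y)
  · obtain ⟨i, y, hy, rfl⟩ := hx
    have e : ∀ z, f ((f ^ i) z) = (f ^ (i + 1)) z := fun z => by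
      rw [add_comm, zpow_one_add, diff_mul_apply]
    rw [hΨ.eq i y hy, e, hg.eq _ _ (𝓜.H_mem _ y hy), hg.eq i y hy, hΨ.eq i _ (𝓜.H_mem _ y hy), e,
      ← h i]
    congr 2
    exact (𝓜.comm (a i) (b i) y).symm
  · push Not at hx
    rw [hΨ.out x hx, hg.out x hx, hΨ.out x hx, hg.out]
    intro i y hy e
    apply hx (-1 + i) y hy
    rw [zpow_add, diff_mul_apply, ← e, zpow_neg_one, diff_inv_apply]

lemma Acts.pow {Ψ : Diff1 E M} {q : ℤ → ℝ × ℝ} (hΨ : Acts 𝓜 f ι Ψ q) (m : ℕ) {y : F × ℝ}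
    (hy : y ∈ 𝓜.D) : ∃ y' ∈ 𝓜.D, ((f * Ψ) ^ (m : ℤ)) (ι y) = (f ^ (m : ℤ)) (ι y') := by
  induction m with
  | zero => exact ⟨y, hy, rfl⟩
  | succ m ih =>
    obtain ⟨y', hy', e⟩ := ih
    refine ⟨_, 𝓜.maps (q m) y' hy', ?_⟩
    rw [Nat.cast_succ, add_comm (m : ℤ), zpow_one_add, zpow_one_add, diff_mul_apply, e,
      diff_mul_apply, hΨ.eq _ y' hy', diff_mul_apply]
    rfl

lemma Acts.not_trivial {g Ψ : Diff1 E M} {a b : ℤ → ℝ} (hg : Acts 𝓜 f ι g fun i => (0, b i))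
    (hΨ : Acts 𝓜 f ι Ψ fun i => (a i, 0)) (h : ∀ i, Real.exp (a i) * b i = b (i + 1))
    (hb : b 0 ≠ 0) (hinj : InjOn ι 𝓜.D)
    (hw : ∀ i : ℤ, ∀ y ∈ 𝓜.D, ∀ y' ∈ 𝓜.D, (f ^ i) (ι y) = ι y' → i = 0) :
    ¬ TrivialCentralizer (f * Ψ) := by
  intro ht
  obtain ⟨m, hm⟩ := (ht g).mp (hg.commute hΨ h)
  have e1 : g (ι 0) = ((f * Ψ) ^ m) (ι 0) := by
    rw [← diff_zpow_apply, ← hm]; rfl
  have e2 := hg.eq 0 0 𝓜.zero_mem
  rw [zpow_zero, diff_one_apply, diff_one_apply, e1] at e2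
  have h0 : 𝓜.H (0, b 0) 0 ∈ 𝓜.D := 𝓜.maps _ _ 𝓜.zero_mem
  have hm0 : m = 0 := by
    obtain ⟨k, rfl | rfl⟩ := m.eq_nat_or_neg
    · obtain ⟨y', hy', e⟩ := hΨ.pow k 𝓜.zero_mem
      exact hw _ y' hy' _ h0 (e.symm.trans e2)
    · obtain ⟨y', hy', e⟩ := hΨ.pow k h0
      rw [← e2, ← diff_mul_apply, ← zpow_add, add_neg_cancel, zpow_zero, diff_one_apply] at e
      rw [hw _ y' hy' _ 𝓜.zero_mem e.symm, neg_zero]
  rw [hm0, zpow_zero, diff_one_apply] at e2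
  have e3 := congrArg Prod.snd (hinj 𝓜.zero_mem h0 e2)
  simp only [Model.H, Prod.snd_zero, zero_add, Prod.smul_snd, smul_eq_mul, mul_one] at e3
  exact 𝓜.ne _ hb e3.symm

/-- A sequence of boxes that are affine in a chart, with bounded vertical distortion. -/
structure Boxes (𝓜 : Model F) (f : Diff1 E M) (ι : F × ℝ → M)
    (φ : OpenPartialHomeomorph M (F × ℝ)) (R C : ℝ) (idx : ℕ → ℤ) : Prop where
  ex : ∀ k, ∃ (a : F × ℝ) (L : (F × ℝ) ≃L[ℝ] (F × ℝ)),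
    ‖L (0, 1)‖ * ‖(L.symm : F × ℝ →L[ℝ] F × ℝ)‖ ≤ C ∧
    ∀ y ∈ 𝓜.D, a + L y ∈ closedBall 0 R ∧ (f ^ idx k) (ι y) = φ.symm (a + L y)

lemma acts_seq [T2Space M] [FiniteDimensional ℝ F] {φ : OpenPartialHomeomorph M (F × ℝ)}
    (hφ : IsChart E φ) {R C δ : ℝ} (hR : closedBall 0 R ⊆ φ.target) {idx : ℕ → ℤ}
    (hidx : Injective idx) (hB : Boxes 𝓜 f ι φ R C idx)
    (hw : ∀ i : ℤ, ∀ y ∈ 𝓜.D, ∀ y' ∈ 𝓜.D, (f ^ i) (ι y) = ι y' → i = 0) {q : ℤ → ℝ × ℝ}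
    (hq0 : ∀ i ∉ range idx, q i = 0) (hq : Tendsto (fun k => q (idx k)) atTop (𝓝 0))
    (hδ : ∀ k, C * 𝓜.sz (q (idx k)) ≤ δ) (hδ' : δ ≤ 1 / 2) :
    ∃ u σ, Small (closedBall 0 R) δ u ∧ IsTr φ (closedBall 0 R) u σ ∧ Acts 𝓜 f ι σ q := by
  have : CompleteSpace F := FiniteDimensional.complete ℝ F
  have : ProperSpace F := FiniteDimensional.proper ℝ F
  choose a L hC hL using hB.ex
  have hw' : ∀ i j : ℤ, ∀ y ∈ 𝓜.D, ∀ y' ∈ 𝓜.D, (f ^ i) (ι y) = (f ^ j) (ι y') → i = j := by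
    intro i j y hy y' hy' e
    have := hw (-j + i) y hy y' hy' (by
      rw [zpow_add, diff_mul_apply, e, ← diff_mul_apply, ← zpow_add, neg_add_cancel, zpow_zero,
        diff_one_apply])
    omega
  obtain ⟨u, hu, hu'⟩ := Small.sum_disjoint (S := fun k => (fun y => a k + L k y) '' 𝓜.D)
    (v := fun k x => 𝓜.η (q (idx k)) ((L k).symm (x - a k)) • L k (0, 1))
    (d := fun k => C * 𝓜.sz (q (idx k))) (δ := δ)
    (fun k => (𝓜.cpt.image (by fun_prop)).isClosed)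
    (fun k k' hk => Set.disjoint_left.mpr (by
      rintro _ ⟨y, hy, rfl⟩ ⟨y', hy', e⟩
      refine hk (hidx (hw' _ _ y hy y' hy' ?_))
      rw [(hL k y hy).2, (hL k' y' hy').2]
      exact congrArg _ e.symm))
    (fun k => (small_affine (𝓜.cd _) (𝓜.bd _) (𝓜.out _) _ (a k) (L k)).mono subset_rfl
      (mul_le_mul_of_nonneg_right (hC k) ((norm_nonneg _).trans (𝓜.bd _ 0))))
    (by simpa using (𝓜.lim.comp hq).const_mul C) hδ
  have hu2 : Small (closedBall 0 R) δ u := hu.mono (by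
    rintro _ ⟨_, ⟨k, rfl⟩, y, hy, rfl⟩
    exact (hL k y hy).1) le_rfl
  obtain ⟨σ, hσ⟩ := exists_tr hφ (isCompact_closedBall _ _) hR hu2 hδ'
  have hout : ∀ x, (∀ k, ∀ y ∈ 𝓜.D, x ≠ (f ^ idx k) (ι y)) → σ x = x := by
    intro x hx
    by_cases h : x ∈ φ.symm '' closedBall 0 R
    · obtain ⟨z, hz, rfl⟩ := h
      rw [hσ.eq z (hR hz), hu.zero, add_zero]
      rintro ⟨_, ⟨k, rfl⟩, y, hy, rfl⟩
      exact hx k y hy (hL k y hy).2.symm
    · exact hσ.out x h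
  refine ⟨u, σ, hu2, hσ, fun i y hy => ?_, fun x hx => hout x fun k => hx _⟩
  by_cases hi : i ∈ range idx
  · obtain ⟨k, rfl⟩ := hi
    rw [(hL k y hy).2, hσ.eq _ (hR (hL k y hy).1), hu' k _ ⟨y, hy, rfl⟩,
      (hL k _ (𝓜.H_mem _ y hy)).2]
    simp only [Model.H, add_sub_cancel_left, ContinuousLinearEquiv.symm_apply_apply, map_add,
      map_smul, add_assoc]
  · rw [hq0 i hi, 𝓜.H_zero, hout]
    intro k y' hy' e
    exact hi ⟨k, (hw' _ _ y hy y' hy' e).symm⟩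

lemma exists_slow {ε : ℝ} (hε : 0 < ε) : ∃ c : ℕ → ℝ, c 0 = 0 ∧ (∀ k, c k ≤ 0) ∧
    Tendsto c atTop atBot ∧ (∀ k, |c (k + 1) - c k| ≤ ε) ∧
    Tendsto (fun k => c (k + 1) - c k) atTop (𝓝 0) := by
  refine ⟨fun k => -ε * Real.log (k + 1), by simp, fun k => ?_, ?_, fun k => ?_, ?_⟩
  · have := Real.log_nonneg (show (1 : ℝ) ≤ k + 1 by simp)
    nlinarith
  · refine Tendsto.const_mul_atTop_of_neg (by linarith) (Real.tendsto_log_atTop.comp ?_)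
    exact tendsto_atTop_add_const_right _ _ tendsto_natCast_atTop_atTop
  · have h1 : (0 : ℝ) < k + 1 := by positivity
    rw [← mul_sub, ← Real.log_div (by positivity) h1.ne', abs_mul, abs_neg, abs_of_pos hε]
    have h2 : (1 : ℝ) ≤ ((k + 1 : ℕ) + 1) / (k + 1) := by
      rw [one_le_div h1]; push_cast; linarith
    have h3 : (((k + 1 : ℕ) : ℝ) + 1) / (k + 1) ≤ 2 := by
      rw [div_le_iff₀ h1]; push_cast; linarith [Nat.cast_nonneg (α := ℝ) k]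
    have h4 := Real.log_le_sub_one_of_pos (one_pos.trans_le h2)
    rw [abs_of_nonneg (Real.log_nonneg h2)]
    exact mul_le_of_le_one_right hε.le (by linarith)
  · have := (Real.tendsto_log_nat_add_one_sub_log.comp (tendsto_add_atTop_nat 1)).const_mul (-ε)
    rw [mul_zero] at this
    refine this.congr fun k => ?_
    simp only [comp_apply]
    push_cast
    ring

lemma Model.exists_sz (𝓜 : Model F) (C : ℝ) {δ : ℝ} (hδ : 0 < δ) :
    ∃ ε > 0, ∀ q : ℝ × ℝ, |q.1| ≤ ε → |q.2| ≤ ε → C * 𝓜.sz q ≤ δ := by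
  have h := (𝓜.lim.const_mul C).eventually (gt_mem_nhds (show C * 0 < δ by simpa using hδ))
  obtain ⟨ε, hε, h'⟩ := Metric.nhds_basis_closedBall.eventually_iff.mp h
  refine ⟨ε, hε, fun q h1 h2 => (h' ?_).le⟩
  rw [mem_closedBall_zero_iff, Prod.norm_def]
  exact max_le h1 h2

variable [FiniteDimensional ℝ F] [IsManifold 𝓘(ℝ, E) 1 M] [FiniteDimensional ℝ E] [CompactSpace M]
  [T2Space M]

theorem core {𝓕 : Frame E M (F × ℝ)} (hf : Good 𝓕 f) {W : Set (Diff1 E M)} (hW : W ∈ 𝓝 f)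
    {n : ℕ} (hn : 1 ≤ n) {C : ℝ} (hS : Boxes 𝓜 f ι 𝓕.φS 𝓕.RS C fun k => n + k)
    (hN : Boxes 𝓜 f ι 𝓕.φN 𝓕.RN C fun k => -k)
    (hw : ∀ i : ℤ, ∀ y ∈ 𝓜.D, ∀ y' ∈ 𝓜.D, (f ^ i) (ι y) = ι y' → i = 0) :
    ∃ f' ∈ W, Good 𝓕 f' ∧ ¬ TrivialCentralizer f' := by
  classical
  have tS : closedBall 0 𝓕.RS ⊆ 𝓕.φS.target := fun y hy => (hf.S.dom hy).1
  have tN : closedBall 0 𝓕.RN ⊆ 𝓕.φN.target := fun y hy => (hf.N.dom hy).1
  have iS : Injective fun k : ℕ => (n : ℤ) + k := fun k k' h => by simpa using h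
  have iN : Injective fun k : ℕ => -(k : ℤ) := fun k k' h => by simpa using h
  have rS : ∀ i : ℤ, i ∉ range (fun k : ℕ => (n : ℤ) + k) → i < n := fun i hi => by
    by_contra h
    exact hi ⟨(i - n).toNat, by simp only; omega⟩
  have rN : ∀ i : ℤ, i ∉ range (fun k : ℕ => -(k : ℤ)) → 0 < i := fun i hi => by
    by_contra h
    exact hi ⟨(-i).toNat, by simp only; omega⟩
  -- the perturbation on the sink side
  have hint : interior W ∈ 𝓝 f := interior_mem_nhds.mpr hW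
  obtain ⟨δS, hδS, hδS', pS⟩ := hf.pert hint (Or.inl ⟨rfl, rfl⟩)
  obtain ⟨εS, hεS, szS⟩ := 𝓜.exists_sz C hδS
  obtain ⟨cS, cS0, cS1, cS2, cS3, cS4⟩ := exists_slow hεS
  obtain ⟨uS, σS, s1, s2, s3⟩ := acts_seq (δ := δS) 𝓕.cS tS iS hS hw
    (q := fun i => (cS (i + 1 - n).toNat - cS (i - n).toNat, 0))
    (fun i hi => by
      have := rS i hi
      rw [show (i + 1 - n).toNat = 0 by omega, show (i - n).toNat = 0 by omega, sub_self]; rfl)
    (by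
      refine (cS4.prodMk_nhds tendsto_const_nhds).congr fun k => ?_
      rw [show ((n : ℤ) + k + 1 - n).toNat = k + 1 by omega,
        show ((n : ℤ) + k - n).toNat = k by omega])
    (fun k => szS _ (by
      rw [show ((n : ℤ) + k + 1 - n).toNat = k + 1 by omega,
        show ((n : ℤ) + k - n).toNat = k by omega]
      exact cS3 k) (by simpa using hεS.le)) hδS'
  obtain ⟨g1, w1⟩ := pS uS σS s1 s2
  -- the perturbation on the source side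
  obtain ⟨δN, hδN, hδN', pN⟩ := g1.pert (isOpen_interior.mem_nhds w1) (Or.inr ⟨rfl, rfl⟩)
  obtain ⟨εN, hεN, szN⟩ := 𝓜.exists_sz C hδN
  obtain ⟨cN, cN0, cN1, cN2, cN3, cN4⟩ := exists_slow hεN
  obtain ⟨uN, σN, n1, n2, n3⟩ := acts_seq (δ := δN) 𝓕.cN tN iN hN hw
    (q := fun i => (cN (-(i + 1)).toNat - cN (-i).toNat, 0))
    (fun i hi => by
      have := rN i hi
      rw [show (-(i + 1)).toNat = 0 by omega, show (-i).toNat = 0 by omega, sub_self]; rfl)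
    (by
      rw [← tendsto_add_atTop_iff_nat 1]
      have := cN4.neg
      rw [neg_zero] at this
      refine (this.prodMk_nhds tendsto_const_nhds).congr fun k => ?_
      rw [show (-(-((k + 1 : ℕ) : ℤ) + 1)).toNat = k by omega,
        show (-(-((k + 1 : ℕ) : ℤ))).toNat = k + 1 by omega, neg_sub])
    (fun k => szN _ (by
      rcases k with _ | k
      · simpa using hεN.le
      · rw [show (-(-((k + 1 : ℕ) : ℤ) + 1)).toNat = k by omega,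
          show (-(-((k + 1 : ℕ) : ℤ))).toNat = k + 1 by omega, abs_sub_comm]
        exact cN3 k) (by simpa using hεN.le)) hδN'
  obtain ⟨g2, w2⟩ := pN uN σN n1 n2
  refine ⟨_, interior_subset w2, g2, ?_⟩
  rw [mul_assoc]
  set l : ℤ → ℝ := fun i => cS (i - n).toNat + cN (-i).toNat with hl
  have hΨ : Acts 𝓜 f ι (σS * σN) fun i => (l (i + 1) - l i, 0) := by
    have := s3.mul n3 fun i => by
      by_cases hi : i < n
      · left
        rw [show (i + 1 - n).toNat = 0 by omega, show (i - n).toNat = 0 by omega, sub_self]; rfl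
      · right
        rw [show (-(i + 1)).toNat = 0 by omega, show (-i).toNat = 0 by omega, sub_self]; rfl
    convert this using 2 with i
    simp only [hl, Pi.add_apply, Prod.mk_add_mk, add_zero]
    congr 1
    ring
  -- the commuting diffeomorphism
  obtain ⟨b, hb, szb⟩ := 𝓜.exists_sz C (show (0 : ℝ) < 1 / 2 by norm_num)
  set q : ℤ → ℝ × ℝ := fun i => (0, b * Real.exp (l i)) with hq
  have hqb : ∀ i, C * 𝓜.sz (q i) ≤ 1 / 2 := fun i => szb _ (by simpa [hq] using hb.le) (by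
    have h1 : Real.exp (l i) ≤ 1 := Real.exp_le_one_iff.mpr (add_nonpos (cS1 _) (cN1 _))
    simp only [hq]
    rw [abs_of_pos (by positivity)]
    exact mul_le_of_le_one_right hb.le h1)
  have hqb' : ∀ (s : Set ℤ) i, C * 𝓜.sz (s.indicator q i) ≤ 1 / 2 := fun s i => by
    by_cases hi : i ∈ s
    · rw [indicator_of_mem hi]; exact hqb i
    · rw [indicator_of_notMem hi, 𝓜.sz_zero]; norm_num
  have hlim : ∀ c : ℕ → ℝ, Tendsto c atTop atBot →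
      Tendsto (fun k => ((0, b * Real.exp (c k)) : ℝ × ℝ)) atTop (𝓝 0) := fun c hc => by
    have := (Real.tendsto_exp_atBot.comp hc).const_mul b
    rw [mul_zero] at this
    exact tendsto_const_nhds.prodMk_nhds this
  obtain ⟨-, GS, -, -, a1⟩ := acts_seq 𝓕.cS tS iS hS hw (q := (Ici (n : ℤ)).indicator q)
    (fun i hi => indicator_of_notMem (by simpa using rS i hi) _)
    ((hlim cS cS2).congr fun k => by
      rw [indicator_of_mem (by simp)]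
      simp only [hq, hl]
      rw [show ((n : ℤ) + k - n).toNat = k by omega, show (-((n : ℤ) + k)).toNat = 0 by omega, cN0,
        add_zero])
    (fun k => hqb' _ _) le_rfl
  obtain ⟨-, GN, -, -, a2⟩ := acts_seq 𝓕.cN tN iN hN hw (q := (Iic (0 : ℤ)).indicator q)
    (fun i hi => indicator_of_notMem (by simpa using rN i hi) _)
    ((hlim cN cN2).congr fun k => by
      rw [indicator_of_mem (by simp)]
      simp only [hq, hl]
      rw [show (-(k : ℤ) - n).toNat = 0 by omega, show (-(-(k : ℤ))).toNat = k by omega, cS0,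
        zero_add])
    (fun k => hqb' _ _) le_rfl
  have a3 : ∀ T : Finset ℤ, ∃ G, Acts 𝓜 f ι G ((T : Set ℤ).indicator q) := by
    intro T
    induction T using Finset.induction_on with
    | empty => exact ⟨1, by simpa using! Acts.one⟩
    | insert i T hi ih =>
      obtain ⟨G, hG⟩ := ih
      obtain ⟨-, G', -, -, hG'⟩ := acts_seq 𝓕.cN tN iN hN hw
        (q := fun j => ({i} : Set ℤ).indicator q (j + i))
        (fun j hj => indicator_of_notMem (by have := rN j hj; simp; omega) _)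
        (tendsto_const_nhds.congr' (by
          filter_upwards [eventually_ge_atTop 1] with k hk
          exact (indicator_of_notMem (by simp; omega) _).symm))
        (fun k => hqb' _ _) le_rfl
      refine ⟨(f ^ i * G' * f ^ (-i)) * G, ?_⟩
      have := (hG'.conj i).mul hG fun j => by
        by_cases hj : j = i
        · right; exact indicator_of_notMem (by simpa [hj] using hi) _
        · left; exact indicator_of_notMem (by simpa using hj) _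
      convert this using 1
      funext j
      simp only [Pi.add_apply, sub_add_cancel, Finset.coe_insert]
      rw [insert_eq, indicator_union_of_notMem_inter]
      rintro ⟨h1, h2⟩
      exact hi (h1 ▸ h2)
  obtain ⟨GM, a4⟩ := a3 (Finset.Ioo 0 (n : ℤ))
  have a5 := (a1.mul a2 fun i => by
    by_cases hi : i < n
    · left; exact indicator_of_notMem (by simpa using hi) _
    · right; exact indicator_of_notMem (by simp; omega) _).mul a4 fun i => by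
    by_cases hi : 0 < i ∧ i < n
    · left
      rw [Pi.add_apply, indicator_of_notMem (by simpa using hi.2),
        indicator_of_notMem (by simpa using hi.1), add_zero]
    · right; exact indicator_of_notMem (by simpa using hi) _
  have a6 : Acts 𝓜 f ι (GS * GN * GM) q := by
    convert a5 using 1
    funext i
    simp only [Pi.add_apply, indicator_apply, mem_Ici, mem_Iic, Finset.coe_Ioo, mem_Ioo]
    split_ifs <;> first | omega | simp
  refine Acts.not_trivial (b := fun i => b * Real.exp (l i)) a6 hΨ (fun i => ?_) (by positivity)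
    ?_ hw
  · rw [mul_left_comm, ← Real.exp_add, sub_add_cancel]
  · obtain ⟨a, L, -, h⟩ := hN.ex 0
    intro y hy y' hy' e
    have e1 := (h y hy).2
    have e2 := (h y' hy').2
    rw [e, e2] at e1
    have := 𝓕.φN.symm.injOn (tN (h y' hy').1) (tN (h y hy).1) e1
    exact (L.injective (add_left_cancel this)).symm

end Pool.Agent.Lib.MP_95f3db_an
end

-- part Pool.Agent.Lib.MP_95f3db_an.Config
section

/-!
# The robust configuration and the density of nontrivial centralizers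
-/

namespace Pool.Agent.Lib.MP_95f3db_an

open scoped Manifold ContDiff Topology
open Set Filter Metric Function

variable {E : Type*} [NormedAddCommGroup E] [NormedSpace ℝ E] {M : Type*} [TopologicalSpace M]
  [ChartedSpace E M]

section general

variable {P Q : Type*} [NormedAddCommGroup P] [NormedSpace ℝ P] [NormedAddCommGroup Q]
  [NormedSpace ℝ Q] {φ : OpenPartialHomeomorph M P} {ψ : OpenPartialHomeomorph M Q}

omit [NormedSpace ℝ P] in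
lemma lin_iter {f : M → M} {s : P} {r : ℝ} {A : P → P} (hA : ∀ y, ‖A y‖ ≤ ‖y‖)
    (h : ∀ y ∈ closedBall s r, f (φ.symm y) = φ.symm (s + A (y - s))) (j : ℕ) {y : P}
    (hy : y ∈ closedBall s r) :
    s + A^[j] (y - s) ∈ closedBall s r ∧ f^[j] (φ.symm y) = φ.symm (s + A^[j] (y - s)) := by
  induction j with
  | zero => simpa using hy
  | succ j ih =>
    rw [iterate_succ_apply', iterate_succ_apply', ih.2, h _ ih.1, add_sub_cancel_left]
    refine ⟨?_, rfl⟩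
    have := ih.1
    rw [mem_closedBall, dist_eq_norm, add_sub_cancel_left] at this ⊢
    exact (hA _).trans this

lemma lin_inv {f : Diff1 E M} {s : P} (A : P ≃L[ℝ] P)
    (h : ∀ᶠ y in 𝓝 s, f (φ.symm y) = φ.symm (s + A (y - s))) :
    ∀ᶠ y in 𝓝 s, f⁻¹ (φ.symm y) = φ.symm (s + A.symm (y - s)) := by
  have h1 : Tendsto (fun y => s + A.symm (y - s)) (𝓝 s) (𝓝 s) := by
    have : Continuous fun y => s + A.symm (y - s) := by fun_prop
    simpa using this.tendsto s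
  filter_upwards [h1.eventually h] with y hy
  apply diff_inj f
  rw [hy]
  simp

lemma equiv_pow_apply (A : P ≃L[ℝ] P) (j : ℕ) (y : P) : (A ^ j) y = A^[j] y := by
  induction j generalizing y with
  | zero => rfl
  | succ j ih => rw [pow_succ, iterate_succ_apply, ← ih]; rfl

lemma Strong.bound {A : P ≃L[ℝ] P} {v e : P} (h : Strong A v) (L : P ≃L[ℝ] P) {c : ℝ}
    (hL : L e = c • v) : ∃ C : ℝ, ∀ j : ℕ,
      ‖(L.trans (A ^ j)) e‖ * ‖((L.trans (A ^ j)).symm : P →L[ℝ] P)‖ ≤ C := by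
  obtain ⟨C, hC⟩ := h
  refine ⟨|c| * ‖(L.symm : P →L[ℝ] P)‖ * |C|, fun j => ?_⟩
  have h1 : ‖‖(L.trans (A ^ j)) e‖ • ((L.trans (A ^ j)).symm : P →L[ℝ] P)‖ ≤
      |c| * ‖(L.symm : P →L[ℝ] P)‖ * |C| := by
    refine ContinuousLinearMap.opNorm_le_bound _ (by positivity) fun z => ?_
    obtain ⟨x, rfl⟩ := (L.trans (A ^ j)).surjective z
    rw [smul_apply, norm_smul, norm_norm, ContinuousLinearEquiv.coe_coe,
      ContinuousLinearEquiv.symm_apply_apply, ContinuousLinearEquiv.trans_apply,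
      ContinuousLinearEquiv.trans_apply, hL, map_smul, norm_smul, equiv_pow_apply, equiv_pow_apply,
      Real.norm_eq_abs]
    have a1 := (hC j (L x)).trans (mul_le_mul_of_nonneg_right (le_abs_self C) (norm_nonneg _))
    have a2 := (L.symm : P →L[ℝ] P).le_opNorm (L x)
    rw [ContinuousLinearEquiv.coe_coe, ContinuousLinearEquiv.symm_apply_apply] at a2
    calc _ ≤ |c| * ‖A^[j] v‖ * (‖(L.symm : P →L[ℝ] P)‖ * ‖L x‖) := by gcongr
      _ = |c| * ‖(L.symm : P →L[ℝ] P)‖ * (‖A^[j] v‖ * ‖L x‖) := by ring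
      _ ≤ |c| * ‖(L.symm : P →L[ℝ] P)‖ * (|C| * ‖A^[j] (L x)‖) := by gcongr
      _ = _ := by ring
  rwa [norm_smul, norm_norm] at h1

lemma wander_pert {f σ : Diff1 E M} {U : Set M} (hσ : ∀ x ∉ U, σ x = x)
    (hU : ∀ n : ℕ, 1 ≤ n → ∀ x ∈ U, f^[n] x ∉ U) :
    (∀ n : ℕ, ∀ x ∈ U, (f * σ)^[n + 1] x = f^[n + 1] (σ x)) ∧
    (∀ n : ℕ, ∀ x ∈ U, (⇑(f * σ)⁻¹)^[n] x = (⇑f⁻¹)^[n] x) ∧
    ∀ i : ℤ, ∀ x ∈ U, ∀ x' ∈ U, ((f * σ) ^ i) x = x' → i = 0 := by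
  have h1 : ∀ x ∈ U, σ x ∈ U := fun x hx => by
    by_contra h
    rw [diff_inj σ (hσ _ h)] at h
    exact h hx
  have h2 : ∀ n : ℕ, ∀ x ∈ U, (f * σ)^[n + 1] x = f^[n + 1] (σ x) := by
    intro n x hx
    induction n with
    | zero => rfl
    | succ n ih =>
      rw [iterate_succ_apply', ih, diff_mul_apply, hσ _ (hU _ (by omega) _ (h1 x hx)),
        ← iterate_succ_apply' f]
  have h3 : ∀ n : ℕ, ∀ x ∈ U, ∀ x' ∈ U, ((f * σ) ^ (n : ℤ)) x = x' → n = 0 := by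
    intro n x hx x' hx' e
    rcases n with _ | n
    · rfl
    · rw [zpow_natCast, diff_coe_pow, h2 n x hx] at e
      exact absurd (e ▸ hx') (hU _ (by omega) _ (h1 x hx))
  refine ⟨h2, fun n x hx => ?_, fun i x hx x' hx' e => ?_⟩
  · induction n with
    | zero => rfl
    | succ n ih =>
      rw [iterate_succ_apply', ih]
      apply diff_inj (f * σ)
      rw [diff_apply_inv, diff_mul_apply, hσ, iterate_succ_apply', diff_apply_inv]
      intro h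
      have e := iterate_inv_iterate f⁻¹ (n + 1) x
      rw [inv_inv] at e
      exact hU _ (by omega) _ h (e.symm ▸ hx)
  · obtain ⟨k, rfl | rfl⟩ := i.eq_nat_or_neg
    · rw [h3 k x hx x' hx' e]; rfl
    · rw [h3 k x' hx' x hx (by
        rw [← e, ← diff_mul_apply, ← zpow_add, add_neg_cancel, zpow_zero, diff_one_apply])]
      rfl

variable [FiniteDimensional ℝ P] [IsManifold 𝓘(ℝ, E) 1 M] [FiniteDimensional ℝ E] [CompactSpace M]
  [T2Space M]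

omit [FiniteDimensional ℝ P] [FiniteDimensional ℝ E] [CompactSpace M] [T2Space M] in
lemma Good.chart {𝓕 : Frame E M P} {f : Diff1 E M} (h : Good 𝓕 f)
    {φ : OpenPartialHomeomorph M P} {R : ℝ}
    (hφ : (φ = 𝓕.φS ∧ R = 𝓕.RS) ∨ (φ = 𝓕.φN ∧ R = 𝓕.RN)) :
    IsChart E φ ∧ closedBall 0 R ⊆ φ.target := by
  rcases hφ with ⟨rfl, rfl⟩ | ⟨rfl, rfl⟩
  · exact ⟨𝓕.cS, fun y hy => (h.S.dom hy).1⟩
  · exact ⟨𝓕.cN, fun y hy => (h.N.dom hy).1⟩

/-- Making a local representative affine near a point. -/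
lemma Good.affine {𝓕 : Frame E M P} {f : Diff1 E M} (h : Good 𝓕 f) {W : Set (Diff1 E M)}
    (hW : W ∈ 𝓝 f) {φ : OpenPartialHomeomorph M P} {R : ℝ}
    (hφ : (φ = 𝓕.φS ∧ R = 𝓕.RS) ∨ (φ = 𝓕.φN ∧ R = 𝓕.RN)) (hψ : IsChart E ψ) {k : Diff1 E M}
    {a : P} (ha : a ∈ ball 0 R) (hd : a ∈ Dom k φ ψ) {V : Set P} (hV : V ∈ 𝓝 a) :
    ∃ σ, Good 𝓕 (f * σ) ∧ f * σ ∈ W ∧ (∀ x ∉ φ.symm '' (V ∩ closedBall 0 R), σ x = x) ∧
      ∀ᶠ y in 𝓝 a, k (σ (φ.symm y)) =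
        ψ.symm (rep k φ ψ a + fderiv ℝ (rep k φ ψ) a (y - a)) := by
  have : ProperSpace P := FiniteDimensional.proper ℝ P
  have : CompleteSpace P := FiniteDimensional.complete ℝ P
  obtain ⟨hφc, hφt⟩ := h.chart hφ
  obtain ⟨δ, hδ, hδ', hp⟩ := h.pert hW hφ
  obtain ⟨C, hC, hcut⟩ := exists_cutoff P
  obtain ⟨L, hL, hL'⟩ := exists_equiv_rep hφc hψ hd
  rw [← hL]
  set b := rep k φ ψ a with hb
  set z : P → Q := fun y => b + L (y - a) with hz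
  have hzc : ContDiff ℝ 1 z := contDiff_const.add (L.contDiff.comp (contDiff_id.sub contDiff_const))
  have hza : z a = b := by simp [hz]
  set G : P → P := fun y => rep k⁻¹ ψ φ (z y) - y with hG
  have e1 : ∀ᶠ y in 𝓝 a, z y ∈ Dom k⁻¹ ψ φ :=
    hzc.continuous.continuousAt.eventually (isOpen_dom.mem_nhds (hza ▸ Dom.inv hd))
  have hGc : ∀ y, z y ∈ Dom k⁻¹ ψ φ → ContDiffAt ℝ 1 G y := fun y hy =>
    ((contDiffAt_rep hψ hφc hy).comp y hzc.contDiffAt).sub contDiffAt_id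
  have hG0 : G a = 0 := by simp only [hG]; rw [hza, hb, Dom.rep_inv hd, sub_self]
  have hG1 : fderiv ℝ G a = 0 := by
    have a1 : HasFDerivAt z (L : P →L[ℝ] Q) a :=
      (L.hasFDerivAt.comp a ((hasFDerivAt_id a).sub_const a)).const_add b
    have a2 := hasFDerivAt_rep hψ hφc (Dom.inv hd)
    rw [← hL', ← hb, ← hza] at a2
    have := ((a2.comp a a1).sub (hasFDerivAt_id a)).fderiv
    rw [show G = (rep k⁻¹ ψ φ ∘ z - id) from rfl, this]
    ext v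
    simp
  have hθ : 0 < δ / C := by positivity
  have e2 : ∀ᶠ y in 𝓝 a, ‖fderiv ℝ G y‖ ≤ δ / C := by
    refine ((hGc a e1.self_of_nhds).continuousAt_fderiv one_ne_zero).norm.eventually
      (ge_mem_nhds ?_)
    simpa only [hG1, norm_zero] using hθ
  obtain ⟨r, hr, hr'⟩ := Metric.eventually_nhds_iff_ball.mp
    (e1.and (e2.and ((show ∀ᶠ y in 𝓝 a, y ∈ V from hV).and (isOpen_ball.eventually_mem ha))))
  obtain ⟨s, rfl⟩ : ∃ s, r = 3 * s := ⟨r / 3, by ring⟩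
  have hs : 0 < s := by linarith
  obtain ⟨χ, -, -, -, hχ1, -, hu⟩ := hcut a s (δ / C) G hs hθ.le (fun y hy => hGc y (hr' y hy).1)
    (fun y hy => by
      have := (convex_ball a (3 * s)).norm_image_sub_le_of_norm_fderiv_le
        (fun x hx => (hGc x (hr' x hx).1).differentiableAt one_ne_zero)
        (fun x hx => (hr' x hx).2.1) (mem_ball_self hr) hy
      rw [hG0, sub_zero] at this
      rw [mem_ball, dist_eq_norm] at hy
      calc _ ≤ _ := this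
        _ ≤ δ / C * (3 * s) := by gcongr
        _ = _ := by ring)
    (fun y hy => (hr' y hy).2.1)
  rw [mul_div_cancel₀ _ (by linarith)] at hu
  have hsub : closedBall a (2 * s) ⊆ V ∩ closedBall 0 R := fun y hy => by
    have := hr' y (closedBall_subset_ball (by linarith) hy)
    exact ⟨this.2.2.1, ball_subset_closedBall this.2.2.2⟩
  obtain ⟨σ, hσ⟩ := exists_tr hφc (isCompact_closedBall _ _) (fun y hy => hφt (hsub hy).2) hu hδ'
  obtain ⟨g1, g2⟩ := hp _ σ (hu.mono (fun y hy => (hsub hy).2) le_rfl)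
    (hσ.mono fun y hy => (hsub hy).2)
  refine ⟨σ, g1, g2, (hσ.mono hsub).out, ?_⟩
  filter_upwards [closedBall_mem_nhds a hs] with y hy
  have hy' := hr' y (closedBall_subset_ball (by linarith) hy)
  rw [hσ.eq y (hφt (ball_subset_closedBall hy'.2.2.2)), hχ1 y hy, one_smul]
  simp only [hG]
  rw [add_sub_cancel, Dom.symm_rep hy'.1, diff_apply_inv]
  rfl

end general

variable {F : Type*} [NormedAddCommGroup F] [InnerProductSpace ℝ F]
  {φ : OpenPartialHomeomorph M (F × ℝ)}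

/-- On the ball of radius `r` the derivative is close to the dominated diagonal map. -/
structure Near (f : Diff1 E M) (φ : OpenPartialHomeomorph M (F × ℝ)) (r l m η : ℝ) : Prop where
  contr : Contr f φ r
  near : ∀ y ∈ closedBall 0 r, ‖fderiv ℝ (rep f φ φ) y - Lam F l m‖ ≤ η

lemma Near.cone_iter {f : Diff1 E M} {r l m η κ : ℝ} (hφ : IsChart E φ) (h : Near f φ r l m η)
    (c : Cst l m κ η) (k : ℕ) {y : F × ℝ} (hy : y ∈ closedBall 0 r) {u : F × ℝ}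
    (hu : Cone κ (fderiv ℝ (rep (f ^ k) φ φ) y u)) : Cone κ u := by
  induction k with
  | zero => rwa [pow_zero, fderiv_rep_one (h.contr.dom hy).1] at hu
  | succ k ih =>
    rw [pow_succ', fderiv_rep_mul hφ hφ hφ (h.contr.iter hy k).1
      (h.contr.dom (h.contr.iter hy k).2)] at hu
    exact ih (cone_back c (h.near _ (h.contr.iter hy k).2) hu)

lemma Near.pullback {f : Diff1 E M} {r l m η κ : ℝ} (hφ : IsChart E φ) (h : Near f φ r l m η)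
    (c : Cst l m κ η) (k : ℕ) {v : F × ℝ} (hv : v ≠ 0) (hv' : Cone κ v) :
    ContinuousOn (fun y => fderiv ℝ (rep (f ^ k)⁻¹ φ φ) (rep (f ^ k) φ φ y) v) (closedBall 0 r) ∧
    ∀ y ∈ closedBall 0 r,
      fderiv ℝ (rep (f ^ k) φ φ) y (fderiv ℝ (rep (f ^ k)⁻¹ φ φ) (rep (f ^ k) φ φ y) v) = v ∧
      fderiv ℝ (rep (f ^ k)⁻¹ φ φ) (rep (f ^ k) φ φ y) v ≠ 0 ∧
      Cone κ (fderiv ℝ (rep (f ^ k)⁻¹ φ φ) (rep (f ^ k) φ φ y) v) := by
  refine ⟨ContinuousOn.clm_apply ((continuousOn_fderiv_rep hφ hφ).comp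
    (fun y hy => (contDiffAt_rep hφ hφ (h.contr.iter hy k).1).continuousAt.continuousWithinAt)
    fun y hy => Dom.inv (h.contr.iter hy k).1) continuousOn_const, fun y hy => ?_⟩
  obtain ⟨L, hL, hL'⟩ := exists_equiv_rep hφ hφ (h.contr.iter hy k).1
  have e : fderiv ℝ (rep (f ^ k) φ φ) y (fderiv ℝ (rep (f ^ k)⁻¹ φ φ) (rep (f ^ k) φ φ y) v)
      = v := by rw [← hL, ← hL']; simp
  refine ⟨e, fun h0 => hv ?_, h.cone_iter hφ c k hy (by rwa [e])⟩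
  rw [← e, h0, map_zero]

lemma Cst.norm_le {l m η κ : ℝ} (c : Cst l m κ η) {A : F × ℝ →L[ℝ] F × ℝ}
    (hA : ‖A - Lam F l m‖ ≤ η) (y : F × ℝ) : ‖A y‖ ≤ ‖y‖ := by
  have h1 := norm_add_le (A - Lam F l m) (Lam F l m)
  rw [sub_add_cancel] at h1
  have h2 := norm_Lam_le (F := F) (c.η_nonneg.trans c.η_lt.le) c.lt
  have h3 := c.lt_one
  simpa using A.le_of_opNorm_le (c := 1) (by linarith) y

/-- Constants of a configuration. -/
structure Data (F : Type*) where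
  rS : ℝ
  rN : ℝ
  lS : ℝ
  mS : ℝ
  lN : ℝ
  mN : ℝ
  κ : ℝ
  η : ℝ
  m : ℕ
  p : F × ℝ
  ρ : ℝ

variable [FiniteDimensional ℝ F] [IsManifold 𝓘(ℝ, E) 1 M] [FiniteDimensional ℝ E] [CompactSpace M]
  [T2Space M]

/-- The robust configuration. -/
structure Cfg (𝓕 : Frame E M (F × ℝ)) (d : Data F) (f : Diff1 E M) : Prop where
  leS : d.rS ≤ 𝓕.RS
  leN : d.rN ≤ 𝓕.RN
  cS : Cst d.lS d.mS d.κ d.η
  cN : Cst d.lN d.mN d.κ d.η
  S : Near f 𝓕.φS d.rS d.lS d.mS d.η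
  N : Near f⁻¹ 𝓕.φN d.rN d.lN d.mN d.η
  disc : ∀ ξ ∈ closedBall (0 : F) d.ρ, d.p + (ξ, 0) ∈ closedBall 0 d.rN ∧
    d.p + (ξ, 0) ∈ Dom (f ^ d.m) 𝓕.φN 𝓕.φS ∧
    rep (f ^ d.m) 𝓕.φN 𝓕.φS (d.p + (ξ, 0)) ∈ closedBall 0 d.rS
  tp : TP (fun ξ => fderiv ℝ (rep (f ^ d.m) 𝓕.φN 𝓕.φS) (d.p + (ξ, 0))) d.ρ d.κ

omit [IsManifold 𝓘(ℝ, E) 1 M] [FiniteDimensional ℝ E] [CompactSpace M] [T2Space M] in
lemma Contr.exists_iter {f : Diff1 E M} {R r : ℝ} (hφ : IsChart E φ) (h : Contr f φ R)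
    {s : F × ℝ} (hs : s ∈ closedBall 0 R) (hfix : rep f φ φ s = s) (hr : 0 < r) :
    ∃ k : ℕ, ∀ y ∈ closedBall 0 R, rep (f ^ k) φ φ y ∈ ball s r := by
  obtain ⟨θ, h0, h1, -, h3⟩ := h.iter_le hφ hs hfix
  have := (tendsto_pow_atTop_nhds_zero_of_lt_one h0.le h1).mul_const (2 * R)
  rw [zero_mul] at this
  obtain ⟨k, hk⟩ := (this.eventually (gt_mem_nhds hr)).exists
  refine ⟨k, fun y hy => ?_⟩
  rw [mem_ball, dist_eq_norm]
  refine lt_of_le_of_lt ((h3 y hy k).trans ?_) hk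
  rw [mem_closedBall_zero_iff] at hy hs
  have := norm_sub_le y s
  gcongr
  linarith

omit [IsManifold 𝓘(ℝ, E) 1 M] [FiniteDimensional ℝ E] [CompactSpace M] [T2Space M] in
lemma Cfg.tangent {𝓕 : Frame E M (F × ℝ)} {d : Data F} {f : Diff1 E M} (h : Cfg 𝓕 d f)
    {s n : F × ℝ} (hs : s ∈ closedBall 0 d.rS) (hs' : rep f 𝓕.φS 𝓕.φS s = s)
    (hn : n ∈ closedBall 0 d.rN) (hn' : rep f⁻¹ 𝓕.φN 𝓕.φN n = n) {r : ℝ} (hr : 0 < r)
    {v w : F × ℝ} (hv : v ≠ 0) (hv' : Cone d.κ v) (hw : w ≠ 0) (hw' : Cone d.κ w) :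
    ∃ (N : ℕ) (a : F × ℝ) (c : ℝ), a ∈ ball n r ∧ a ∈ Dom (f ^ N) 𝓕.φN 𝓕.φS ∧
      rep (f ^ N) 𝓕.φN 𝓕.φS a ∈ ball s r ∧ fderiv ℝ (rep (f ^ N) 𝓕.φN 𝓕.φS) a w = c • v := by
  obtain ⟨k, hk⟩ := h.S.contr.exists_iter 𝓕.cS hs hs' hr
  obtain ⟨j, hj⟩ := h.N.contr.exists_iter 𝓕.cN hn hn' hr
  obtain ⟨v1, v2⟩ := h.S.pullback 𝓕.cS h.cS k hv hv'
  obtain ⟨w1, w2⟩ := h.N.pullback 𝓕.cN h.cN j hw hw'
  have hy : Continuous fun ξ : F => d.p + (ξ, 0) := by fun_prop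
  obtain ⟨ξ, hξ, c, e⟩ := h.tp _ _ (w1.comp hy.continuousOn fun ξ hξ => (h.disc ξ hξ).1)
    (v1.comp (fun ξ hξ => ((contDiffAt_rep 𝓕.cN 𝓕.cS (h.disc ξ hξ).2.1).continuousAt.comp_of_eq
      hy.continuousAt rfl).continuousWithinAt) fun ξ hξ => (h.disc ξ hξ).2.2)
    (fun ξ hξ => (w2 _ (h.disc ξ hξ).1).2) (fun ξ hξ => (v2 _ (h.disc ξ hξ).2.2).2)
  obtain ⟨d1, d2, d3⟩ := h.disc ξ hξ
  simp only [comp_apply] at e
  set y := d.p + (ξ, 0)
  have a1 := (h.N.contr.iter d1 j).1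
  have a2 := Dom.inv a1
  have a3 := Dom.rep_inv a1
  have a4 := (h.S.contr.iter d3 k).1
  have a5 := Dom.mul d2 a4
  have a6 : f ^ k * f ^ d.m * (f⁻¹ ^ j)⁻¹ = f ^ (k + d.m + j) := by
    rw [inv_pow, inv_inv, pow_add, pow_add]
  refine ⟨k + d.m + j, _, c, hj y d1, ?_, ?_, ?_⟩
  · rw [← a6]; exact Dom.mul a2 (a3.symm ▸ a5)
  · rw [← a6, Dom.rep_mul a2, a3, Dom.rep_mul d2]; exact hk _ d3
  · rw [← a6, fderiv_rep_mul 𝓕.cN 𝓕.cN 𝓕.cS a2 (a3.symm ▸ a5), a3,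
      fderiv_rep_mul 𝓕.cN 𝓕.cS 𝓕.cS d2 a4, ContinuousLinearMap.comp_apply,
      ContinuousLinearMap.comp_apply, e, map_smul, (v2 _ d3).1]

theorem dense_nontrivial {𝓕 : Frame E M (F × ℝ)} {d : Data F} {f : Diff1 E M} (hf : Good 𝓕 f)
    (hc : ∀ᶠ g in 𝓝 f, Cfg 𝓕 d g) {W : Set (Diff1 E M)} (hW : W ∈ 𝓝 f) :
    ∃ f' ∈ W, f' ∈ axiomANoCycles E M ∧ ¬ TrivialCentralizer f' := by
  have : CompleteSpace F := FiniteDimensional.complete ℝ F
  have : ProperSpace F := FiniteDimensional.proper ℝ F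
  obtain ⟨W', hW'W, hW'o, hfW'⟩ := _root_.mem_nhds_iff.mp (inter_mem hW hc)
  -- linearization at the sink
  have c0 := (hW'W hfW').2
  obtain ⟨s, hs, hs'⟩ := c0.S.contr.exists_fix 𝓕.cS
  have hsb : s ∈ ball 0 d.rS := hs' ▸ c0.S.contr.maps s hs
  obtain ⟨A, hA, -⟩ := exists_equiv_rep 𝓕.cS 𝓕.cS (c0.S.contr.dom hs)
  have hA' := c0.S.near s hs
  obtain ⟨σ₁, g1, w1, -, l1⟩ := hf.affine (hW'o.mem_nhds hfW') (Or.inl ⟨rfl, rfl⟩) 𝓕.cS
    (ball_subset_ball c0.leS hsb) (c0.S.contr.dom hs) univ_mem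
  rw [hs', ← hA] at l1
  rw [← hA] at hA'
  set f₁ := f * σ₁
  replace l1 : ∀ᶠ y in 𝓝 s, f₁ (𝓕.φS.symm y) = 𝓕.φS.symm (s + A (y - s)) := l1
  -- linearization at the source
  have c1 := (hW'W w1).2
  obtain ⟨n, hn, hn'⟩ := c1.N.contr.exists_fix 𝓕.cN
  have hnb : n ∈ ball 0 d.rN := hn' ▸ c1.N.contr.maps n hn
  have hnd := Dom.inv (c1.N.contr.dom hn)
  have hnf := Dom.rep_inv (c1.N.contr.dom hn)
  rw [hn', inv_inv] at hnd hnf
  obtain ⟨B', hB1, hB2⟩ := exists_equiv_rep 𝓕.cN 𝓕.cN hnd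
  have hB' := c1.N.near n hn
  rw [hnf] at hB2
  rw [← hB2] at hB'
  obtain ⟨σ₂, g2, w2, o2, l2⟩ := g1.affine (hW'o.mem_nhds w1) (Or.inr ⟨rfl, rfl⟩) 𝓕.cN
    (ball_subset_ball c0.leN hnb) hnd univ_mem
  rw [hnf, ← hB1] at l2
  set f₂ := f₁ * σ₂
  replace l2 : ∀ᶠ y in 𝓝 n, f₂⁻¹ (𝓕.φN.symm y) = 𝓕.φN.symm (n + B'.symm (y - n)) :=
    lin_inv B' l2
  set B := B'.symm
  replace l1 : ∀ᶠ y in 𝓝 s, f₂ (𝓕.φS.symm y) = 𝓕.φS.symm (s + A (y - s)) := by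
    filter_upwards [l1, isOpen_ball.mem_nhds (ball_subset_ball c0.leS hsb)] with y hy hy'
    rw [diff_mul_apply, o2, hy]
    rw [univ_inter]
    exact Set.disjoint_left.mp 𝓕.disj ⟨y, ball_subset_closedBall hy', rfl⟩
  have c2 := (hW'W w2).2
  have hs2 : rep f₂ 𝓕.φS 𝓕.φS s = s := by
    rw [rep, l1.self_of_nhds, sub_self, map_zero, add_zero, 𝓕.φS.right_inv (c0.S.contr.dom hs).1]
  have hn2 : rep f₂⁻¹ 𝓕.φN 𝓕.φN n = n := by
    rw [rep, l2.self_of_nhds, sub_self, map_zero, add_zero, 𝓕.φN.right_inv hnd.1]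
  -- tangency
  obtain ⟨v, hv, hv', sv⟩ := exists_strong c0.cS A hA'
  obtain ⟨w, hw, hw', sw⟩ := exists_strong c0.cN B hB'
  obtain ⟨r₁, hr₁, b1⟩ := Metric.nhds_basis_closedBall.eventually_iff.mp
    (l1.and (isOpen_ball.eventually_mem (ball_subset_ball c0.leS hsb)))
  obtain ⟨r₂, hr₂, b2⟩ := Metric.nhds_basis_closedBall.eventually_iff.mp
    (l2.and (isOpen_ball.eventually_mem (ball_subset_ball c0.leN hnb)))
  obtain ⟨N, a, c, ha, had, hb, htan⟩ := c2.tangent hs hs2 hn hn2 (lt_min hr₁ hr₂) hv hv' hw hw'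
  replace ha : a ∈ ball n r₂ := ball_subset_ball (min_le_right _ _) ha
  replace hb : rep (f₂ ^ N) 𝓕.φN 𝓕.φS a ∈ ball s r₁ := ball_subset_ball (min_le_left _ _) hb
  have haR := (b2 (ball_subset_closedBall ha)).2
  have hbR := (b1 (ball_subset_closedBall hb)).2
  have m1 : 𝓕.φN.symm a ∈ 𝓕.φN.symm '' closedBall 0 𝓕.RN := ⟨a, ball_subset_closedBall haR, rfl⟩
  have m2 : (f₂ ^ N) (𝓕.φN.symm a) ∈ 𝓕.φS.symm '' closedBall 0 𝓕.RS :=
    ⟨_, ball_subset_closedBall hbR, Dom.symm_rep had⟩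
  have hN : 1 ≤ N := by
    rcases N with _ | N
    · exact absurd m1 (Set.disjoint_left.mp 𝓕.disj m2)
    · omega
  have sN := g2.N.sink 𝓕.cN (closedBall_subset_closedBall c0.leN hn) hn2
  have hwand : 𝓕.φN.symm a ∉ nonwandering f₂ := by
    intro h'
    have e := sN.wand _ m1 (by rwa [nonwandering_inv])
    have e2 : f₂ (𝓕.φN.symm n) = 𝓕.φN.symm n := by
      conv_lhs => rw [← sN.fix]
      simp
    rw [e, diff_coe_pow, iterate_fixed e2] at m2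
    exact Set.disjoint_left.mp 𝓕.disj m2 sN.mem
  simp only [nonwandering, mem_ofPred_eq, not_forall, not_exists, not_and] at hwand
  obtain ⟨U, hU, hU'⟩ := hwand
  have hV : 𝓕.φN.symm ⁻¹' U ∈ 𝓝 a := (𝓕.φN.continuousAt_symm had.1).preimage_mem_nhds hU
  obtain ⟨σ₃, g3, w3, o3, l3⟩ := g2.affine (hW'o.mem_nhds w2) (Or.inr ⟨rfl, rfl⟩) 𝓕.cS haR had hV
  obtain ⟨p1, p2, p3⟩ := wander_pert (f := f₂) (σ := σ₃) (U := U)
    (fun x hx => o3 x (by rintro ⟨y, hy, rfl⟩; exact hx hy.1))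
    (fun n hn x hx hx' => hU' n hn ⟨_, ⟨x, hx, rfl⟩, hx'⟩)
  set f₃ := f₂ * σ₃
  obtain ⟨L, hL, -⟩ := exists_equiv_rep 𝓕.cN 𝓕.cS had
  rw [← hL] at l3 htan
  set b := rep (f₂ ^ N) 𝓕.φN 𝓕.φS a
  -- the boxes
  obtain ⟨𝓜⟩ := exists_model F
  obtain ⟨L₁, hL₁⟩ := SeparatingDual.exists_continuousLinearEquiv_apply_eq (R := ℝ)
    (show ((0, 1) : F × ℝ) ≠ 0 by simp) hw
  have hG : ∀ᶠ y in 𝓝 a, b + L (y - a) ∈ ball s r₁ := by
    have : Continuous fun y => b + L (y - a) := by fun_prop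
    exact this.continuousAt.eventually (isOpen_ball.mem_nhds (by simpa using hb))
  have hsmall : ∀ᶠ t : ℝ in 𝓝 0, ∀ y ∈ 𝓜.D, (fun y => (((f₂ ^ N) (σ₃ (𝓕.φN.symm y)) =
      𝓕.φS.symm (b + L (y - a)) ∧ b + L (y - a) ∈ ball s r₁) ∧ y ∈ ball n r₂) ∧
      y ∈ 𝓕.φN.symm ⁻¹' U) (a + t • L₁ y) := by
    refine 𝓜.cpt.eventually_forall_of_forall_eventually fun y _ => ?_
    have : Continuous fun z : ℝ × (F × ℝ) => a + z.1 • L₁ z.2 := by fun_prop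
    have h' := this.tendsto (0, y)
    simp only [zero_smul, add_zero] at h'
    exact h'.eventually (((l3.and hG).and (isOpen_ball.eventually_mem ha)).and hV)
  obtain ⟨t, ht, ht0⟩ := ((hsmall.filter_mono nhdsWithin_le_nhds).and
    (self_mem_nhdsWithin (a := (0 : ℝ)) (s := {0}ᶜ))).exists
  set L₀ : (F × ℝ) ≃L[ℝ] (F × ℝ) := L₁.trans (ContinuousLinearEquiv.smulLeft (R₁ := ℝ)
    (Units.mk0 t ht0)) with hL₀
  have hL₀' : ∀ y, L₀ y = t • L₁ y := fun y => rfl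
  simp only [← hL₀'] at ht
  obtain ⟨CN, hCN⟩ := sw.bound L₀ (e := (0, 1)) (c := t) (by rw [hL₀', hL₁])
  obtain ⟨CS, hCS⟩ := sv.bound (L₀.trans L) (e := (0, 1)) (c := t * c) (by
    rw [ContinuousLinearEquiv.trans_apply, hL₀', hL₁, map_smul, ← smul_smul, ← htan]; rfl)
  refine (core (𝓜 := 𝓜) (ι := fun y => 𝓕.φN.symm (a + L₀ y)) g3
    (hW'o.mem_nhds w3) hN (C := max CS CN) ⟨fun k => ?_⟩ ⟨fun k => ?_⟩
    (fun i y hy y' hy' e => p3 i _ (ht y hy).2 _ (ht y' hy').2 e)).imp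
    fun f' h => ⟨(hW'W h.1).1, h.2.1.mem, h.2.2⟩
  · refine ⟨s + (A ^ k) (b - s), (L₀.trans L).trans (A ^ k), (hCS k).trans (le_max_left _ _),
      fun y hy => ?_⟩
    obtain ⟨⟨⟨q1, q2⟩, -⟩, q4⟩ := ht y hy
    rw [add_sub_cancel_left] at q1 q2
    obtain ⟨q5, q6⟩ := lin_iter (A := A) (c0.cS.norm_le hA')
      (fun y hy => (b1 hy).1) k (ball_subset_closedBall q2)
    have e : s + (A ^ k) (b - s) + ((L₀.trans L).trans (A ^ k)) y =
        s + A^[k] (b + L (L₀ y) - s) := by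
      rw [← equiv_pow_apply, add_assoc, ContinuousLinearEquiv.trans_apply, ← map_add]
      congr 2
      simp only [ContinuousLinearEquiv.trans_apply]
      abel
    rw [e]
    refine ⟨ball_subset_closedBall (b1 q5).2, ?_⟩
    obtain ⟨N, rfl⟩ : ∃ N', N = N' + 1 := ⟨N - 1, by omega⟩
    rw [← q6, ← q1, ← Nat.cast_add, zpow_natCast, diff_coe_pow, diff_coe_pow,
      show N + 1 + k = (k + N) + 1 by ring, p1 _ _ q4, ← iterate_add_apply, add_assoc]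
  · refine ⟨n + (B ^ k) (a - n), L₀.trans (B ^ k), (hCN k).trans (le_max_right _ _),
      fun y hy => ?_⟩
    obtain ⟨⟨-, q3⟩, q4⟩ := ht y hy
    obtain ⟨q5, q6⟩ := lin_iter (A := B) (c0.cN.norm_le hB')
      (fun y hy => (b2 hy).1) k (ball_subset_closedBall q3)
    have e : n + (B ^ k) (a - n) + (L₀.trans (B ^ k)) y = n + B^[k] (a + L₀ y - n) := by
      rw [← equiv_pow_apply, add_assoc, ContinuousLinearEquiv.trans_apply, ← map_add]
      congr 2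
      abel
    rw [e]
    refine ⟨ball_subset_closedBall (b2 q5).2, ?_⟩
    rw [← q6, zpow_neg, zpow_natCast, ← inv_pow, diff_coe_pow, p2 _ _ q4]

end Pool.Agent.Lib.MP_95f3db_an
end

-- part Pool.Agent.Lib.MP_95f3db_an.Init
section

/-!
# Construction of the robust configuration from a conformal source connected to a conformal sink
-/

namespace Pool.Agent.Lib.MP_95f3db_an

open scoped Manifold ContDiff Topology
open Set Filter Metric Function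

variable {E : Type*} [NormedAddCommGroup E] [NormedSpace ℝ E] {M : Type*} [TopologicalSpace M]
  [ChartedSpace E M] {F : Type*} [NormedAddCommGroup F] [InnerProductSpace ℝ F]
  {φ ψ χ : OpenPartialHomeomorph M (F × ℝ)} {k l : Diff1 E M}

/-- The local representative preserves the vertical direction at `y`. -/
def Par (k : Diff1 E M) (φ ψ : OpenPartialHomeomorph M (F × ℝ)) (y : F × ℝ) : Prop :=
  y ∈ Dom k φ ψ ∧ ∃ c : ℝ, fderiv ℝ (rep k φ ψ) y (0, 1) = c • (0, 1)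

lemma Par.mul (hφ : IsChart E φ) (hψ : IsChart E ψ) (hχ : IsChart E χ) {y : F × ℝ}
    (h : Par k φ ψ y) (h' : Par l ψ χ (rep k φ ψ y)) : Par (l * k) φ χ y := by
  obtain ⟨h1, c, hc⟩ := h
  obtain ⟨h2, c', hc'⟩ := h'
  refine ⟨Dom.mul h1 h2, c * c', ?_⟩
  rw [fderiv_rep_mul hφ hψ hχ h1 h2, ContinuousLinearMap.comp_apply, hc, map_smul, hc', smul_smul]

lemma Par.inv (hφ : IsChart E φ) (hψ : IsChart E ψ) {y : F × ℝ} (h : Par k φ ψ y) :
    Par k⁻¹ ψ φ (rep k φ ψ y) := by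
  obtain ⟨h1, c, hc⟩ := h
  obtain ⟨L, hL, hL'⟩ := exists_equiv_rep hφ hψ h1
  rw [← hL, ContinuousLinearEquiv.coe_coe] at hc
  have hc0 : c ≠ 0 := by
    rintro rfl
    simp at hc
  refine ⟨Dom.inv h1, c⁻¹, ?_⟩
  rw [← hL', ContinuousLinearEquiv.coe_coe, ContinuousLinearEquiv.symm_apply_eq, map_smul, hc,
    smul_smul, inv_mul_cancel₀ hc0, one_smul]

lemma Par.congr {y : F × ℝ} (h : Par k φ ψ y) (e : ∀ᶠ z in 𝓝 y, l (φ.symm z) = k (φ.symm z)) :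
    Par l φ ψ y := by
  obtain ⟨h1, c, hc⟩ := h
  refine ⟨⟨h1.1, e.self_of_nhds ▸ h1.2⟩, c, ?_⟩
  have : rep l φ ψ =ᶠ[𝓝 y] rep k φ ψ := e.mono fun z hz => by simp only [rep, hz]
  rw [this.fderiv_eq, hc]

lemma Par.iter (hφ : IsChart E φ) {O : Set (F × ℝ)} (h1 : ∀ y ∈ O, Par k φ φ y)
    (h2 : ∀ y ∈ O, rep k φ φ y ∈ O) (n : ℕ) {y : F × ℝ} (hy : y ∈ O) :
    Par (k ^ n) φ φ y ∧ rep (k ^ n) φ φ y ∈ O := by
  induction n with
  | zero =>
    have := (h1 y hy).1.1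
    rw [pow_zero]
    refine ⟨⟨⟨this, φ.map_target this⟩, 1, by rw [fderiv_rep_one this]; simp⟩, ?_⟩
    rwa [rep, diff_one_apply, φ.right_inv this]
  | succ n ih =>
    rw [pow_succ']
    exact ⟨ih.1.mul hφ hφ hφ (h1 _ ih.2), by rw [Dom.rep_mul ih.1.1]; exact h2 _ ih.2⟩

lemma rep_lin {O : Set (F × ℝ)} (hO : IsOpen O) (ht : O ⊆ φ.target)
    {A : F × ℝ →L[ℝ] F × ℝ} (hA : ∀ y ∈ O, A y ∈ O) (h : ∀ y ∈ O, k (φ.symm y) = φ.symm (A y))
    {y : F × ℝ} (hy : y ∈ O) :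
    y ∈ Dom k φ φ ∧ rep k φ φ y = A y ∧ fderiv ℝ (rep k φ φ) y = A := by
  have e : ∀ z ∈ O, rep k φ φ z = A z := fun z hz => by
    rw [rep, h z hz, φ.right_inv (ht (hA z hz))]
  refine ⟨⟨ht hy, by rw [h y hy]; exact φ.map_target (ht (hA y hy))⟩, e y hy, ?_⟩
  have : rep k φ φ =ᶠ[𝓝 y] A := by filter_upwards [hO.mem_nhds hy] with z hz using e z hz
  rw [this.fderiv_eq, A.fderiv]

lemma Lam_norm_le {l m : ℝ} (hm : 0 ≤ m) (hml : m ≤ l) (y : F × ℝ) : ‖Lam F l m y‖ ≤ l * ‖y‖ :=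
  (Lam F l m).le_of_opNorm_le (norm_Lam_le hm hml) y

lemma Lam_mem {l m r : ℝ} (hm : 0 ≤ m) (hml : m ≤ l) (hl : l < 1) {y : F × ℝ}
    (hy : y ∈ ball 0 r) : Lam F l m y ∈ ball 0 r := by
  rw [mem_ball_zero_iff] at hy ⊢
  have := Lam_norm_le hm hml y
  nlinarith [norm_nonneg y]

lemma par_lam {l m r : ℝ} (hm : 0 ≤ m) (hml : m ≤ l) (hl : l < 1) (ht : ball 0 r ⊆ φ.target)
    (h : ∀ y ∈ ball 0 r, k (φ.symm y) = φ.symm (Lam F l m y)) {y : F × ℝ} (hy : y ∈ ball 0 r) :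
    Par k φ φ y := by
  obtain ⟨h1, -, h3⟩ := rep_lin isOpen_ball ht (fun y hy => Lam_mem hm hml hl hy) h hy
  exact ⟨h1, m, by rw [h3]; simp⟩

lemma near_lam {l m r r' : ℝ} (hm : 0 ≤ m) (hml : m ≤ l) (hl : l < 1) (ht : ball 0 r' ⊆ φ.target)
    (h : ∀ y ∈ ball 0 r', k (φ.symm y) = φ.symm (Lam F l m y)) (hr : 0 < r) (hr' : r < r') :
    Near k φ r l m 0 := by
  have key := fun y (hy : y ∈ closedBall (0 : F × ℝ) r) =>
    rep_lin isOpen_ball ht (fun y hy => Lam_mem hm hml hl hy) h (closedBall_subset_ball hr' hy)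
  refine ⟨⟨hr, fun y hy => (key y hy).1, fun y hy => ?_, fun y hy => ?_⟩, fun y hy => ?_⟩
  · rw [(key y hy).2.1, mem_ball_zero_iff]
    rw [mem_closedBall_zero_iff] at hy
    have := Lam_norm_le hm hml y
    nlinarith [norm_nonneg y]
  · rw [(key y hy).2.2]
    exact (norm_Lam_le hm hml).trans_lt hl
  · rw [(key y hy).2.2, sub_self]; exact ContinuousLinearMap.opNorm_zero.le

lemma IsTr.maps {P : Type*} [NormedAddCommGroup P] {φ : OpenPartialHomeomorph M P} {K : Set P}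
    {u : P → P} {σ : Diff1 E M} (h : IsTr φ K u σ) (hK : K ⊆ φ.target) {y : P} (hy : y ∈ K) :
    y + u y ∈ K := by
  by_contra h'
  have h1 := h.out (φ.symm (y + u y)) (by
    rintro ⟨z, hz, e⟩
    exact h' (φ.symm.injOn (hK hz) (h.mem y (hK hy)) e ▸ hz))
  rw [← h.eq y (hK hy)] at h1
  have h2 := diff_inj σ h1
  rw [h.eq y (hK hy)] at h2
  exact h' ((φ.symm.injOn (h.mem y (hK hy)) (hK hy) h2).symm ▸ hy)

lemma IsTr.dom_inv {P : Type*} [NormedAddCommGroup P] {φ : OpenPartialHomeomorph M P} {K : Set P}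
    {u : P → P} {σ : Diff1 E M} (h : IsTr φ K u σ) (hK : K ⊆ φ.target) {y : P}
    (hy : y ∈ φ.target) : y ∈ Dom σ⁻¹ φ φ := by
  refine ⟨hy, ?_⟩
  by_contra h'
  have h1 := h.out (σ⁻¹ (φ.symm y)) (by
    rintro ⟨z, hz, e⟩
    exact h' (e ▸ φ.map_target (hK hz)))
  rw [diff_apply_inv] at h1
  exact h' (h1 ▸ φ.map_target hy)

lemma iter_congr {f g : Diff1 E M} (n : ℕ) {x : M} (h : ∀ i < n, g =ᶠ[𝓝 (f^[i] x)] f) :
    ⇑(g ^ n) =ᶠ[𝓝 x] ⇑(f ^ n) := by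
  induction n with
  | zero => rfl
  | succ n ih =>
    have h1 := (f ^ n).continuous.continuousAt.eventually
      (show ∀ᶠ z in 𝓝 ((f ^ n) x), g z = f z by rw [diff_coe_pow]; exact h n (by omega))
    filter_upwards [ih fun i hi => h i (by omega), h1] with z hz hz'
    rw [pow_succ', pow_succ', diff_mul_apply, diff_mul_apply, hz, hz']

lemma exists_cst {l m l' m' κ₁ : ℝ} (hm : 0 < m) (hml : m < l) (hl : l < 1) (hm' : 0 < m')
    (hml' : m' < l') (hl' : l' < 1) (hκ : 0 < κ₁) :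
    ∃ κ η : ℝ, κ ≤ κ₁ ∧ 0 < η ∧ Cst l m κ η ∧ Cst l' m' κ η := by
  have hκ' : 0 < min κ₁ 1 := by positivity
  have key : ∀ l m : ℝ, 0 < m → m < l → l < 1 → ∀ᶠ η in 𝓝[>] (0 : ℝ), Cst l m (min κ₁ 1) η := by
    intro l m hm hml hl
    have a1 : ∀ᶠ η in 𝓝 (0 : ℝ), η < m := gt_mem_nhds hm
    have a2 : ∀ᶠ η in 𝓝 (0 : ℝ), η < min κ₁ 1 * (l - m) / 4 :=
      gt_mem_nhds (by have := sub_pos.mpr hml; positivity)
    have a3 : ∀ᶠ η in 𝓝 (0 : ℝ), η < 1 - l := gt_mem_nhds (by linarith)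
    filter_upwards [((a1.and a2).and a3).filter_mono nhdsWithin_le_nhds, self_mem_nhdsWithin]
      with η h h'
    exact ⟨hκ', min_le_right _ _, le_of_lt h', h.1.1, by linarith [h.1.2], by linarith [h.2]⟩
  obtain ⟨η, ⟨h1, h2⟩, h3⟩ := (((key l m hm hml hl).and (key l' m' hm' hml' hl')).and
    self_mem_nhdsWithin).exists
  exact ⟨_, η, min_le_left _ _, h3, h1, h2⟩

variable [FiniteDimensional ℝ F] [IsManifold 𝓘(ℝ, E) 1 M] [FiniteDimensional ℝ E] [CompactSpace M]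
  [T2Space M]

omit [CompactSpace M] [T2Space M] in
lemma Near.eventually {r l m η : ℝ} (hφ : IsChart E φ) (h : Near k φ r l m 0) (hη : 0 < η) :
    ∀ᶠ g in 𝓝 k, Near g φ r l m η := by
  have : ProperSpace F := FiniteDimensional.proper ℝ F
  filter_upwards [h.contr.eventually hφ,
    eventually_rep_close hφ hφ (isCompact_closedBall _ _) h.contr.dom hη] with g h1 h2
  refine ⟨h1, fun y hy => ?_⟩
  have := sub_eq_zero.mp ((ContinuousLinearMap.opNorm_zero_iff _).mp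
    (le_antisymm (h.near y hy) (ContinuousLinearMap.opNorm_nonneg _)))
  rw [← this]
  exact (h2 y hy).2

/-- Vertical stretching near the centre of a chart ball. -/
lemma Good.stretch {𝓕 : Frame E M (F × ℝ)} {f : Diff1 E M} (h : Good 𝓕 f) {R : ℝ}
    (hφ : (φ = 𝓕.φS ∧ R = 𝓕.RS) ∨ (φ = 𝓕.φN ∧ R = 𝓕.RN)) {Z : Set M} (hZ : Z.Finite)
    (hZ' : φ.symm 0 ∉ Z) : ∀ᶠ ε : ℝ in 𝓝 0, ∃ (σ : Diff1 E M) (r : ℝ), 0 < r ∧ r ≤ R ∧
      Good 𝓕 (f * σ) ∧ (∀ z ∈ Z, σ =ᶠ[𝓝 z] id) ∧ (∀ x ∉ φ.symm '' closedBall 0 R, σ x = x) ∧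
      (∀ y ∈ ball 0 R, Par σ φ φ y ∧ rep σ φ φ y ∈ ball 0 R) ∧
      (∀ y ∈ φ.target, Par σ⁻¹ φ φ y) ∧
      ∀ y ∈ ball 0 r, σ (φ.symm y) = φ.symm (y.1, (1 + ε) * y.2) := by
  have : ProperSpace F := FiniteDimensional.proper ℝ F
  have : CompleteSpace F := FiniteDimensional.complete ℝ F
  obtain ⟨hφc, hφt⟩ := h.chart hφ
  have hR : 0 < R := by
    rcases hφ with ⟨-, rfl⟩ | ⟨-, rfl⟩
    · exact h.S.pos
    · exact h.N.pos
  obtain ⟨δ, hδ, hδ', hp⟩ := h.pert univ_mem hφ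
  obtain ⟨C, hC, hcut⟩ := exists_cutoff (F × ℝ)
  have h0 : (0 : F × ℝ) ∈ φ.target := hφt (mem_closedBall_self hR.le)
  obtain ⟨r, hr, hr'⟩ := Metric.eventually_nhds_iff_ball.mp
    (((φ.continuousAt_symm h0).eventually (hZ.isClosed.isOpen_compl.mem_nhds hZ')).and
      (isOpen_ball.eventually_mem (mem_ball_self hR)))
  obtain ⟨s, rfl⟩ : ∃ s, r = 3 * s := ⟨r / 3, by ring⟩
  have hs : 0 < s := by linarith
  have hsub : closedBall (0 : F × ℝ) (2 * s) ⊆ ball 0 (3 * s) := closedBall_subset_ball (by linarith)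
  have hsub' : closedBall (0 : F × ℝ) (2 * s) ⊆ ball 0 R := fun y hy => (hr' y (hsub hy)).2
  filter_upwards [closedBall_mem_nhds (0 : ℝ) (show 0 < δ / C by positivity)] with ε hε
  rw [mem_closedBall_zero_iff] at hε
  set G : F × ℝ →L[ℝ] F × ℝ := ε • (ContinuousLinearMap.snd ℝ F ℝ).smulRight (0, 1) with hG
  have hG1 : ‖G‖ ≤ δ / C := by
    refine ContinuousLinearMap.opNorm_le_bound _ (by positivity) fun y => ?_
    simp only [hG, smul_apply, ContinuousLinearMap.smulRight_apply, norm_smul,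
      ContinuousLinearMap.coe_snd', Prod.norm_mk, norm_zero, norm_one, max_eq_right zero_le_one,
      mul_one]
    gcongr
    exact norm_snd_le y
  obtain ⟨c, c1, -, -, c2, -, hu⟩ := hcut 0 s (δ / C) G hs (by positivity)
    (fun y _ => G.contDiff.contDiffAt)
    (fun y hy => by
      rw [mem_ball_zero_iff] at hy
      calc _ ≤ δ / C * ‖y‖ := G.le_of_opNorm_le hG1 y
        _ ≤ δ / C * (3 * s) := by gcongr
        _ = _ := by ring)
    (fun y _ => by rwa [G.fderiv])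
  rw [mul_div_cancel₀ _ (by linarith)] at hu
  have hKt : closedBall (0 : F × ℝ) (2 * s) ⊆ φ.target := fun y hy =>
    hφt (ball_subset_closedBall (hsub' hy))
  obtain ⟨σ, hσ⟩ := exists_tr hφc (isCompact_closedBall _ _) hKt hu hδ'
  have hK' : closedBall (0 : F × ℝ) (2 * s) ⊆ closedBall 0 R := hsub'.trans ball_subset_closedBall
  have hpar : ∀ y ∈ φ.target, Par σ φ φ y := by
    intro y hy
    have a1 : HasFDerivAt (fun y : F × ℝ => c y * (ε * y.2)) _ y :=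
      (c1.differentiable one_ne_zero y).hasFDerivAt.mul (hasFDerivAt_snd.const_mul ε)
    have a2 := (a1.smul_const ((0, 1) : F × ℝ)).fderiv
    have a3 : (fun y : F × ℝ => c y • G y) = fun y => (c y * (ε * y.2)) • ((0, 1) : F × ℝ) := by
      funext y
      simp only [hG, smul_apply, ContinuousLinearMap.smulRight_apply, smul_smul,
        ContinuousLinearMap.coe_snd']
    refine ⟨hσ.dom hy, 1 + fderiv ℝ (fun y : F × ℝ => c y * (ε * y.2)) y (0, 1), ?_⟩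
    rw [hσ.fderiv_rep hu hy, a3, a2, add_apply, ContinuousLinearMap.smulRight_apply,
      ContinuousLinearMap.id_apply, a1.fderiv, add_smul, one_smul]
  refine ⟨σ, s, hs, ?_, (hp _ σ (hu.mono hK' le_rfl) (hσ.mono hK')).1, fun z hz => ?_,
    (hσ.mono hK').out, fun y hy => ?_, fun y hy => ?_, fun y hy => ?_⟩
  · by_contra h'
    push Not at h'
    have : ((0, R) : F × ℝ) ∈ closedBall 0 (2 * s) := by
      rw [mem_closedBall_zero_iff, Prod.norm_mk, norm_zero, Real.norm_of_nonneg hR.le,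
        max_eq_right hR.le]
      linarith
    simpa [abs_of_pos hR] using hsub' this
  · filter_upwards [(isCompact_symm_image (isCompact_closedBall _ _) hKt).isClosed.isOpen_compl.mem_nhds
      (show z ∉ φ.symm '' closedBall 0 (2 * s) by
        rintro ⟨y, hy, rfl⟩; exact (hr' y (hsub hy)).1 hz)] with x hx using hσ.out x hx
  · have hy' := hφt (ball_subset_closedBall hy)
    refine ⟨hpar y hy', ?_⟩
    rw [hσ.rep_eq hy']
    by_cases hK : y ∈ closedBall (0 : F × ℝ) (2 * s)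
    · exact hsub' (hσ.maps hKt hK)
    · rwa [hu.zero y hK, add_zero]
  · have a1 := hσ.dom_inv hKt hy
    have a2 := (hpar _ (Dom.rep_mem a1)).inv hφc hφc
    have a3 := Dom.rep_inv a1
    rw [inv_inv] at a3
    rwa [a3] at a2
  · rw [hσ.eq y (hKt (ball_subset_closedBall (ball_subset_ball (by linarith) hy))),
      c2 y (ball_subset_closedBall hy)]
    congr 1
    ext
    · simp [hG]
    · simp [hG]; ring

lemma stage_stretch {𝓕 : Frame E M (F × ℝ)} {f : Diff1 E M} (h : Good 𝓕 f) {lS lN : ℝ}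
    (hS0 : 0 < lS) (hS1 : lS < 1) (hN0 : 0 < lN) (hN1 : lN < 1)
    (hS : ∀ y ∈ ball 0 𝓕.RS, f (𝓕.φS.symm y) = 𝓕.φS.symm (Lam F lS lS y))
    (hN : ∀ y ∈ ball 0 𝓕.RN, f⁻¹ (𝓕.φN.symm y) = 𝓕.φN.symm (Lam F lN lN y))
    {p : F × ℝ} (hp : p ∈ ball 0 𝓕.RN) {m : ℕ} (hpar : Par (f ^ m) 𝓕.φN 𝓕.φS p)
    (hq : rep (f ^ m) 𝓕.φN 𝓕.φS p ∈ ball 0 𝓕.RS)
    (hne : ∀ i, f^[i] (𝓕.φN.symm p) ≠ 𝓕.φS.symm 0 ∧ f^[i] (𝓕.φN.symm p) ≠ 𝓕.φN.symm 0) :
    ∃ (g : Diff1 E M) (mS mN rS rN : ℝ) (p' : F × ℝ) (n : ℕ), Good 𝓕 g ∧ 0 < mS ∧ mS < lS ∧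
      0 < mN ∧ mN < lN ∧ 0 < rS ∧ rS ≤ 𝓕.RS ∧ 0 < rN ∧ rN ≤ 𝓕.RN ∧
      (∀ y ∈ ball 0 rS, g (𝓕.φS.symm y) = 𝓕.φS.symm (Lam F lS mS y)) ∧
      (∀ y ∈ ball 0 rN, g⁻¹ (𝓕.φN.symm y) = 𝓕.φN.symm (Lam F lN mN y)) ∧
      p' ≠ 0 ∧ p' ∈ ball 0 (lN * rN) ∧ Par (g ^ n) 𝓕.φN 𝓕.φS p' ∧
      rep (g ^ n) 𝓕.φN 𝓕.φS p' ∈ ball 0 rS := by
  have tS : ball 0 𝓕.RS ⊆ 𝓕.φS.target := fun y hy => (h.S.dom (ball_subset_closedBall hy)).1
  have tN : ball 0 𝓕.RN ⊆ 𝓕.φN.target := fun y hy => (h.N.dom (ball_subset_closedBall hy)).1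
  set Z : Set M := (fun i => f^[i] (𝓕.φN.symm p)) '' Iio m with hZ
  have hZf : Z.Finite := (finite_Iio m).image _
  obtain ⟨ε₁, ⟨⟨σ₁, r₁, hr₁, hr₁', g1, z1, o1, par1, -, f1⟩, e1⟩, e1'⟩ :=
    (((h.stretch (Or.inl ⟨rfl, rfl⟩) hZf (by rintro ⟨i, -, e⟩; exact (hne i).1 e)).and
      (lt_mem_nhds (show (-1 : ℝ) < 0 by norm_num))).filter_mono nhdsWithin_le_nhds |>.and
      (self_mem_nhdsWithin (s := Iio 0))).exists
  obtain ⟨ε₂, ⟨σ₂, r₂, hr₂, hr₂', g2, z2, o2, -, par2, f2⟩, e2⟩ :=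
    ((g1.stretch (Or.inr ⟨rfl, rfl⟩) hZf (by rintro ⟨i, -, e⟩; exact (hne i).2 e)).filter_mono
      nhdsWithin_le_nhds |>.and (self_mem_nhdsWithin (s := Ioi 0))).exists
  replace e1' : ε₁ < 0 := e1'
  replace e2 : 0 < ε₂ := e2
  set g := f * σ₁ * σ₂ with hg
  have dS : ∀ y ∈ ball 0 𝓕.RS, σ₂ (𝓕.φS.symm y) = 𝓕.φS.symm y := fun y hy =>
    o2 _ (Set.disjoint_left.mp 𝓕.disj ⟨y, ball_subset_closedBall hy, rfl⟩)
  have dN : ∀ y ∈ ball 0 𝓕.RN, σ₁⁻¹ (𝓕.φN.symm y) = 𝓕.φN.symm y := fun y hy => by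
    apply diff_inj σ₁
    rw [diff_apply_inv, o1 _ (Set.disjoint_right.mp 𝓕.disj ⟨y, ball_subset_closedBall hy, rfl⟩)]
  have hN1' : ∀ y ∈ ball 0 𝓕.RN, (f * σ₁)⁻¹ (𝓕.φN.symm y) = 𝓕.φN.symm (Lam F lN lN y) := by
    intro y hy
    rw [mul_inv_rev, diff_mul_apply, hN y hy, dN _ (Lam_mem hN0.le le_rfl hN1 hy)]
  have hmN : lN / (1 + ε₂) < lN := div_lt_self hN0 (by linarith)
  have hmN0 : 0 < lN / (1 + ε₂) := by positivity
  have hmS : lS * (1 + ε₁) < lS := by nlinarith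
  have hmS0 : 0 < lS * (1 + ε₁) := mul_pos hS0 (by linarith)
  have gS : ∀ y ∈ ball 0 r₁, g (𝓕.φS.symm y) = 𝓕.φS.symm (Lam F lS (lS * (1 + ε₁)) y) := by
    intro y hy
    have hy' := ball_subset_ball hr₁' hy
    have a1 := (par1 y hy').2
    have a2 := Dom.symm_rep (par1 y hy').1.1
    rw [hg, diff_mul_apply, diff_mul_apply, dS y hy', ← a2, hS _ a1]
    rw [f1 y hy] at a2
    have a3 : (y.1, (1 + ε₁) * y.2) ∈ ball (0 : F × ℝ) 𝓕.RS := by
      have := Lam_norm_le (l := 1) (m := 1 + ε₁) (by linarith) (by linarith) y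
      rw [mem_ball_zero_iff] at hy' ⊢
      simp only [Lam_apply, one_smul, one_mul] at this
      exact this.trans_lt hy'
    rw [𝓕.φS.symm.injOn (tS a1) (tS a3) a2]
    simp [mul_assoc]
  have gN : ∀ y ∈ ball 0 r₂, g⁻¹ (𝓕.φN.symm y) = 𝓕.φN.symm (Lam F lN (lN / (1 + ε₂)) y) := by
    intro y hy
    rw [hg, mul_inv_rev, diff_mul_apply, hN1' y (ball_subset_ball hr₂' hy)]
    apply diff_inj σ₂
    rw [diff_apply_inv, f2 _ (Lam_mem hmN0.le hmN.le hN1 hy)]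
    congr 1
    ext
    · simp
    · simp only [Lam_apply]
      field_simp
  have parS : ∀ y ∈ ball 0 𝓕.RS, Par g 𝓕.φS 𝓕.φS y := by
    intro y hy
    refine ((par1 y hy).1.mul 𝓕.cS 𝓕.cS 𝓕.cS
      (par_lam hS0.le le_rfl hS1 tS hS (par1 y hy).2)).congr ?_
    filter_upwards [isOpen_ball.mem_nhds hy] with z hz
    rw [hg, diff_mul_apply, dS z hz]
  have parN : ∀ y ∈ ball 0 𝓕.RN, Par g⁻¹ 𝓕.φN 𝓕.φN y := by
    intro y hy
    have a1 := par_lam hN0.le le_rfl hN1 tN hN1' hy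
    rw [hg, mul_inv_rev]
    exact a1.mul 𝓕.cN 𝓕.cN 𝓕.cN (par2 _ (Dom.rep_mem a1.1))
  have parM : ⇑(g ^ m) =ᶠ[𝓝 (𝓕.φN.symm p)] ⇑(f ^ m) := by
    refine iter_congr m fun i hi => ?_
    filter_upwards [z1 _ ⟨i, hi, rfl⟩, z2 _ ⟨i, hi, rfl⟩] with z hz hz'
    rw [hg, diff_mul_apply, diff_mul_apply, hz', id, hz, id]
  have parM' : Par (g ^ m) 𝓕.φN 𝓕.φS p :=
    hpar.congr ((𝓕.φN.continuousAt_symm hpar.1.1).eventually parM)
  have hq' : rep (g ^ m) 𝓕.φN 𝓕.φS p ∈ ball 0 𝓕.RS := by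
    rwa [rep, parM.self_of_nhds]
  have fixS : rep g 𝓕.φS 𝓕.φS 0 = 0 := by
    rw [rep, gS 0 (mem_ball_self hr₁), map_zero, 𝓕.φS.right_inv (tS (mem_ball_self h.S.pos))]
  have fixN : rep g⁻¹ 𝓕.φN 𝓕.φN 0 = 0 := by
    rw [rep, gN 0 (mem_ball_self hr₂), map_zero, 𝓕.φN.right_inv (tN (mem_ball_self h.N.pos))]
  obtain ⟨k, hk⟩ := g2.S.exists_iter 𝓕.cS (mem_closedBall_self h.S.pos.le) fixS hr₁
  obtain ⟨j, hj⟩ := g2.N.exists_iter 𝓕.cN (mem_closedBall_self h.N.pos.le) fixN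
    (show 0 < lN * r₂ by positivity)
  have b1 := (Par.iter 𝓕.cS parS (fun y hy => g2.S.maps y (ball_subset_closedBall hy)) k hq').1
  have b2 := (Par.iter 𝓕.cN parN (fun y hy => g2.N.maps y (ball_subset_closedBall hy)) j hp).1
  have b3 := b2.inv 𝓕.cN 𝓕.cN
  have b4 := Dom.rep_inv b2.1
  have b5 := parM'.mul 𝓕.cN 𝓕.cS 𝓕.cS b1
  have b6 : g ^ k * g ^ m * (g⁻¹ ^ j)⁻¹ = g ^ (k + m + j) := by
    rw [inv_pow, inv_inv, pow_add, pow_add]
  refine ⟨g, _, _, r₁, r₂, _, k + m + j, g2, hmS0, hmS, hmN0, hmN, hr₁, hr₁', hr₂, hr₂', gS, gN,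
    fun h0 => (hne 0).2 ?_, hj p (ball_subset_closedBall hp), ?_, ?_⟩
  · have a1 := Dom.symm_rep b2.1
    have a2 : g⁻¹ (𝓕.φN.symm 0) = 𝓕.φN.symm 0 := by rw [gN 0 (mem_ball_self hr₂), map_zero]
    rw [h0] at a1
    apply diff_inj (g⁻¹ ^ j)
    rw [iterate_zero, id, ← a1, diff_coe_pow, iterate_fixed a2]
  · rw [← b6]; exact b3.mul 𝓕.cN 𝓕.cN 𝓕.cS (b4.symm ▸ b5)
  · rw [← b6, Dom.rep_mul b3.1, b4, Dom.rep_mul parM'.1]
    exact hk _ (ball_subset_closedBall hq')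

omit [FiniteDimensional ℝ F] in
lemma quad_fderiv (c : ℝ) (p y : F × ℝ) :
    HasFDerivAt (fun y : F × ℝ => (((c * (y - p).2) • (y - p).1, 0) : F × ℝ))
      (shear c (y - p).1 + (c * (y - p).2) • (ContinuousLinearMap.inl ℝ F ℝ).comp
        (ContinuousLinearMap.fst ℝ F ℝ)) y := by
  have h1 : HasFDerivAt (fun y : F × ℝ => y - p) (ContinuousLinearMap.id ℝ _) y :=
    (hasFDerivAt_id y).sub_const p
  have h2 := ((h1.snd.const_mul c).smul h1.fst).prodMk (hasFDerivAt_const (0 : ℝ) y)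
  refine h2.congr_fderiv (ContinuousLinearMap.ext fun v => ?_)
  simp [add_comm, mul_comm]

lemma stage_shear {𝓕 : Frame E M (F × ℝ)} {f : Diff1 E M} (h : Good 𝓕 f) {lS lN mS mN rS rN : ℝ}
    (hS0 : 0 < mS) (hS1 : mS < lS) (hS2 : lS < 1) (hN0 : 0 < mN) (hN1 : mN < lN) (hN2 : lN < 1)
    (hrS : 0 < rS) (hrS' : rS ≤ 𝓕.RS) (hrN' : rN ≤ 𝓕.RN)
    (hS : ∀ y ∈ ball 0 rS, f (𝓕.φS.symm y) = 𝓕.φS.symm (Lam F lS mS y))
    (hN : ∀ y ∈ ball 0 rN, f⁻¹ (𝓕.φN.symm y) = 𝓕.φN.symm (Lam F lN mN y))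
    {p : F × ℝ} (hp0 : p ≠ 0) (hp : p ∈ ball 0 (lN * rN)) {n : ℕ} (hpar : Par (f ^ n) 𝓕.φN 𝓕.φS p)
    (hq : rep (f ^ n) 𝓕.φN 𝓕.φS p ∈ ball 0 rS) :
    ∃ (g : Diff1 E M) (d : Data F), Good 𝓕 g ∧ ∀ᶠ g' in 𝓝 g, Cfg 𝓕 d g' := by
  have : ProperSpace F := FiniteDimensional.proper ℝ F
  have : CompleteSpace F := FiniteDimensional.complete ℝ F
  have tS : closedBall 0 𝓕.RS ⊆ 𝓕.φS.target := fun y hy => (h.S.dom hy).1
  have tN : closedBall 0 𝓕.RN ⊆ 𝓕.φN.target := fun y hy => (h.N.dom hy).1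
  have hlN : 0 < lN := hN0.trans hN1
  have hp1 : 0 < ‖p‖ := norm_pos_iff.mpr hp0
  rw [mem_ball_zero_iff] at hp hq
  have hrN : 0 < rN := (mul_pos_iff_of_pos_left hlN).mp (hp1.trans hp)
  -- radii
  obtain ⟨r₂, hr₂, hr₂'⟩ := exists_between (show ‖p‖ < ‖p‖ / lN by
    rw [lt_div_iff₀ hlN]; nlinarith)
  obtain ⟨r₁, hr₁, hr₁'⟩ := exists_between hr₂
  obtain ⟨r₃, hr₃, hr₃'⟩ := exists_between hq
  rw [lt_div_iff₀ hlN] at hr₂'
  have hr₂N : r₂ < rN := by nlinarith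
  have hpR : p ∈ ball (0 : F × ℝ) 𝓕.RN := by rw [mem_ball_zero_iff]; linarith
  -- wandering neighbourhood
  have m1 : 𝓕.φN.symm p ∈ 𝓕.φN.symm '' closedBall 0 𝓕.RN := ⟨p, ball_subset_closedBall hpR, rfl⟩
  have m2 : (f ^ n) (𝓕.φN.symm p) ∈ 𝓕.φS.symm '' closedBall 0 𝓕.RS :=
    ⟨_, by rw [mem_closedBall_zero_iff]; linarith, Dom.symm_rep hpar.1⟩
  have hn : 1 ≤ n := by
    rcases n with _ | n
    · exact absurd m1 (Set.disjoint_left.mp 𝓕.disj m2)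
    · omega
  have fixN : rep f⁻¹ 𝓕.φN 𝓕.φN 0 = 0 := by
    rw [rep, hN 0 (mem_ball_self hrN), map_zero,
      𝓕.φN.right_inv (tN (mem_closedBall_self h.N.pos.le))]
  have sN := h.N.sink 𝓕.cN (mem_closedBall_self h.N.pos.le) fixN
  have hwand : 𝓕.φN.symm p ∉ nonwandering f := fun h' =>
    hp0 (𝓕.φN.symm.injOn hpar.1.1 (tN (mem_closedBall_self h.N.pos.le))
      (sN.wand _ m1 (by rwa [nonwandering_inv])))
  simp only [nonwandering, mem_ofPred_eq, not_forall, not_exists, not_and] at hwand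
  obtain ⟨U, hU, hU'⟩ := hwand
  have hV : 𝓕.φN.symm ⁻¹' U ∈ 𝓝 p := (𝓕.φN.continuousAt_symm hpar.1.1).preimage_mem_nhds hU
  -- constants
  obtain ⟨M₀, hM₀, -⟩ := exists_equiv_rep 𝓕.cN 𝓕.cS hpar.1
  obtain ⟨hd, c, hc⟩ := hpar
  rw [← hM₀, ContinuousLinearEquiv.coe_coe] at hc
  obtain ⟨δ, hδ, hδ', hpert⟩ := h.pert univ_mem (Or.inr ⟨rfl, rfl⟩)
  obtain ⟨C, hC, hcut⟩ := exists_cutoff (F × ℝ)
  set k₀ := min 1 (δ / (12 * C)) with hk₀
  have hk0 : 0 < k₀ := by positivity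
  have hk1 : k₀ ≤ 1 := min_le_left _ _
  have hk2 : C * (12 * k₀) ≤ δ := by
    have : k₀ ≤ δ / (12 * C) := min_le_right _ _
    rw [le_div_iff₀ (by positivity)] at this
    linarith
  obtain ⟨θ, κ₁, hθ, hκ₁, htan⟩ := tangency M₀ hc hk0 hk1
  obtain ⟨κ, η, hκ, hη, cS, cN⟩ := exists_cst hS0 hS1 hS2 hN0 hN1 hN2 hκ₁
  have e1 : ∀ᶠ y in 𝓝 p, ‖fderiv ℝ (rep (f ^ n) 𝓕.φN 𝓕.φS) y - M₀‖ < θ / 4 := by
    refine (((contDiffAt_rep 𝓕.cN 𝓕.cS hd).continuousAt_fderiv one_ne_zero).sub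
      continuousAt_const).norm.eventually (gt_mem_nhds ?_)
    show ‖fderiv ℝ (rep (f ^ n) 𝓕.φN 𝓕.φS) p - M₀‖ < θ / 4
    rw [← hM₀, sub_self, ContinuousLinearMap.opNorm_zero]; positivity
  have e2 : ∀ᶠ y in 𝓝 p, ‖rep (f ^ n) 𝓕.φN 𝓕.φS y‖ < r₃ :=
    (contDiffAt_rep 𝓕.cN 𝓕.cS hd).continuousAt.norm.eventually (gt_mem_nhds hr₃)
  have e3 : ∀ᶠ y in 𝓝 p, ‖y‖ < r₁ := continuous_norm.continuousAt.eventually (gt_mem_nhds hr₁)
  have e4 : ∀ᶠ y in 𝓝 p, r₂ * lN < ‖y‖ := continuous_norm.continuousAt.eventually (lt_mem_nhds hr₂')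
  obtain ⟨r, hr, hr'⟩ := Metric.eventually_nhds_iff_ball.mp
    ((e1.and e2).and ((e3.and e4).and ((isOpen_dom.eventually_mem hd).and
      (show ∀ᶠ y in 𝓝 p, y ∈ 𝓕.φN.symm ⁻¹' U from hV))))
  obtain ⟨ρ, rfl⟩ : ∃ ρ, r = 3 * (2 * ρ) := ⟨r / 6, by ring⟩
  have hρ : 0 < ρ := by linarith
  set G : F × ℝ → F × ℝ := fun y => ((k₀ / ρ * (y - p).2) • (y - p).1, 0) with hG
  obtain ⟨χ, -, -, -, χ1, -, hu⟩ := hcut p (2 * ρ) (12 * k₀) G (by linarith) (by positivity)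
    (fun y _ => by simp only [hG]; fun_prop)
    (fun y hy => by
      rw [mem_ball, dist_eq_norm] at hy
      have a1 := (norm_fst_le (y - p)).trans hy.le
      have a2 := (norm_snd_le (y - p)).trans hy.le
      simp only [hG, Prod.norm_mk, norm_zero, norm_smul, norm_mul, norm_div,
        Real.norm_of_nonneg hk0.le, Real.norm_of_nonneg hρ.le]
      refine max_le ?_ (by positivity)
      calc _ ≤ k₀ / ρ * (3 * (2 * ρ)) * (3 * (2 * ρ)) := by gcongr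
        _ = 36 * k₀ * ρ := by field_simp; ring
        _ ≤ _ := by nlinarith [mul_pos hk0 hρ])
    (fun y hy => by
      rw [mem_ball, dist_eq_norm] at hy
      have a1 := (norm_fst_le (y - p)).trans hy.le
      have a2 := (norm_snd_le (y - p)).trans hy.le
      rw [(quad_fderiv (k₀ / ρ) p y).fderiv]
      refine ContinuousLinearMap.opNorm_le_bound _ (by positivity) fun v => ?_
      have a3 := norm_fst_le v
      have a4 := norm_snd_le v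
      simp only [add_apply, shear_apply, smul_apply, ContinuousLinearMap.comp_apply,
        ContinuousLinearMap.coe_fst', ContinuousLinearMap.inl_apply, Prod.smul_mk, smul_zero,
        Prod.mk_add_mk, add_zero, Prod.norm_mk, norm_zero]
      refine max_le ((norm_add_le _ _).trans ?_) (by positivity)
      simp only [norm_smul, norm_mul, norm_div, Real.norm_of_nonneg hk0.le,
        Real.norm_of_nonneg hρ.le]
      calc _ ≤ ‖v‖ * (k₀ / ρ) * (3 * (2 * ρ)) + k₀ / ρ * (3 * (2 * ρ)) * ‖v‖ := by gcongr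
        _ = _ := by field_simp; ring)
  replace hu := hu.mono subset_rfl hk2
  have hsub : closedBall p (2 * (2 * ρ)) ⊆ ball p (3 * (2 * ρ)) :=
    closedBall_subset_ball (by linarith)
  have hK : closedBall p (2 * (2 * ρ)) ⊆ closedBall 0 𝓕.RN := fun y hy => by
    rw [mem_closedBall_zero_iff]; linarith [(hr' y (hsub hy)).2.1.1]
  obtain ⟨τ, hτ⟩ := exists_tr 𝓕.cN (isCompact_closedBall _ _) (hK.trans tN) hu hδ'
  obtain ⟨g1, -⟩ := hpert _ τ (hu.mono hK le_rfl) (hτ.mono hK)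
  obtain ⟨p1, -, -⟩ := wander_pert (f := f) (σ := τ) (U := U)
    (fun x hx => hτ.out x (by rintro ⟨y, hy, rfl⟩; exact hx (hr' y (hsub hy)).2.2.2))
    (fun n hn x hx hx' => hU' n hn ⟨_, ⟨x, hx, rfl⟩, hx'⟩)
  set g := f * τ with hg
  have nS : Near g 𝓕.φS r₃ lS mS 0 := by
    refine near_lam hS0.le hS1.le hS2 (r' := rS) (fun y hy => tS (ball_subset_closedBall
      (ball_subset_ball hrS' hy))) (fun y hy => ?_) ((norm_nonneg _).trans_lt hr₃) hr₃'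
    rw [hg, diff_mul_apply, (hτ.mono hK).out _ (Set.disjoint_left.mp 𝓕.disj
      ⟨y, ball_subset_closedBall (ball_subset_ball hrS' hy), rfl⟩), hS y hy]
  have nN : Near g⁻¹ 𝓕.φN r₁ lN mN 0 := by
    have t2 : ball (0 : F × ℝ) r₂ ⊆ 𝓕.φN.target := fun y hy => tN (ball_subset_closedBall
      (ball_subset_ball (by linarith) hy))
    refine near_lam hN0.le hN1.le hN2 (r' := r₂) t2 (fun y hy => ?_) (hp1.trans hr₁) hr₁'
    rw [hg, mul_inv_rev, diff_mul_apply, hN y (ball_subset_ball hr₂N.le hy)]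
    apply diff_inj τ
    rw [diff_apply_inv, hτ.out]
    rintro ⟨z, hz, e⟩
    have a1 := 𝓕.φN.symm.injOn (tN (hK hz)) (t2 (Lam_mem hN0.le hN1.le hN2 hy)) e
    have a2 := (hr' z (hsub hz)).2.1.2
    have a3 := Lam_norm_le hN0.le hN1.le y
    rw [mem_ball_zero_iff] at hy
    rw [a1] at a2
    nlinarith
  have hy : ∀ ξ ∈ closedBall (0 : F) ρ, p + (ξ, 0) ∈ ball p (2 * ρ) := fun ξ hξ => by
    rw [mem_closedBall_zero_iff] at hξ
    rw [mem_ball, dist_eq_norm, add_sub_cancel_left, Prod.norm_mk, norm_zero,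
      max_eq_left (norm_nonneg _)]
    linarith
  have key : ∀ ξ ∈ closedBall (0 : F) ρ, p + (ξ, 0) ∈ Dom (g ^ n) 𝓕.φN 𝓕.φS ∧
      ‖rep (g ^ n) 𝓕.φN 𝓕.φS (p + (ξ, 0))‖ < r₃ ∧
      ‖fderiv ℝ (rep (g ^ n) 𝓕.φN 𝓕.φS) (p + (ξ, 0)) - (M₀ : F × ℝ →L[ℝ] F × ℝ).comp
        (ContinuousLinearMap.id ℝ _ + shear (k₀ / ρ) ξ)‖ ≤ θ / 2 := by
    intro ξ hξ
    have a0 := hy ξ hξ
    have a0' := hr' _ (ball_subset_ball (by linarith) a0)
    have a1 : p + (ξ, 0) ∈ 𝓕.φN.target := a0'.2.2.1.1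
    have a2 : ∀ᶠ z in 𝓝 (p + (ξ, 0)), (g ^ n) (𝓕.φN.symm z) = (f ^ n * τ) (𝓕.φN.symm z) := by
      filter_upwards [isOpen_ball.mem_nhds a0] with z hz
      obtain ⟨n, rfl⟩ : ∃ n', n = n' + 1 := ⟨n - 1, by omega⟩
      rw [diff_coe_pow, p1 n _ (hr' z (ball_subset_ball (by linarith) hz)).2.2.2, diff_mul_apply,
        diff_coe_pow]
    have a3 : rep τ 𝓕.φN 𝓕.φN (p + (ξ, 0)) = p + (ξ, 0) := by
      rw [hτ.rep_eq a1]; simp [hG]
    have a4 : fderiv ℝ (rep τ 𝓕.φN 𝓕.φN) (p + (ξ, 0)) =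
        ContinuousLinearMap.id ℝ _ + shear (k₀ / ρ) ξ := by
      rw [hτ.fderiv_rep hu a1]
      have : (fun y => χ y • G y) =ᶠ[𝓝 (p + (ξ, 0))] G := by
        filter_upwards [isOpen_ball.mem_nhds a0] with z hz
        rw [χ1 z (ball_subset_closedBall hz), one_smul]
      rw [this.fderiv_eq, (quad_fderiv (k₀ / ρ) p _).fderiv]
      simp
    have a5 : rep (g ^ n) 𝓕.φN 𝓕.φS =ᶠ[𝓝 (p + (ξ, 0))] rep (f ^ n * τ) 𝓕.φN 𝓕.φS :=
      a2.mono fun z hz => by simp only [rep, hz]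
    have a6 := hτ.dom a1
    have a7 : rep τ 𝓕.φN 𝓕.φN (p + (ξ, 0)) ∈ Dom (f ^ n) 𝓕.φN 𝓕.φS := a3.symm ▸ a0'.2.2.1
    refine ⟨⟨a1, a2.self_of_nhds ▸ (Dom.mul a6 a7).2⟩, ?_, ?_⟩
    · rw [a5.self_of_nhds, Dom.rep_mul a6, a3]; exact a0'.1.2
    · rw [a5.fderiv_eq, fderiv_rep_mul 𝓕.cN 𝓕.cN 𝓕.cS a6 a7, a3, a4,
        ← ContinuousLinearMap.sub_comp]
      refine (ContinuousLinearMap.opNorm_comp_le _ _).trans ?_
      have b1 : ‖ContinuousLinearMap.id ℝ (F × ℝ) + shear (k₀ / ρ) ξ‖ ≤ 2 := by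
        refine ContinuousLinearMap.opNorm_le_bound _ (by positivity) fun v => ?_
        rw [add_apply, ContinuousLinearMap.id_apply, shear_apply]
        refine (norm_add_le _ _).trans ?_
        rw [mem_closedBall_zero_iff] at hξ
        have a4 := norm_snd_le v
        have : ‖(((v.2 * (k₀ / ρ)) • ξ, 0) : F × ℝ)‖ ≤ ‖v‖ := by
          simp only [Prod.norm_mk, norm_zero, norm_smul, norm_mul, norm_div,
            Real.norm_of_nonneg hk0.le, Real.norm_of_nonneg hρ.le]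
          refine max_le ?_ (norm_nonneg _)
          calc _ ≤ ‖v‖ * (1 / ρ) * ρ := by gcongr
            _ = _ := by field_simp
        linarith
      calc _ ≤ θ / 4 * 2 := by gcongr; exact a0'.1.1.le
        _ = _ := by ring
  have hyc : Continuous fun ξ : F => p + (ξ, 0) := by fun_prop
  have hKc : IsCompact ((fun ξ : F => p + (ξ, 0)) '' closedBall 0 ρ) :=
    (isCompact_closedBall _ _).image hyc
  have hKd : (fun ξ : F => p + (ξ, 0)) '' closedBall 0 ρ ⊆ Dom (g ^ n) 𝓕.φN 𝓕.φS := by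
    rintro _ ⟨ξ, hξ, rfl⟩; exact (key ξ hξ).1
  have c1 := (continuous_pow n).continuousAt.eventually
    (eventually_rep_close 𝓕.cN 𝓕.cS hKc hKd (half_pos hθ))
  have c2 := (continuous_pow n).continuousAt.eventually (eventually_mapsTo (f := g ^ n)
    (isCompact_symm_image hKc fun y hy => (hKd hy).1)
    (𝓕.φS.isOpen_inter_preimage (isOpen_ball (x := (0 : F × ℝ)) (ε := r₃)))
    (by
      rintro _ ⟨_, ⟨ξ, hξ, rfl⟩, rfl⟩
      exact ⟨(key ξ hξ).1.2, mem_ball_zero_iff.mpr (key ξ hξ).2.1⟩))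
  refine ⟨g, ⟨r₃, r₁, lS, mS, lN, mN, κ, η, n, p, ρ⟩, g1, ?_⟩
  filter_upwards [c1, c2, nS.eventually 𝓕.cS hη,
    continuous_inv.continuousAt.eventually (nN.eventually 𝓕.cN hη)] with g' h1 h2 h3 h4
  refine ⟨by linarith, by linarith, cS, cN, h3, h4, fun ξ hξ => ⟨?_, (h1 _ ⟨ξ, hξ, rfl⟩).1,
    ball_subset_closedBall (h2 ⟨_, ⟨ξ, hξ, rfl⟩, rfl⟩).2⟩, htan κ ρ hκ hρ _ ?_ fun ξ hξ => ?_⟩
  · exact mem_closedBall_zero_iff.mpr (hr' _ (ball_subset_ball (by linarith) (hy ξ hξ))).2.1.1.le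
  · exact (continuousOn_fderiv_rep 𝓕.cN 𝓕.cS).comp hyc.continuousOn
      fun ξ hξ => (h1 _ ⟨ξ, hξ, rfl⟩).1
  · have a1 := (h1 _ ⟨ξ, hξ, rfl⟩).2
    have a2 := (key ξ hξ).2.2
    refine le_trans (norm_sub_le_norm_sub_add_norm_sub _
      (fderiv ℝ (rep (g ^ n) 𝓕.φN 𝓕.φS) (p + (ξ, 0))) _) ?_
    linarith

end Pool.Agent.Lib.MP_95f3db_an
end
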