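import Pool.Agent.Lib.MP_95f3db_an.Chart

/-!
# Existence of Morse functions on compact manifolds
-/

namespace Pool.Agent.Lib.MP_95f3db_an

open scoped Manifold ContDiff Topology
open Set Filter Metric Function MeasureTheory

variable {E : Type*} [NormedAddCommGroup E] [NormedSpace ℝ E] [FiniteDimensional ℝ E]

/-- All critical points in `K` are nondegenerate. -/
def NondegOn (h : E → ℝ) (K : Set E) : Prop :=
  ∀ y ∈ K, fderiv ℝ h y = 0 → ∀ v ∈ sphere (0 : E) 1, fderiv ℝ (fderiv ℝ h) y v ≠ 0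

lemma good_open {A : Type*} [NormedAddCommGroup A] [NormedSpace ℝ A] {Φ : A × E → ℝ} {K : Set E}
    (hK : IsCompact K) {O : Set E} (hKO : K ⊆ O)
    (hΦ : ∀ a, ∀ y ∈ O, ContDiffAt ℝ 2 Φ (a, y)) :
    IsOpen {a | NondegOn (fun z => Φ (a, z)) K} := by
  have : ProperSpace E := FiniteDimensional.proper ℝ E
  have h1 : ∀ a, ∀ y ∈ O, ContDiffAt ℝ 1 (fun p : A × E => fderiv ℝ (fun z => Φ (p.1, z)) p.2)
      (a, y) := fun a y hy =>
    ContDiffAt.fderiv (f := fun (p : A × E) z => Φ (p.1, z)) (n := 2)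
      ((hΦ a y hy).comp ((a, y), y) (f := fun q : (A × E) × E => (q.1.1, q.2)) (by fun_prop))
      contDiffAt_snd (by norm_num)
  have h2 : ∀ a, ∀ y ∈ O, ContDiffAt ℝ 0
      (fun p : A × E => fderiv ℝ (fderiv ℝ fun z => Φ (p.1, z)) p.2) (a, y) := fun a y hy =>
    ContDiffAt.fderiv (f := fun (p : A × E) z => fderiv ℝ (fun z => Φ (p.1, z)) z) (n := 1)
      ((h1 a y hy).comp ((a, y), y) (f := fun q : (A × E) × E => (q.1.1, q.2)) (by fun_prop))
      contDiffAt_snd (by norm_num)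
  rw [isOpen_iff_mem_nhds]
  intro a ha
  have h3 : ∀ᶠ a' in 𝓝 a, ∀ q ∈ K ×ˢ sphere (0 : E) 1, fderiv ℝ (fun z => Φ (a', z)) q.1 ≠ 0 ∨
      fderiv ℝ (fderiv ℝ fun z => Φ (a', z)) q.1 q.2 ≠ 0 := by
    refine (hK.prod (isCompact_sphere _ _)).eventually_forall_of_forall_eventually fun q hq => ?_
    have c0 : ContinuousAt (fun z : A × (E × E) => (z.1, z.2.1)) (a, q) := by fun_prop
    by_cases h : fderiv ℝ (fun z => Φ (a, z)) q.1 = 0
    · have c := ((h2 a q.1 (hKO hq.1)).continuousAt.comp_of_eq c0 rfl).clm_apply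
        (g := fun z : A × (E × E) => z.2.2) (by fun_prop)
      exact (c.eventually_ne (ha q.1 hq.1 h q.2 hq.2)).mono fun z hz => Or.inr hz
    · have c := (h1 a q.1 (hKO hq.1)).continuousAt.comp_of_eq c0 rfl
      exact (c.eventually_ne h).mono fun z hz => Or.inl hz
  filter_upwards [h3] with a' ha' y hy h v hv
  exact (ha' (y, v) ⟨hy, hv⟩).resolve_left (not_not.mpr h)

lemma good_dense {h : E → ℝ} {K : Set E} (hh : ∀ y ∈ K, ContDiffAt ℝ 2 h y) :
    Dense {b : E →L[ℝ] ℝ | NondegOn (fun z => h z + b z) K} := by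
  borelize E
  have Θ : (E →L[ℝ] ℝ) ≃L[ℝ] E := ContinuousLinearEquiv.ofFinrankEq (by
    rw [← (LinearMap.toContinuousLinearMap (𝕜 := ℝ) (E := E) (F' := ℝ)).finrank_eq]
    exact Subspace.dual_finrank_eq)
  have hd : ∀ y ∈ K, HasFDerivAt (fderiv ℝ h) (fderiv ℝ (fderiv ℝ h) y) y := fun y hy =>
    (((hh y hy).fderiv_right (m := 1) (by norm_num)).differentiableAt one_ne_zero).hasFDerivAt
  set s := {y ∈ K | ∃ v ∈ sphere (0 : E) 1, fderiv ℝ (fderiv ℝ h) y v = 0} with hs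
  have h0 : (Measure.addHaar : Measure E) ((fun y => Θ (-fderiv ℝ h y)) '' s) = 0 := by
    refine addHaar_image_eq_zero_of_det_fderivWithin_eq_zero _
      (f' := fun y => (Θ : (E →L[ℝ] ℝ) →L[ℝ] E).comp (-fderiv ℝ (fderiv ℝ h) y))
      (fun y hy => (Θ.hasFDerivAt.comp y (hd y hy.1).neg).hasFDerivWithinAt) fun y hy => ?_
    obtain ⟨-, v, hv, hv'⟩ := hy
    refine LinearMap.det_eq_zero_iff_ker_ne_bot.mpr fun hk => ?_
    have : v = 0 := LinearMap.ker_eq_bot'.mp hk v (by simp [hv'])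
    simp [this] at hv
  have h1 : Dense {x | x ∉ (fun y => Θ (-fderiv ℝ h y)) '' s} :=
    Measure.dense_of_ae (μ := Measure.addHaar) (compl_mem_ae_iff.mpr h0)
  refine Dense.mono (fun b hb y hy e v hv e' => ?_) (h1.preimage Θ.isOpenMap)
  refine hb ⟨y, ⟨hy, v, hv, ?_⟩, ?_⟩
  · have : fderiv ℝ (fun z => h z + b z) =ᶠ[𝓝 y] fun z => fderiv ℝ h z + b := by
      filter_upwards [(hh y hy).eventually (by simp)] with z hz
      exact ((hz.differentiableAt (by norm_num)).hasFDerivAt.add b.hasFDerivAt).fderiv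
    rwa [this.fderiv_eq, fderiv_add_const] at e'
  · have := (((hh y hy).differentiableAt (by norm_num)).hasFDerivAt.add b.hasFDerivAt).fderiv
    have e2 : fderiv ℝ h y + b = 0 := this.symm.trans e
    simp only
    rw [neg_eq_of_add_eq_zero_right e2]

omit [FiniteDimensional ℝ E] in
lemma NondegOn.injective {h : E → ℝ} {K : Set E} (H : NondegOn h K) {y : E} (hy : y ∈ K)
    (h0 : fderiv ℝ h y = 0) : Injective (fderiv ℝ (fderiv ℝ h) y) := by
  rw [injective_iff_map_eq_zero]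
  intro v hv
  by_contra hne
  have hn : 0 < ‖v‖ := norm_pos_iff.mpr hne
  refine H y hy h0 (‖v‖⁻¹ • v) ?_ (by rw [map_smul, hv, smul_zero])
  rw [mem_sphere_zero_iff_norm, norm_smul, norm_inv, norm_norm, inv_mul_cancel₀ hn.ne']

lemma NondegOn.finite {h : E → ℝ} {K : Set E} (H : NondegOn h K) (hK : IsCompact K)
    (hh : ∀ y ∈ K, ContDiffAt ℝ 2 h y) : {y ∈ K | fderiv ℝ h y = 0}.Finite := by
  have hd : ∀ y ∈ K, HasFDerivAt (fderiv ℝ h) (fderiv ℝ (fderiv ℝ h) y) y := fun y hy =>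
    (((hh y hy).fderiv_right (m := 1) (by norm_num)).differentiableAt one_ne_zero).hasFDerivAt
  refine IsCompact.finite ?_ (isDiscrete_iff_nhdsNE.mpr fun y hy => ?_)
  · refine hK.of_isClosed_subset ?_ (sep_subset _ _)
    exact ContinuousOn.preimage_isClosed_of_isClosed (t := {0})
      (fun y hy => (hd y hy).continuousAt.continuousWithinAt) hK.isClosed isClosed_singleton
  · obtain ⟨C, -, hC⟩ := LinearMap.exists_antilipschitzWith
      (fderiv ℝ (fderiv ℝ h) y : E →ₗ[ℝ] E →L[ℝ] ℝ)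
      (LinearMap.ker_eq_bot.mpr (H.injective hy.1 hy.2))
    rw [inf_principal_eq_bot]
    exact ((hd y hy.1).eventually_ne (c := 0) ⟨C, hC⟩).mono fun z hz h' => hz h'.2

variable {M : Type*} [TopologicalSpace M] [ChartedSpace E M]

theorem exists_morse [IsManifold 𝓘(ℝ, E) ∞ M] [CompactSpace M] [T2Space M] :
    ∃ (φ : M → ℝ) (C : Set M), Continuous φ ∧ C.Finite ∧
      (∀ x ∉ C, ∃ ψ : OpenPartialHomeomorph M E, IsChart E ψ ∧ x ∈ ψ.source ∧
        ContDiffAt ℝ 2 (φ ∘ ψ.symm) (ψ x) ∧ fderiv ℝ (φ ∘ ψ.symm) (ψ x) ≠ 0) ∧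
      (∀ x ∈ C, ∃ ψ : OpenPartialHomeomorph M E, IsChart E ψ ∧ x ∈ ψ.source ∧
        ContDiffAt ℝ 2 (φ ∘ ψ.symm) (ψ x) ∧ fderiv ℝ (φ ∘ ψ.symm) (ψ x) = 0 ∧
        Injective (fderiv ℝ (fderiv ℝ (φ ∘ ψ.symm)) (ψ x))) := by
  classical
  have : CompleteSpace E := FiniteDimensional.complete ℝ E
  have b : ∀ x : M, SmoothBumpFunction 𝓘(ℝ, E) x := fun x => Classical.arbitrary _
  have hK : ∀ x : M, ∃ K ∈ 𝓝 x, K ⊆ {z | b x =ᶠ[𝓝 z] 1} ∩ (chartAt E x).source ∧ IsCompact K :=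
    fun x => local_compact_nhds (inter_mem (b x).eventuallyEq_one.eventually_nhds
      (chart_source_mem_nhds E x))
  choose K K1 K2 K3 using hK
  obtain ⟨t, -, ht⟩ := isCompact_univ.elim_nhds_subcover K fun x _ => K1 x
  set g : t → M → E := fun i z => b i z • chartAt E (i : M) z with hg
  have hgc : ∀ i, ContMDiff 𝓘(ℝ, E) 𝓘(ℝ, E) ∞ (g i) := fun i =>
    (b i).contMDiff_smul contMDiffOn_chart
  have hh : ∀ i (j : M), ∀ y ∈ (chartAt E j).target,
      ContDiffAt ℝ 2 (g i ∘ (chartAt E j).symm) y := fun i j y hy => by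
    rw [← contMDiffAt_iff_contDiffAt]
    exact ((hgc i).contMDiffAt.comp y (contMDiffOn_chart_symm.contMDiffAt
      ((chartAt E j).open_target.mem_nhds hy))).of_le (by norm_cast)
  set Φ : M → (t → E →L[ℝ] ℝ) × E → ℝ := fun j p => ∑ i, p.1 i (g i ((chartAt E j).symm p.2))
    with hΦ
  have hΦc : ∀ j a, ∀ y ∈ (chartAt E j).target, ContDiffAt ℝ 2 (Φ j) (a, y) := fun j a y hy =>
    ContDiffAt.sum fun i _ => ContDiffAt.clm_apply (by fun_prop)
      ((hh i j y hy).comp (a, y) contDiffAt_snd)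
  have hΦc' : ∀ j a, ∀ y ∈ (chartAt E j).target, ContDiffAt ℝ 2 (fun z => Φ j (a, z)) y :=
    fun j a y hy => (hΦc j a y hy).comp y (f := fun z => (a, z)) (by fun_prop)
  have hKc : ∀ j, IsCompact (chartAt E j '' K j) := fun j =>
    (K3 j).image_of_continuousOn ((chartAt E j).continuousOn.mono fun z hz => (K2 j hz).2)
  have hKt : ∀ j, chartAt E j '' K j ⊆ (chartAt E j).target := by
    rintro j _ ⟨z, hz, rfl⟩; exact (chartAt E j).map_source (K2 j hz).2
  have hdense : ∀ j : t, Dense {a | NondegOn (fun z => Φ j (a, z)) (chartAt E (j : M) '' K j)} := by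
    intro j a
    have h1 := good_dense fun y hy => hΦc' j a y (hKt j hy)
    have h2 : ContinuousAt (fun c : E →L[ℝ] ℝ => a + Pi.single j c) 0 :=
      (continuous_const.add (continuous_single (A := fun _ : t => E →L[ℝ] ℝ) j)).continuousAt
    have h3 := mem_closure_image h2 (h1 0)
    rw [Pi.single_zero, add_zero] at h3
    refine closure_mono ?_ h3
    rintro _ ⟨c, hc, rfl⟩ y hy
    have e : (fun z => Φ j (a + Pi.single j c, z)) =ᶠ[𝓝 y] fun z => Φ j (a, z) + c z := by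
      obtain ⟨x, hx, rfl⟩ := hy
      have h4 := (chartAt E (j : M)).continuousAt_symm (hKt j ⟨x, hx, rfl⟩)
      rw [ContinuousAt, (chartAt E (j : M)).left_inv (K2 j hx).2] at h4
      filter_upwards [h4.eventually (K2 j hx).1,
        (chartAt E (j : M)).open_target.mem_nhds (hKt j ⟨x, hx, rfl⟩)] with z hz hz'
      simp only [hΦ, Pi.add_apply, add_apply, Finset.sum_add_distrib]
      congr 1
      rw [Finset.sum_eq_single j (fun i _ hi => by simp [Pi.single_eq_of_ne hi]) (by simp)]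
      simp only [Pi.single_eq_same, hg, hz, Pi.one_apply, one_smul]
      rw [(chartAt E (j : M)).right_inv hz']
    rw [e.fderiv_eq, e.fderiv.fderiv_eq]
    exact hc y hy
  obtain ⟨a, ha⟩ := (dense_iInter_of_isOpen (fun j : t => good_open (hKc j)
    (hKt j) (hΦc j)) hdense).nonempty
  rw [mem_iInter] at ha
  refine ⟨fun x => ∑ i, a i (g i x),
    {x | ∀ j : t, x ∈ K j → fderiv ℝ (fun z => Φ j (a, z)) (chartAt E (j : M) x) = 0},
    continuous_finsetSum _ fun i _ => (a i).continuous.comp (hgc i).continuous, ?_, ?_, ?_⟩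
  · refine (finite_iUnion fun j : t => ((ha j).finite (hKc j) fun y hy =>
      hΦc' j a y (hKt j hy)).image (chartAt E (j : M)).symm).subset fun x hx => ?_
    obtain ⟨j, hj, hx'⟩ := mem_iUnion₂.mp (ht (mem_univ x))
    exact mem_iUnion.mpr ⟨⟨j, hj⟩, _, ⟨⟨x, hx', rfl⟩, hx ⟨j, hj⟩ hx'⟩,
      (chartAt E j).left_inv (K2 j hx').2⟩
  · intro x hx
    simp only [mem_ofPred_eq, not_forall] at hx
    obtain ⟨j, hj, hx⟩ := hx
    exact ⟨chartAt E (j : M), isChart_chartAt _, (K2 j hj).2, hΦc' j a _ (hKt j ⟨x, hj, rfl⟩), hx⟩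
  · intro x hx
    obtain ⟨j, hj, hx'⟩ := mem_iUnion₂.mp (ht (mem_univ x))
    exact ⟨chartAt E j, isChart_chartAt _, (K2 j hx').2, hΦc' j a _ (hKt j ⟨x, hx', rfl⟩),
      hx ⟨j, hj⟩ hx', (ha ⟨j, hj⟩).injective ⟨x, hx', rfl⟩ (hx ⟨j, hj⟩ hx')⟩

end Pool.Agent.Lib.MP_95f3db_an
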