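import Pool.Agent.Lib.MP_95f3db_an.Top

/-!
# Changing an Axiom A no-cycle diffeomorphism inside the basins of a sink and of a source
-/

namespace Pool.Agent.Lib.MP_95f3db_an

open scoped Manifold ContDiff Topology
open Set Filter Metric Function

section general

variable {M : Type*} [TopologicalSpace M]

lemma isClosed_nonwandering (f : M → M) : IsClosed (nonwandering f) := by
  rw [← isOpen_compl_iff, isOpen_iff_mem_nhds]
  intro x hx
  simp only [nonwandering, mem_compl_iff, mem_ofPred_eq, not_forall] at hx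
  obtain ⟨U, hU, h⟩ := hx
  filter_upwards [eventually_mem_nhds_iff.mpr hU] with y hy hy'
  exact h (hy' U hy)

lemma fixed_mem_nonwandering {f : M → M} {x : M} (h : f x = x) : x ∈ nonwandering f :=
  fun _ hU => ⟨1, le_rfl, x, ⟨x, mem_of_mem_nhds hU, h⟩, mem_of_mem_nhds hU⟩

end general

variable {E : Type*} [NormedAddCommGroup E] [NormedSpace ℝ E] {M : Type*} [TopologicalSpace M]
  [ChartedSpace E M]

lemma iterate_inv_iterate (f : Diff1 E M) (n : ℕ) (x : M) : (⇑f⁻¹)^[n] (f^[n] x) = x :=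
  (Function.LeftInverse.iterate (g := ⇑f⁻¹) (f := f) (diff_inv_apply f) n) x

lemma nonwandering_inv_subset (f : Diff1 E M) : nonwandering ⇑f ⊆ nonwandering ⇑f⁻¹ := by
  intro x hx U hU
  obtain ⟨n, hn, _, ⟨a, ha, rfl⟩, hb⟩ := hx U hU
  exact ⟨n, hn, a, ⟨_, hb, iterate_inv_iterate f n a⟩, ha⟩

lemma nonwandering_inv (f : Diff1 E M) : nonwandering ⇑f⁻¹ = nonwandering ⇑f :=
  Subset.antisymm (by simpa using nonwandering_inv_subset f⁻¹) (nonwandering_inv_subset f)

lemma tang_snd_zero (f : Diff1 E M) {w : TM E M} (h : w.2 = 0) : (tang f w).2 = 0 := by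
  show mfderiv 𝓘(ℝ, E) 𝓘(ℝ, E) f w.1 w.2 = 0
  rw [h, map_zero]

lemma tang_snd_eq_zero (f : Diff1 E M) (w : TM E M) : (tang f w).2 = 0 ↔ w.2 = 0 := by
  refine ⟨fun h => ?_, tang_snd_zero f⟩
  have := tang_snd_zero f⁻¹ h
  rwa [← tang_mul, inv_mul_cancel, tang_one] at this

lemma len_nonneg (g : ∀ x : M, LinearMap.BilinForm ℝ (TangentSpace 𝓘(ℝ, E) x)) (w : TM E M) :
    0 ≤ len g w := Real.sqrt_nonneg _

lemma len_zero (g : ∀ x : M, LinearMap.BilinForm ℝ (TangentSpace 𝓘(ℝ, E) x)) {w : TM E M}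
    (h : w.2 = 0) : len g w = 0 := by
  simp [len, h]

/-- Exponential contraction of the whole tangent space at a point. -/
def ContrAt (g : ∀ x : M, LinearMap.BilinForm ℝ (TangentSpace 𝓘(ℝ, E) x)) (f : Diff1 E M)
    (S : M) : Prop :=
  ∃ C l : ℝ, 0 < C ∧ 0 < l ∧ l < 1 ∧ ∀ w : TM E M, w.1 = S →
    ∀ n : ℕ, len g ((tang f)^[n] w) ≤ C * l ^ n * len g w

open Classical in
lemma contracted_surgery {g : ∀ x : M, LinearMap.BilinForm ℝ (TangentSpace 𝓘(ℝ, E) x)}
    {f f' : Diff1 E M} {Ω' Λ : Set M} {F : ∀ x : M, Submodule ℝ (TangentSpace 𝓘(ℝ, E) x)}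
    {S N : M} (h1 : MapsTo f Ω' Ω') (h2 : ∀ x ∈ Ω', f' =ᶠ[𝓝 x] f) (h3 : Contracted g f Λ F)
    (h4 : Ω' ⊆ Λ) (hS : S ∉ Ω') (hN : N ∉ Ω') (hSN : S ≠ N) (hS' : f' S = S) (hN' : f' N = N)
    (h5 : ContrAt g f' S) :
    Contracted g f' (Ω' ∪ {S, N}) fun x => if x = S then ⊤ else if x = N then ⊥ else F x := by
  have m1 : ∀ w : TM E M, w.1 = S →
      w.2 ∈ (if w.1 = S then ⊤ else if w.1 = N then ⊥ else F w.1) := fun w hw => by
    rw [if_pos hw]; trivial
  have m2 : ∀ w : TM E M, w.1 = N →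
      (w.2 ∈ (if w.1 = S then ⊤ else if w.1 = N then ⊥ else F w.1) ↔ w.2 = 0) := fun w hw => by
    rw [if_neg (by rw [hw]; exact hSN.symm), if_pos hw, Submodule.mem_bot]
  have m3 : ∀ w : TM E M, w.1 ∈ Ω' →
      (w.2 ∈ (if w.1 = S then ⊤ else if w.1 = N then ⊥ else F w.1) ↔ w.2 ∈ F w.1) := fun w hw => by
    rw [if_neg (by rintro h; exact hS (h ▸ hw)), if_neg (by rintro h; exact hN (h ▸ hw))]
  have it : ∀ (n : ℕ) (w : TM E M), w.1 ∈ Ω' → (tang f')^[n] w = (tang f)^[n] w := by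
    intro n
    induction n with
    | zero => intro w _; rfl
    | succ n ih =>
      intro w hw
      rw [iterate_succ_apply, iterate_succ_apply, tang_congr (h2 _ hw), ih _ (h1 hw)]
  obtain ⟨hinv, C, l, hC, hl, hl1, hb⟩ := h3
  obtain ⟨C', l', hC', hl', hl1', hb'⟩ := h5
  refine ⟨?_, max C C', max l l', by positivity, by positivity, max_lt hl1 hl1', ?_⟩
  · rintro w (hw | hw | hw)
    · rw [m3 w hw, tang_congr (h2 _ hw), m3 _ (h1 hw)]
      exact hinv w (h4 hw)
    · exact iff_of_true (m1 w hw) (m1 _ (by rw [tang_fst, hw, hS']))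
    · rw [m2 w hw, m2 _ (by rw [tang_fst, hw, hN']), tang_snd_eq_zero]
  · rintro w (hw | hw | hw) hw' n
    · rw [it n w hw]
      refine (hb w (h4 hw) ((m3 w hw).mp hw') n).trans ?_
      have := len_nonneg g w
      gcongr
      · exact le_max_left _ _
      · exact le_max_left _ _
    · refine (hb' w hw n).trans ?_
      have := len_nonneg g w
      gcongr
      · exact le_max_right _ _
      · exact le_max_right _ _
    · have h0 := (m2 w hw).mp hw'
      have : ((tang f')^[n] w).2 = 0 := by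
        induction n with
        | zero => exact h0
        | succ n ih => rw [iterate_succ_apply']; exact tang_snd_zero _ ih
      rw [len_zero g this, len_zero g h0, mul_zero]

variable [IsManifold 𝓘(ℝ, E) 1 M]

/-- A hyperbolic sink with a closed trapping region. -/
structure Sink (f : Diff1 E M) (B : Set M) (S : M) : Prop where
  closed : IsClosed B
  maps : MapsTo f B B
  fix : f S = S
  int : B ∈ 𝓝 S
  tend : ∀ x ∈ B, Tendsto (fun n : ℕ => f^[n] x) atTop (𝓝 S)
  wand : ∀ x ∈ B, x ∈ nonwandering f → x = S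
  back : ∀ x, Tendsto (fun n : ℕ => (⇑f⁻¹)^[n] x) atTop (𝓝 S) → x = S
  hyp : ∀ g, IsRiemannian g → ContrAt g f S

lemma Sink.mem {f : Diff1 E M} {B : Set M} {S : M} (h : Sink f B S) : S ∈ B :=
  mem_of_mem_nhds h.int

omit [IsManifold 𝓘(ℝ, E) 1 M] in
lemma seg_eq {f f' : Diff1 E M} {BS BN : Set M} (h1 : MapsTo f BS BS) (h2 : MapsTo ⇑f⁻¹ BN BN)
    (h : ∀ x ∉ BS ∪ BN, f' x = f x) (n : ℕ) :
    ∀ y, y ∉ BN → f^[n] y ∉ BS → f'^[n] y = f^[n] y := by
  induction n with
  | zero => intro y _ _; rfl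
  | succ n ih =>
    intro y hy hy'
    have : y ∉ BS := fun h' => hy' (h1.iterate _ h')
    rw [iterate_succ_apply, iterate_succ_apply, h y (by simp [hy, this])]
    exact ih _ (fun h' => hy (by simpa using h2 h')) hy'

omit [IsManifold 𝓘(ℝ, E) 1 M] in
lemma nonwandering_transfer {f f' : Diff1 E M} {BS BN : Set M} (hS : IsClosed BS)
    (hN : IsClosed BN) (h1 : MapsTo f BS BS) (h2 : MapsTo ⇑f⁻¹ BN BN)
    (h : ∀ x ∉ BS ∪ BN, f' x = f x) {x : M} (hx : x ∈ nonwandering f) (hx' : x ∉ BS ∪ BN) :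
    x ∈ nonwandering f' := by
  intro U hU
  obtain ⟨n, hn, _, ⟨a, ha, rfl⟩, hb⟩ :=
    hx _ (inter_mem hU ((hS.union hN).isOpen_compl.mem_nhds hx'))
  exact ⟨n, hn, _, ⟨a, ha.1, seg_eq h1 h2 h n a (fun h' => ha.2 (Or.inr h'))
    (fun h' => hb.2 (Or.inl h'))⟩, hb.1⟩

omit [IsManifold 𝓘(ℝ, E) 1 M] in
lemma zpow_mem {f : Diff1 E M} {Λ : Set M} (h : f '' Λ = Λ) (n : ℤ) {x : M} (hx : x ∈ Λ) :
    (f ^ n) x ∈ Λ := by
  induction n using Int.induction_on with
  | zero => simpa using hx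
  | succ n ih =>
    rw [add_comm, zpow_one_add, diff_mul_apply, ← h]
    exact ⟨_, ih, rfl⟩
  | pred n ih =>
    rw [sub_eq_neg_add, zpow_add, zpow_neg_one, diff_mul_apply]
    rw [← h] at ih
    obtain ⟨y, hy, e⟩ := ih
    rwa [← e, diff_inv_apply]

omit [IsManifold 𝓘(ℝ, E) 1 M] in
lemma zpow_fix {f : Diff1 E M} {x : M} (h : f x = x) (n : ℤ) : (f ^ n) x = x := by
  have := zpow_mem (f := f) (Λ := {x}) (by simp [h]) n (mem_singleton x)
  exact this

omit [IsManifold 𝓘(ℝ, E) 1 M] in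
lemma basic_eq_singleton [T1Space M] {f : Diff1 E M} {Λ B : Set M} {S : M} (hΛ : IsBasicSet f Λ)
    (hS : S ∈ Λ) (hB : B ∈ 𝓝 S) (hfix : f S = S) (hw : ∀ x ∈ B, x ∈ nonwandering f → x = S) :
    Λ = {S} := by
  obtain ⟨h1, -, -, h2, x, hx, h3⟩ := hΛ
  obtain ⟨_, hy, n, rfl⟩ := mem_closure_iff_nhds.mp (h3 hS) B hB
  simp only [diff_zpow_apply] at hy h3
  have h4 := hw _ hy (h1 (zpow_mem h2 n hx))
  have h5 : x = S := by
    have := congrArg (f ^ (-n)) h4
    rwa [zpow_fix hfix, ← diff_mul_apply, ← zpow_add, neg_add_cancel, zpow_zero] at this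
  subst h5
  refine Subset.antisymm (h3.trans ?_) (by simpa using hS)
  simp [zpow_fix hfix]

theorem surgery [CompactSpace M] [T2Space M] {f f' : Diff1 E M} {BS BN : Set M} {S N S' N' : M}
    (hf : f ∈ axiomANoCycles E M) (hS : Sink f BS S) (hN : Sink f⁻¹ BN N) (hS' : Sink f' BS S')
    (hN' : Sink f'⁻¹ BN N') (hd : Disjoint BS BN) (h : ∀ x ∉ BS ∪ BN, f' x = f x) :
    f' ∈ axiomANoCycles E M := by
  classical
  obtain ⟨⟨⟨-, hinv, g, hg, Es, Eu, hcompl, hEs, hEu⟩, hper⟩, hcyc⟩ := hf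
  set Ω' := nonwandering f \ (BS ∪ BN) with hΩ'
  have hfN : f N = N := by conv_lhs => rw [← hN.fix]
                           simp
  have hfN' : f' N' = N' := by conv_lhs => rw [← hN'.fix]
                               simp
  have hSN' : S' ≠ N' := fun e => Set.disjoint_left.mp hd hS'.mem (e ▸ hN'.mem)
  have hwN : ∀ x ∈ BN, x ∈ nonwandering f → x = N := fun x hx hx' =>
    hN.wand x hx (by rwa [nonwandering_inv])
  have hwN' : ∀ x ∈ BN, x ∈ nonwandering f' → x = N' := fun x hx hx' =>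
    hN'.wand x hx (by rwa [nonwandering_inv])
  have hopen : IsOpen (BS ∪ BN)ᶜ := (hS.closed.union hN.closed).isOpen_compl
  have t1 : ∀ x ∈ Ω', x ∈ nonwandering f' := fun x hx =>
    nonwandering_transfer hS.closed hN.closed hS.maps hN.maps h hx.1 hx.2
  have t2 : ∀ x ∈ nonwandering f', x ∉ BS ∪ BN → x ∈ Ω' := fun x hx hx' =>
    ⟨nonwandering_transfer hS.closed hN.closed hS'.maps hN'.maps (fun x hx => (h x hx).symm) hx hx',
      hx'⟩
  have hΩ : nonwandering f' = Ω' ∪ {S', N'} := by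
    ext x
    constructor
    · intro hx
      by_cases h1 : x ∈ BS
      · exact Or.inr (Or.inl (hS'.wand x h1 hx))
      by_cases h2 : x ∈ BN
      · exact Or.inr (Or.inr (hwN' x h2 hx))
      exact Or.inl (t2 x hx (by simp [h1, h2]))
    · rintro (hx | rfl | rfl)
      · exact t1 x hx
      · exact fixed_mem_nonwandering hS'.fix
      · exact fixed_mem_nonwandering hfN'
  have hz : ∀ (n : ℤ), ∀ x ∈ Ω', (f ^ n) x ∈ Ω' := by
    intro n x hx
    have h1 := zpow_mem hinv n hx.1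
    have h2 : x = (f ^ (-n)) ((f ^ n) x) := by
      rw [← diff_mul_apply, ← zpow_add, neg_add_cancel, zpow_zero, diff_one_apply]
    refine ⟨h1, ?_⟩
    rintro (h' | h')
    · rw [hS.wand _ h' h1, zpow_fix hS.fix] at h2
      exact hx.2 (Or.inl (h2 ▸ hS.mem))
    · rw [hwN _ h' h1, zpow_fix hfN] at h2
      exact hx.2 (Or.inr (h2 ▸ hN.mem))
  have hm1 : MapsTo f Ω' Ω' := fun x hx => by simpa using hz 1 x hx
  have hm2 : MapsTo ⇑f⁻¹ Ω' Ω' := fun x hx => by simpa using hz (-1) x hx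
  have hg1 : ∀ x ∈ Ω', f' =ᶠ[𝓝 x] f := fun x hx => by
    filter_upwards [hopen.mem_nhds hx.2] with y hy using h y hy
  have hg2 : ∀ x ∈ Ω', ⇑f'⁻¹ =ᶠ[𝓝 x] ⇑f⁻¹ := fun x hx => by
    filter_upwards [f⁻¹.continuous.continuousAt.eventually (hopen.mem_nhds (hm2 hx).2)] with y hy
    apply diff_inj f'
    rw [h _ hy, diff_apply_inv, diff_apply_inv]
  have hS'Ω : S' ∉ Ω' := fun h' => h'.2 (Or.inl hS'.mem)
  have hN'Ω : N' ∉ Ω' := fun h' => h'.2 (Or.inr hN'.mem)
  have hΩc : IsClosed Ω' := by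
    have : Ω' = nonwandering f ∩ ((interior BS)ᶜ ∩ (interior BN)ᶜ) := by
      ext x
      constructor
      · intro hx
        exact ⟨hx.1, fun h' => hx.2 (Or.inl (interior_subset h')),
          fun h' => hx.2 (Or.inr (interior_subset h'))⟩
      · rintro ⟨h1, h2, h3⟩
        refine ⟨h1, ?_⟩
        rintro (h' | h')
        · exact h2 (hS.wand x h' h1 ▸ mem_interior_iff_mem_nhds.mpr hS.int)
        · exact h3 (hwN x h' h1 ▸ mem_interior_iff_mem_nhds.mpr hN.int)
    rw [this]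
    exact (isClosed_nonwandering _).inter
      (isOpen_interior.isClosed_compl.inter isOpen_interior.isClosed_compl)
  have hzz : ∀ (n : ℤ), ∀ x ∈ Ω', (f' ^ n) x = (f ^ n) x := by
    intro n x hx
    induction n using Int.induction_on with
    | zero => rfl
    | succ n ih =>
      rw [add_comm, zpow_one_add, zpow_one_add, diff_mul_apply, diff_mul_apply, ih]
      exact (hg1 _ (hz _ x hx)).self_of_nhds
    | pred n ih =>
      rw [sub_eq_neg_add, zpow_add, zpow_neg_one, diff_mul_apply, zpow_add, zpow_neg_one,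
        diff_mul_apply, ih]
      exact (hg2 _ (hz _ x hx)).self_of_nhds
  refine ⟨⟨⟨(isClosed_nonwandering _).isCompact, ?_, g, hg,
    fun x => if x = S' then ⊤ else if x = N' then ⊥ else Es x,
    fun x => if x = N' then ⊤ else if x = S' then ⊥ else Eu x, ?_, ?_, ?_⟩, ?_⟩, ?_⟩
  · rw [hΩ, image_union, image_pair, hS'.fix, hfN']
    congr 1
    ext x
    constructor
    · rintro ⟨y, hy, rfl⟩
      rw [(hg1 y hy).self_of_nhds]; exact hm1 hy
    · intro hx
      exact ⟨f⁻¹ x, hm2 hx, by rw [(hg1 _ (hm2 hx)).self_of_nhds, diff_apply_inv]⟩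
  · rw [hΩ]
    rintro x (hx | rfl | rfl)
    · have a1 : x ≠ S' := fun e => hS'Ω (e ▸ hx)
      have a2 : x ≠ N' := fun e => hN'Ω (e ▸ hx)
      simp only [if_neg a1, if_neg a2]
      exact hcompl x hx.1
    · simp only [if_neg hSN', if_true]
      exact isCompl_top_bot
    · simp only [if_neg hSN'.symm, if_true]
      exact isCompl_bot_top
  · rw [hΩ]
    exact contracted_surgery hm1 hg1 hEs sdiff_subset hS'Ω hN'Ω hSN' hS'.fix hfN' (hS'.hyp g hg)
  · rw [hΩ, pair_comm]
    exact contracted_surgery (f := f⁻¹) (f' := f'⁻¹) hm2 hg2 hEu sdiff_subset hN'Ω hS'Ω hSN'.symm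
      hN'.fix (by conv_lhs => rw [← hS'.fix]
                  simp) (hN'.hyp g hg)
  · rw [hΩ]
    rintro x (hx | rfl | rfl)
    · rw [mem_closure_iff_nhds]
      intro U hU
      obtain ⟨p, hp, n, hn, hpn⟩ :=
        mem_closure_iff_nhds.mp (hper hx.1) _ (inter_mem hU (hopen.mem_nhds hx.2))
      refine ⟨p, hp.1, n, hn, ?_⟩
      have e : f^[n] p = p := hpn
      show f'^[n] p = p
      rw [seg_eq hS.maps hN.maps h n p (fun h' => hp.2 (Or.inr h'))
        (fun h' => hp.2 (Or.inl (e ▸ h'))), e]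
    · exact subset_closure ⟨1, one_pos, hS'.fix⟩
    · exact subset_closure ⟨1, one_pos, hfN'⟩
  · rintro ⟨m, Λ, hm, hb, hΛ, hc⟩
    have c1 : ∀ j ≤ m, S' ∉ Λ j := by
      have : ∀ j < m, S' ∉ Λ j := by
        intro j hj h'
        obtain ⟨z, ⟨hz1, -⟩, hz2⟩ := hc j hj
        rw [basic_eq_singleton (hb j hj.le) h' hS'.int hS'.fix hS'.wand, stableSet,
          nhdsSet_singleton] at hz1
        exact hz2 (hS'.back z hz1 ▸ fixed_mem_nonwandering hS'.fix)
      intro j hj
      rcases hj.lt_or_eq with hj | rfl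
      · exact this j hj
      · rw [hΛ]; exact this 0 hm
    have c2 : ∀ j ≤ m, N' ∉ Λ j := by
      have : ∀ j < m, N' ∉ Λ (j + 1) := by
        intro j hj h'
        obtain ⟨z, ⟨-, hz1⟩, hz2⟩ := hc j hj
        rw [basic_eq_singleton (hb (j + 1) hj) h' hN'.int hfN' hwN', stableSet,
          nhdsSet_singleton] at hz1
        exact hz2 (hN'.back z (by simpa using hz1) ▸ fixed_mem_nonwandering hfN')
      intro j hj
      rcases j with _ | j
      · rw [← hΛ]
        obtain ⟨k, rfl⟩ : ∃ k, m = k + 1 := ⟨m - 1, by omega⟩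
        exact this k (by omega)
      · exact this j hj
    have c3 : ∀ j ≤ m, Λ j ⊆ Ω' := by
      intro j hj x hx
      have := (hb j hj).1 hx
      rw [hΩ] at this
      rcases this with h' | rfl | rfl
      · exact h'
      · exact absurd hx (c1 j hj)
      · exact absurd hx (c2 j hj)
    refine hcyc ⟨m, Λ, hm, fun j hj => ?_, hΛ, fun j hj => ?_⟩
    · obtain ⟨b1, b2, b3, b4, x, hx, b5⟩ := hb j hj
      refine ⟨fun y hy => (c3 j hj hy).1, b2, ?_, ?_, x, hx, ?_⟩
      · have : nonwandering f \ Λ j = ((nonwandering f' \ Λ j) ∩ Ω') ∪ {S, N} := by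
          ext y
          constructor
          · intro hy
            by_cases h1 : y ∈ BS
            · exact Or.inr (Or.inl (hS.wand y h1 hy.1))
            by_cases h2 : y ∈ BN
            · exact Or.inr (Or.inr (hwN y h2 hy.1))
            have : y ∈ Ω' := ⟨hy.1, by simp [h1, h2]⟩
            exact Or.inl ⟨⟨t1 y this, hy.2⟩, this⟩
          · rintro (hy | rfl | rfl)
            · exact ⟨hy.2.1, hy.1.2⟩
            · exact ⟨fixed_mem_nonwandering hS.fix, fun h' => (c3 j hj h').2 (Or.inl hS.mem)⟩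
            · exact ⟨fixed_mem_nonwandering hfN, fun h' => (c3 j hj h').2 (Or.inr hN.mem)⟩
        rw [this]
        exact (b3.inter hΩc).union (toFinite _).isClosed
      · rw [← b4]
        conv_rhs => rw [b4]
        rw [b4]
        conv_rhs => rw [← b4]
        exact image_congr fun y hy => (hg1 y (c3 j hj hy)).self_of_nhds.symm
      · simp only [diff_zpow_apply] at b5 ⊢
        simpa only [hzz _ x (c3 j hj hx)] using b5
    · obtain ⟨z, ⟨hz1, hz2⟩, hz3⟩ := hc j hj
      have d1 : ∀ n : ℕ, f'^[n] z ∉ BS := by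
        intro n hn
        have a1 := hS'.tend _ hn
        have a2 : Tendsto (fun k : ℕ => f'^[k] (f'^[n] z)) atTop (𝓝ˢ (Λ (j + 1))) := by
          simp only [← iterate_add_apply]
          exact hz2.comp (tendsto_add_atTop_nat n)
        have a3 : Disjoint (𝓝ˢ (Λ (j + 1))) (𝓝 S') := by
          rw [disjoint_nhdsSet_nhds, (hb (j + 1) hj).2.1.closure_eq]
          exact c1 _ hj
        exact a2.not_tendsto a3 a1
      have d2 : ∀ n : ℕ, (⇑f'⁻¹)^[n] z ∉ BN := by
        intro n hn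
        have a1 := hN'.tend _ hn
        have a2 : Tendsto (fun k : ℕ => (⇑f'⁻¹)^[k] ((⇑f'⁻¹)^[n] z)) atTop (𝓝ˢ (Λ j)) := by
          simp only [← iterate_add_apply]
          exact hz1.comp (tendsto_add_atTop_nat n)
        have a3 : Disjoint (𝓝ˢ (Λ j)) (𝓝 N') := by
          rw [disjoint_nhdsSet_nhds, (hb j hj.le).2.1.closure_eq]
          exact c2 _ hj.le
        exact a2.not_tendsto a3 a1
      have d3 : ∀ n : ℕ, f^[n] z = f'^[n] z := fun n =>
        seg_eq hS'.maps hN'.maps (fun x hx => (h x hx).symm) n z (d2 0) (d1 n)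
      have d4 : ∀ n : ℕ, (⇑f'⁻¹)^[n] z ∉ BS := by
        intro n hn
        have := hS'.maps.iterate n hn
        have e := iterate_inv_iterate f'⁻¹ n z
        rw [inv_inv] at e
        rw [e] at this
        exact d1 0 this
      have d5 : ∀ n : ℕ, (⇑f⁻¹)^[n] z = (⇑f'⁻¹)^[n] z := by
        intro n
        induction n with
        | zero => rfl
        | succ n ih =>
          rw [iterate_succ_apply', ih]
          apply diff_inj f
          rw [diff_apply_inv, ← h _ (by simp only [mem_union, not_or]; exact ⟨d4 _, d2 _⟩),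
            iterate_succ_apply', diff_apply_inv]
      refine ⟨z, ⟨?_, ?_⟩, fun h' => hz3 (t1 z ⟨h', ?_⟩)⟩
      · show Tendsto (fun n : ℕ => (⇑f⁻¹)^[n] z) _ _
        simp only [d5]; exact hz1
      · show Tendsto (fun n : ℕ => f^[n] z) _ _
        simp only [d3]; exact hz2
      · simp only [mem_union, not_or]; exact ⟨d1 0, d2 0⟩

end Pool.Agent.Lib.MP_95f3db_an
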