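import Pool.Agent.Lib.MP_95f3db_an.Chart

/-!
# The C1 topology in charts
-/

namespace Pool.Agent.Lib.MP_95f3db_an

open scoped Manifold ContDiff Topology
open Set Filter Metric

variable {E : Type*} [NormedAddCommGroup E] [NormedSpace ℝ E] {M : Type*} [TopologicalSpace M]
  [ChartedSpace E M]

lemma tang_mul (f g : Diff1 E M) (w : TM E M) : tang (f * g) w = tang f (tang g w) :=
  tangentMap_comp_at w (f.mdifferentiable one_ne_zero _) (g.mdifferentiable one_ne_zero _)

lemma tang_one (w : TM E M) : tang (1 : Diff1 E M) w = w :=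
  congrFun tangentMap_id w

@[simp] lemma tang_fst (f : Diff1 E M) (w : TM E M) : (tang f w).1 = f w.1 := rfl

lemma tangentMap_congr {E' M' : Type*} [NormedAddCommGroup E'] [NormedSpace ℝ E']
    [TopologicalSpace M'] [ChartedSpace E' M'] {f g : M → M'} {w : TM E M} (h : f =ᶠ[𝓝 w.1] g) :
    tangentMap 𝓘(ℝ, E) 𝓘(ℝ, E') f w = tangentMap 𝓘(ℝ, E) 𝓘(ℝ, E') g w := by
  refine Bundle.TotalSpace.ext h.self_of_nhds ?_
  rw [tangentMap, h.self_of_nhds, tangentMap, h.mfderiv_eq]

lemma tang_congr {f g : Diff1 E M} {w : TM E M} (h : f =ᶠ[𝓝 w.1] g) : tang f w = tang g w :=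
  tangentMap_congr h

variable {P Q : Type*} [NormedAddCommGroup P] [NormedSpace ℝ P] [NormedAddCommGroup Q]
  [NormedSpace ℝ Q]

variable (E) in
/-- Tangent map of the inverse of a chart. -/
noncomputable def up (φ : OpenPartialHomeomorph M P) (p : P × P) : TM E M :=
  tangentMap 𝓘(ℝ, P) 𝓘(ℝ, E) φ.symm ⟨p.1, p.2⟩

/-- Tangent map of a chart. -/
noncomputable def down (φ : OpenPartialHomeomorph M P) (w : TM E M) : P × P :=
  ((tangentMap 𝓘(ℝ, E) 𝓘(ℝ, P) φ w).1, (tangentMap 𝓘(ℝ, E) 𝓘(ℝ, P) φ w).2)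

variable {φ : OpenPartialHomeomorph M P} {ψ : OpenPartialHomeomorph M Q}

@[simp] lemma up_fst (p : P × P) : (up E φ p).1 = φ.symm p.1 := rfl
@[simp] lemma down_fst (w : TM E M) : (down φ w).1 = φ w.1 := rfl

lemma IsChart.mdiff (hφ : IsChart E φ) {x : M} (hx : x ∈ φ.source) :
    MDifferentiableAt 𝓘(ℝ, E) 𝓘(ℝ, P) φ x :=
  (hφ.cd.contMDiffAt (φ.open_source.mem_nhds hx)).mdifferentiableAt one_ne_zero

lemma IsChart.mdiff_symm (hφ : IsChart E φ) {y : P} (hy : y ∈ φ.target) :
    MDifferentiableAt 𝓘(ℝ, P) 𝓘(ℝ, E) φ.symm y :=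
  (hφ.cd_symm.contMDiffAt (φ.open_target.mem_nhds hy)).mdifferentiableAt one_ne_zero

lemma up_down (hφ : IsChart E φ) {w : TM E M} (hw : w.1 ∈ φ.source) : up E φ (down φ w) = w := by
  have h1 := tangentMap_comp_at w (hφ.mdiff_symm (φ.map_source hw)) (hφ.mdiff hw)
  have h2 : φ.symm ∘ φ =ᶠ[𝓝 w.1] id := by
    filter_upwards [φ.open_source.mem_nhds hw] with z hz using φ.left_inv hz
  rw [tangentMap_congr h2, tangentMap_id] at h1
  exact h1.symm

lemma down_tang_up (hφ : IsChart E φ) (hψ : IsChart E ψ) {k : Diff1 E M} {y : P}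
    (hy : y ∈ Dom k φ ψ) (v : P) :
    down ψ (tang k (up E φ (y, v))) = (rep k φ ψ y, fderiv ℝ (rep k φ ψ) y v) := by
  have h1 := tangentMap_comp_at (I := 𝓘(ℝ, P)) (⟨y, v⟩ : TangentBundle 𝓘(ℝ, P) P)
    (k.mdifferentiable one_ne_zero _) (hφ.mdiff_symm hy.1)
  have h2 := tangentMap_comp_at (I := 𝓘(ℝ, P)) (⟨y, v⟩ : TangentBundle 𝓘(ℝ, P) P)
    (f := k ∘ φ.symm) (hψ.mdiff hy.2)
    ((k.mdifferentiable one_ne_zero _).comp y (hφ.mdiff_symm hy.1))
  rw [h1] at h2
  refine Prod.ext rfl ?_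
  have h3 : (down ψ (tang k (up E φ (y, v)))).2 =
      (tangentMap 𝓘(ℝ, P) 𝓘(ℝ, Q) (ψ ∘ k ∘ φ.symm) ⟨y, v⟩).2 := by rw [h2]; rfl
  rw [h3]
  show mfderiv 𝓘(ℝ, P) 𝓘(ℝ, Q) (ψ ∘ k ∘ φ.symm) y v = _
  rw [mfderiv_eq_fderiv]
  rfl

lemma tang_up (hφ : IsChart E φ) (hψ : IsChart E ψ) {k : Diff1 E M} {y : P}
    (hy : y ∈ Dom k φ ψ) (v : P) :
    tang k (up E φ (y, v)) = up E ψ (rep k φ ψ y, fderiv ℝ (rep k φ ψ) y v) := by
  rw [← down_tang_up hφ hψ hy, up_down hψ hy.2]

variable [IsManifold 𝓘(ℝ, E) 1 M]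

lemma continuous_proj : Continuous fun w : TM E M => w.1 :=
  FiberBundle.continuous_proj E (TangentSpace 𝓘(ℝ, E) (M := M))

lemma continuousAt_up (hφ : IsChart E φ) {p : P × P} (hp : p.1 ∈ φ.target) :
    ContinuousAt (up E φ) p := by
  have h1 := hφ.cd_symm.continuousOn_tangentMapWithin le_rfl φ.open_target.uniqueMDiffOn
  have h2 : Continuous fun p : P × P => (⟨p.1, p.2⟩ : TangentBundle 𝓘(ℝ, P) P) :=
    (tangentBundleModelSpaceHomeomorph 𝓘(ℝ, P)).symm.continuous
  have h3 : ContinuousOn (up E φ) (Prod.fst ⁻¹' φ.target) := by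
    refine (h1.comp h2.continuousOn fun q hq => hq).congr fun q hq => ?_
    exact (tangentMapWithin_eq_tangentMap (φ.open_target.uniqueMDiffOn _ hq)
      (hφ.mdiff_symm hq)).symm
  exact h3.continuousAt ((φ.open_target.preimage continuous_fst).mem_nhds hp)

lemma continuousAt_down (hφ : IsChart E φ) {w : TM E M} (hw : w.1 ∈ φ.source) :
    ContinuousAt (down φ) w := by
  have h1 := hφ.cd.continuousOn_tangentMapWithin le_rfl φ.open_source.uniqueMDiffOn
  have h2 : Continuous fun p : TangentBundle 𝓘(ℝ, P) P => ((p.1, p.2) : P × P) :=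
    (tangentBundleModelSpaceHomeomorph 𝓘(ℝ, P)).continuous
  have h3 : ContinuousOn (down φ) ((fun w : TM E M => w.1) ⁻¹' φ.source) := by
    refine (h2.comp_continuousOn h1).congr fun q hq => ?_
    simp only [Function.comp_apply, down]
    rw [tangentMapWithin_eq_tangentMap (φ.open_source.uniqueMDiffOn _ hq) (hφ.mdiff hq)]
  exact h3.continuousAt ((φ.open_source.preimage continuous_proj).mem_nhds hw)

noncomputable instance diffTop : TopologicalSpace (Diff1 E M) := c1Top E M

lemma continuous_tangCM : Continuous (tangCM : Diff1 E M → C(TM E M, TM E M)) :=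
  continuous_induced_dom

lemma tendsto_diff_iff {ι : Type*} {l : Filter ι} {f : ι → Diff1 E M} {g : Diff1 E M} :
    Tendsto f l (𝓝 g) ↔ Tendsto (fun i => tangCM (f i)) l (𝓝 (tangCM g)) := by
  rw [nhds_induced, tendsto_comap_iff]; rfl

variable [FiniteDimensional ℝ E]

instance : LocallyCompactSpace (TM E M) := by
  have : ProperSpace E := FiniteDimensional.proper ℝ E
  have : LocallyCompactSpace (ModelProd E E) := inferInstanceAs (LocallyCompactSpace (E × E))
  exact ChartedSpace.locallyCompactSpace (ModelProd E E) _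

lemma continuous_tang : Continuous fun p : Diff1 E M × TM E M => tang p.1 p.2 :=
  continuous_eval.comp (continuous_tangCM.prodMap continuous_id)

instance : ContinuousMul (Diff1 E M) := by
  refine ⟨continuous_induced_rng.mpr ?_⟩
  have : (tangCM ∘ fun p : Diff1 E M × Diff1 E M => p.1 * p.2) =
      fun p => (tangCM p.1).comp (tangCM p.2) := by
    ext1 p
    ext1 w
    exact tang_mul _ _ _
  rw [this]
  exact (continuous_tangCM.comp continuous_fst).compCM (continuous_tangCM.comp continuous_snd)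

lemma continuous_diff_eval : Continuous fun p : Diff1 E M × M => p.1 p.2 := by
  have h1 : Continuous (Bundle.zeroSection E (TangentSpace 𝓘(ℝ, E) (M := M))) :=
    (Bundle.contMDiff_zeroSection (n := 0) (IB := 𝓘(ℝ, E)) ℝ _).continuous
  exact continuous_proj.comp (continuous_tang.comp (continuous_id.prodMap h1))

lemma eventually_mapsTo {f : Diff1 E M} {K U : Set M} (hK : IsCompact K) (hU : IsOpen U)
    (h : MapsTo f K U) : ∀ᶠ g : Diff1 E M in 𝓝 f, MapsTo g K U :=
  hK.eventually_forall_of_forall_eventually fun x hx =>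
    (continuous_diff_eval.tendsto (f, x)).eventually (hU.mem_nhds (h hx))

lemma eventually_mapsTo_inv [CompactSpace M] [T2Space M] {f : Diff1 E M} {K U : Set M}
    (hK : IsCompact K) (hU : IsOpen U) (h : MapsTo ⇑f⁻¹ K U) :
    ∀ᶠ g : Diff1 E M in 𝓝 f, MapsTo ⇑g⁻¹ K U := by
  have := eventually_mapsTo (f := f) hU.isClosed_compl.isCompact hK.isClosed.isOpen_compl
    (fun x hx hx' => hx (by simpa using h hx'))
  filter_upwards [this] with g hg x hx
  by_contra h'
  exact hg h' (by simpa using hx)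

lemma eventually_rep_close [FiniteDimensional ℝ P] (hφ : IsChart E φ) (hψ : IsChart E ψ)
    {f : Diff1 E M} {K : Set P} (hK : IsCompact K) (hKd : K ⊆ Dom f φ ψ) {ε : ℝ} (hε : 0 < ε) :
    ∀ᶠ g : Diff1 E M in 𝓝 f, ∀ y ∈ K, y ∈ Dom g φ ψ ∧
      ‖fderiv ℝ (rep g φ ψ) y - fderiv ℝ (rep f φ ψ) y‖ ≤ ε := by
  have : ProperSpace P := FiniteDimensional.proper ℝ P
  have h1 : ∀ᶠ g : Diff1 E M in 𝓝 f, MapsTo g (φ.symm '' K) ψ.source :=
    eventually_mapsTo (isCompact_symm_image hK fun y hy => (hKd hy).1) ψ.open_source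
      (by rintro _ ⟨y, hy, rfl⟩; exact (hKd hy).2)
  have h2 : ∀ᶠ g : Diff1 E M in 𝓝 f, ∀ p ∈ K ×ˢ closedBall (0 : P) 1,
      ‖(down ψ (tang g (up E φ p))).2 - (down ψ (tang f (up E φ p))).2‖ < ε := by
    refine (hK.prod (isCompact_closedBall _ _)).eventually_forall_of_forall_eventually
      fun p hp => ?_
    have a1 : ContinuousAt (fun z : Diff1 E M × (P × P) => up E φ z.2) (f, p) :=
      (continuousAt_up hφ (hKd hp.1).1).comp_of_eq continuousAt_snd rfl
    have a2 : ContinuousAt (down ψ) (tang f (up E φ p)) := continuousAt_down hψ (hKd hp.1).2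
    have a3 : ContinuousAt (fun z : Diff1 E M × (P × P) => down ψ (tang z.1 (up E φ z.2))) (f, p) :=
      a2.comp_of_eq (continuous_tang.continuousAt.comp (continuousAt_fst.prodMk a1)) rfl
    have a4 : ContinuousAt (fun z : Diff1 E M × (P × P) => down ψ (tang f (up E φ z.2))) (f, p) :=
      a2.comp_of_eq (continuous_tang.continuousAt.comp (continuousAt_const.prodMk a1)) rfl
    exact (a3.snd.sub a4.snd).norm.eventually (gt_mem_nhds (by simpa using hε))
  filter_upwards [h1, h2] with g hg hg' y hy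
  have hd : y ∈ Dom g φ ψ := ⟨(hKd hy).1, hg ⟨y, hy, rfl⟩⟩
  refine ⟨hd, ContinuousLinearMap.opNorm_le_of_unit_norm hε.le fun v hv => ?_⟩
  have := hg' (y, v) ⟨hy, by simp [hv]⟩
  rw [down_tang_up hφ hψ hd, down_tang_up hφ hψ (hKd hy)] at this
  exact this.le

omit [FiniteDimensional ℝ E] in
/-- Transported small displacements are close to the identity. -/
lemma exists_small_mem [T2Space M] (hφ : IsChart E φ) {K : Set P} (hK : IsCompact K)
    (hKt : K ⊆ φ.target) {W : Set (Diff1 E M)} (hW : W ∈ 𝓝 (1 : Diff1 E M)) :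
    ∃ δ > 0, ∀ u σ, Small K δ u → IsTr φ K u σ → σ ∈ W := by
  obtain ⟨R, hR0, hR⟩ := hK.isBounded.subset_closedBall_lt 0 0
  let X := {t : ℝ × (P → P) × Diff1 E M // Small K t.1 t.2.1 ∧ IsTr φ K t.2.1 t.2.2}
  let l : Filter X := comap (fun t => t.1.1) (𝓝 0)
  have hl : Tendsto (fun t : X => t.1.1) l (𝓝 0) := tendsto_comap
  have key : Tendsto (fun t : X => t.1.2.2) l (𝓝 1) := by
    rw [tendsto_diff_iff, ContinuousMap.tendsto_nhds_compactOpen]
    intro C hC U hU hCU
    have h1 : {z : X × TM E M | tang z.1.1.2.2 z.2 ∈ U} ∈ l ×ˢ 𝓝ˢ C := by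
      refine hC.mem_prod_nhdsSet_of_forall fun w hw => ?_
      have hwU : w ∈ U := by
        have := hCU hw
        rwa [show tangCM (1 : Diff1 E M) w = w from tang_one w] at this
      have : Tendsto (fun z : X × TM E M => tang z.1.1.2.2 z.2) (l ×ˢ 𝓝 w) (𝓝 w) := by
        by_cases hwK : w.1 ∈ φ.symm '' K
        · have hws : w.1 ∈ φ.source := by
            obtain ⟨y, hy, h⟩ := hwK
            rw [← h]; exact φ.map_target (hKt hy)
          have hd : Tendsto (fun z : X × TM E M => down φ z.2) (l ×ˢ 𝓝 w) (𝓝 (down φ w)) :=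
            (continuousAt_down hφ hws).tendsto.comp tendsto_snd
          have hδ : Tendsto (fun z : X × TM E M => z.1.1.1) (l ×ˢ 𝓝 w) (𝓝 0) := hl.comp tendsto_fst
          have a1 : Tendsto (fun z : X × TM E M => z.1.1.2.1 (down φ z.2).1) (l ×ˢ 𝓝 w) (𝓝 0) := by
            have := hδ.mul_const (2 * R + 1)
            rw [zero_mul] at this
            exact squeeze_zero_norm (fun z => z.1.2.1.norm_le hR0.le hR _) this
          have a2 : Tendsto (fun z : X × TM E M => fderiv ℝ z.1.1.2.1 (down φ z.2).1 (down φ z.2).2)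
              (l ×ˢ 𝓝 w) (𝓝 0) := by
            have := hδ.mul hd.snd_nhds.norm
            rw [zero_mul] at this
            exact squeeze_zero_norm (fun z =>
              ContinuousLinearMap.le_of_opNorm_le _ (z.1.2.1.bd _) _) this
          have a3 := (hd.fst_nhds.add a1).prodMk_nhds (hd.snd_nhds.add a2)
          rw [add_zero, add_zero] at a3
          have a4 := (continuousAt_up hφ (p := down φ w) (φ.map_source hws)).tendsto.comp a3
          rw [up_down hφ hws] at a4
          refine a4.congr' ?_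
          have a5 : ∀ᶠ z : X × TM E M in l ×ˢ 𝓝 w, z.2.1 ∈ φ.source :=
            tendsto_snd.eventually ((φ.open_source.preimage continuous_proj).mem_nhds hws)
          filter_upwards [a5] with z hz
          have b1 : (down φ z.2).1 ∈ φ.target := φ.map_source hz
          have b2 := tang_up hφ hφ (z.1.2.2.dom b1) (down φ z.2).2
          rw [Prod.mk.eta, up_down hφ hz, z.1.2.2.rep_eq b1, z.1.2.2.fderiv_rep z.1.2.1 b1] at b2
          rw [b2]
          rfl
        · refine tendsto_snd.congr' ?_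
          have ho := (isCompact_symm_image hK hKt).isClosed.isOpen_compl
          have a5 : ∀ᶠ z : X × TM E M in l ×ˢ 𝓝 w, z.2.1 ∉ φ.symm '' K :=
            tendsto_snd.eventually ((ho.preimage continuous_proj).mem_nhds hwK)
          filter_upwards [a5] with z hz
          rw [tang_congr (g := 1), tang_one]
          filter_upwards [ho.mem_nhds hz] with x hx using z.1.2.2.out x hx
      exact this (hU.mem_nhds hwU)
    obtain ⟨A, hA, B, hB, hAB⟩ := mem_prod_iff.mp h1
    filter_upwards [hA] with t ht w hw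
    exact hAB (mk_mem_prod ht (subset_of_mem_nhdsSet hB hw))
  obtain ⟨T, hT, hTW⟩ := mem_comap.mp (key hW)
  obtain ⟨ε, hε, hεT⟩ := Metric.mem_nhds_iff.mp hT
  refine ⟨ε / 2, by positivity, fun u σ hu hσ => ?_⟩
  refine hTW (a := ⟨(ε / 2, u, σ), hu, hσ⟩) (hεT ?_)
  rw [mem_ball, dist_zero_right, Real.norm_of_nonneg (by positivity)]
  exact half_lt_self hε

end Pool.Agent.Lib.MP_95f3db_an
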